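import Mathlib

set_option autoImplicit false

/-!
# Abstract resolvent construction for a semibounded form
-/

open Filter Topology Set
open scoped ComplexConjugate InnerProductSpace

namespace Pool.Agent.H99.Leaky

variable {D : Type*} [AddCommGroup D] [Module ℂ D]

/-- Hermitian sesquilinear forms, linear in the first variable. -/
structure IsHerm (q : D → D → ℂ) : Prop where
  add_left : ∀ u v w, q (u + v) w = q u w + q v w
  smul_left : ∀ (c : ℂ) u v, q (c • u) v = c * q u v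
  herm : ∀ u v, q v u = conj (q u v)

namespace IsHerm

variable {q : D → D → ℂ} (h : IsHerm q)

include h

lemma add_right (u v w : D) : q u (v + w) = q u v + q u w := by
  rw [h.herm, h.add_left, map_add, ← h.herm, ← h.herm]

lemma smul_right (c : ℂ) (u v : D) : q u (c • v) = conj c * q u v := by
  rw [h.herm, h.smul_left, map_mul, ← h.herm]

lemma neg_left (u v : D) : q (-u) v = -q u v := by
  rw [← neg_one_smul ℂ u, h.smul_left]; ring

lemma neg_right (u v : D) : q u (-v) = -q u v := by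
  rw [h.herm, h.neg_left, map_neg, ← h.herm]

lemma sub_left (u v w : D) : q (u - v) w = q u w - q v w := by
  rw [sub_eq_add_neg, h.add_left, h.neg_left]; ring

lemma sub_right (u v w : D) : q u (v - w) = q u v - q u w := by
  rw [sub_eq_add_neg, h.add_right, h.neg_right]; ring

lemma self_eq (u : D) : q u u = ((q u u).re : ℂ) := by
  have h1 := h.herm u u
  exact (Complex.conj_eq_iff_real.mp h1.symm).elim fun r hr => by rw [hr]; simp

lemma re_swap (u v : D) : (q v u).re = (q u v).re := by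
  rw [h.herm u v, Complex.conj_re]

lemma add_add (u v : D) : (q (u + v) (u + v)).re = (q u u).re + 2 * (q u v).re + (q v v).re := by
  rw [h.add_left, h.add_right, h.add_right]
  simp only [Complex.add_re]
  rw [h.re_swap u v]; ring

lemma sub_sub (u v : D) : (q (u - v) (u - v)).re = (q u u).re - 2 * (q u v).re + (q v v).re := by
  rw [h.sub_left, h.sub_right, h.sub_right]
  simp only [Complex.sub_re]
  rw [h.re_swap u v]; ring

end IsHerm

variable {H : Type*} [NormedAddCommGroup H] [InnerProductSpace ℂ H]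

/-- The graph of the operator associated with the form `q`. -/
def AbsGraph (q : D → D → ℂ) (J : D →ₗ[ℂ] H) (u f : H) : Prop :=
  ∃ w : ℕ → D, Tendsto (fun n => J (w n)) atTop (𝓝 u) ∧
    Tendsto (fun k : ℕ × ℕ => q (w k.1 - w k.2) (w k.1 - w k.2)) atTop (𝓝 0) ∧
    ∀ v, Tendsto (fun n => q (w n) v) atTop (𝓝 ⟪J v, f⟫_ℂ)

/-- The shifted form. -/
noncomputable def shiftForm (q : D → D → ℂ) (J : D →ₗ[ℂ] H) (E : ℝ) (u v : D) : ℂ := q u v - E * ⟪J v, J u⟫_ℂ

lemma isHerm_shift {q : D → D → ℂ} (hq : IsHerm q) (J : D →ₗ[ℂ] H) (E : ℝ) :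
    IsHerm (shiftForm q J E) where
  add_left u v w := by
    simp only [shiftForm, hq.add_left, map_add, inner_add_right]; ring
  smul_left c u v := by
    simp only [shiftForm, hq.smul_left, map_smul, inner_smul_right]; ring
  herm u v := by
    simp only [shiftForm, map_sub, map_mul, Complex.conj_ofReal, inner_conj_symm]
    rw [hq.herm u v]

lemma shift_re {q : D → D → ℂ} (J : D →ₗ[ℂ] H) (E : ℝ) (u : D) :
    (shiftForm q J E u u).re = (q u u).re - E * ‖J u‖ ^ 2 := by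
  simp only [shiftForm, Complex.sub_re, Complex.re_ofReal_mul]
  rw [inner_self_eq_norm_sq_to_K]
  norm_cast

section existence

variable {q : D → D → ℂ} (hq : IsHerm q) {J : D →ₗ[ℂ] H} {δ : ℝ} (hδ : 0 < δ)
  (hpos : ∀ u, δ * ‖J u‖ ^ 2 ≤ (q u u).re) (g : H)

/-- The energy functional. -/
noncomputable def energy (q : D → D → ℂ) (J : D →ₗ[ℂ] H) (g : H) (u : D) : ℝ :=
  (q u u).re - 2 * (⟪J u, g⟫_ℂ).re

include hδ hpos in
lemma energy_ge (u : D) : -(‖g‖ ^ 2 / δ) ≤ energy q J g u := by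
  have h1 := hpos u
  have h2 : (⟪J u, g⟫_ℂ).re ≤ ‖J u‖ * ‖g‖ :=
    (Complex.re_le_norm _).trans (norm_inner_le_norm _ _)
  have h3 : 0 ≤ δ * (‖J u‖ - ‖g‖ / δ) ^ 2 := by positivity
  have h4 : δ * (‖J u‖ - ‖g‖ / δ) ^ 2 = δ * ‖J u‖ ^ 2 - 2 * (‖J u‖ * ‖g‖) + ‖g‖ ^ 2 / δ := by
    field_simp
    ring
  rw [energy]
  linarith

include hq in
lemma energy_parallelogram (u v : D) : (q (u - v) (u - v)).re =
    2 * energy q J g u + 2 * energy q J g v - 4 * energy q J g ((2⁻¹ : ℂ) • (u + v)) := by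
  have e1 : (q ((2⁻¹ : ℂ) • (u + v)) ((2⁻¹ : ℂ) • (u + v))).re = 1 / 4 * (q (u + v) (u + v)).re := by
    rw [hq.smul_left, hq.smul_right, ← mul_assoc]
    have : (2⁻¹ : ℂ) * conj (2⁻¹ : ℂ) = ((1 / 4 : ℝ) : ℂ) := by
      have : conj (2⁻¹ : ℂ) = 2⁻¹ := by
        rw [map_inv₀]; congr 1; exact Complex.conj_ofNat 2
      rw [this]; push_cast; norm_num
    rw [this, Complex.re_ofReal_mul]
  have e2 : (⟪J ((2⁻¹ : ℂ) • (u + v)), g⟫_ℂ).re = 1 / 2 * ((⟪J u, g⟫_ℂ).re + (⟪J v, g⟫_ℂ).re) := by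
    rw [map_smul, inner_smul_left, map_add, inner_add_left]
    have : conj (2⁻¹ : ℂ) = ((1 / 2 : ℝ) : ℂ) := by
      rw [map_inv₀, Complex.conj_ofNat]; push_cast; norm_num
    rw [this, Complex.re_ofReal_mul, Complex.add_re]
  simp only [energy]
  rw [e1, e2, hq.add_add, hq.sub_sub]
  ring

include hq hδ hpos in
lemma energy_variation {m : ℝ} (hm : ∀ u, m ≤ energy q J g u) (u v : D) :
    ‖q u v - ⟪J v, g⟫_ℂ‖ ^ 2 ≤ ((q v v).re + 1) * (energy q J g u - m) := by
  set z : ℂ := q u v - ⟪J v, g⟫_ℂ with hz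
  have hv : 0 ≤ (q v v).re := le_trans (by positivity) (hpos v)
  set k : ℝ := (q v v).re with hk
  set τ : ℝ := -(1 / (k + 1)) with hτ
  have key := hm (u + ((τ : ℂ) * z) • v)
  have e1 : energy q J g (u + ((τ : ℂ) * z) • v) =
      energy q J g u + 2 * τ * ‖z‖ ^ 2 + τ ^ 2 * ‖z‖ ^ 2 * k := by
    simp only [energy]
    rw [hq.add_add, hq.smul_right, hq.smul_left, hq.smul_right, map_add, inner_add_left, map_smul,
      inner_smul_left]
    have f1 : conj ((τ : ℂ) * z) = (τ : ℂ) * conj z := by rw [map_mul, Complex.conj_ofReal]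
    rw [f1]
    have f2 : (τ : ℂ) * z * ((τ : ℂ) * conj z * q v v) = ((τ ^ 2 * ‖z‖ ^ 2 : ℝ) : ℂ) * q v v := by
      have : z * conj z = ((‖z‖ ^ 2 : ℝ) : ℂ) := by
        rw [Complex.mul_conj, Complex.normSq_eq_norm_sq]
      push_cast at this ⊢
      linear_combination (τ : ℂ) ^ 2 * q v v * this
    rw [f2, Complex.re_ofReal_mul, ← hk]
    have f3 : ((τ : ℂ) * conj z * q u v).re - ((τ : ℂ) * conj z * ⟪J v, g⟫_ℂ).re = τ * ‖z‖ ^ 2 := by
      rw [← Complex.sub_re, ← mul_sub, ← hz]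
      have : (τ : ℂ) * conj z * z = ((τ * ‖z‖ ^ 2 : ℝ) : ℂ) := by
        have h5 : z * conj z = ((‖z‖ ^ 2 : ℝ) : ℂ) := by
          rw [Complex.mul_conj, Complex.normSq_eq_norm_sq]
        push_cast at h5 ⊢
        linear_combination (τ : ℂ) * h5
      rw [this, Complex.ofReal_re]
    rw [Complex.add_re]
    linear_combination 2 * f3
  rw [e1] at key
  have hk1 : 0 < k + 1 := by linarith
  have e2 : 2 * τ * ‖z‖ ^ 2 + τ ^ 2 * ‖z‖ ^ 2 * k ≤ -(‖z‖ ^ 2 / (k + 1)) := by
    have : -(‖z‖ ^ 2 / (k + 1)) - (2 * τ * ‖z‖ ^ 2 + τ ^ 2 * ‖z‖ ^ 2 * k) =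
        ‖z‖ ^ 2 / (k + 1) ^ 2 := by
      rw [hτ]
      field_simp
      ring
    have h6 : 0 ≤ ‖z‖ ^ 2 / (k + 1) ^ 2 := by positivity
    linarith
  have e3 : ‖z‖ ^ 2 / (k + 1) ≤ energy q J g u - m := by linarith
  rw [div_le_iff₀ hk1] at e3
  linarith

end existence

section main

variable [CompleteSpace H] {q : D → D → ℂ} (hq : IsHerm q) {J : D →ₗ[ℂ] H} {K E : ℝ}
  (hpos : ∀ u, -K * ‖J u‖ ^ 2 ≤ (q u u).re) (hE : E < -K)

include hq hpos hE

/-- Existence of a solution of the resolvent equation. -/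
theorem exists_absGraph (g : H) : ∃ u : H, AbsGraph q J u (g + (E : ℂ) • u) := by
  set r : D → D → ℂ := shiftForm q J E with hr
  have hrH : IsHerm r := isHerm_shift hq J E
  set δ : ℝ := -K - E with hδ
  have hδ0 : 0 < δ := by rw [hδ]; linarith
  have hrpos : ∀ u, δ * ‖J u‖ ^ 2 ≤ (r u u).re := by
    intro u
    rw [hr, shift_re, hδ]
    have := hpos u
    linarith
  have hbdd : BddBelow (range (energy r J g)) :=
    ⟨-(‖g‖ ^ 2 / δ), by rintro _ ⟨u, rfl⟩; exact energy_ge hδ0 hrpos g u⟩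
  set m : ℝ := sInf (range (energy r J g)) with hm
  have hmle : ∀ u, m ≤ energy r J g u := fun u => csInf_le hbdd ⟨u, rfl⟩
  have hex : ∀ n : ℕ, ∃ u, energy r J g u < m + 1 / ((n : ℝ) + 1) := by
    intro n
    have h1 : m < m + 1 / ((n : ℝ) + 1) := by
      have : 0 < 1 / ((n : ℝ) + 1) := by positivity
      linarith
    obtain ⟨_, ⟨u, rfl⟩, hu⟩ := exists_lt_of_csInf_lt (range_nonempty _) h1
    exact ⟨u, hu⟩
  choose w hw using hex
  have hlim : Tendsto (fun n : ℕ => 1 / ((n : ℝ) + 1)) atTop (𝓝 0) :=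
    tendsto_one_div_add_atTop_nhds_zero_nat
  -- Cauchy in the form norm
  have hC : ∀ a b, (r (w a - w b) (w a - w b)).re ≤ 2 * (1 / ((a : ℝ) + 1)) + 2 * (1 / ((b : ℝ) + 1)) := by
    intro a b
    have h1 := energy_parallelogram (q := r) (J := J) hrH g (w a) (w b)
    have h2 := hmle ((2⁻¹ : ℂ) • (w a + w b))
    have h3 := (hw a).le
    have h4 := (hw b).le
    rw [h1]
    linarith
  have hlim2 : Tendsto (fun k : ℕ × ℕ => 2 * (1 / ((k.1 : ℝ) + 1)) + 2 * (1 / ((k.2 : ℝ) + 1)))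
      atTop (𝓝 0) := by
    rw [← prod_atTop_atTop_eq]
    have h1 : Tendsto (fun k : ℕ × ℕ => 2 * (1 / ((k.1 : ℝ) + 1))) (atTop ×ˢ atTop) (𝓝 (2 * 0)) :=
      (hlim.comp tendsto_fst).const_mul (2 : ℝ)
    have h2 : Tendsto (fun k : ℕ × ℕ => 2 * (1 / ((k.2 : ℝ) + 1))) (atTop ×ˢ atTop) (𝓝 (2 * 0)) :=
      (hlim.comp tendsto_snd).const_mul (2 : ℝ)
    have h3 := h1.add h2
    rw [mul_zero, add_zero] at h3
    exact h3
  have hrC : Tendsto (fun k : ℕ × ℕ => (r (w k.1 - w k.2) (w k.1 - w k.2)).re) atTop (𝓝 0) :=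
    squeeze_zero (fun k => le_trans (by positivity) (hrpos _)) (fun k => hC k.1 k.2) hlim2
  have hJC : Tendsto (fun k : ℕ × ℕ => ‖J (w k.1) - J (w k.2)‖ ^ 2) atTop (𝓝 0) := by
    have h1 : Tendsto (fun k : ℕ × ℕ => δ⁻¹ * (r (w k.1 - w k.2) (w k.1 - w k.2)).re) atTop
        (𝓝 0) := by simpa using hrC.const_mul δ⁻¹
    refine squeeze_zero (fun k => by positivity) (fun k => ?_) h1
    have := hrpos (w k.1 - w k.2)
    rw [map_sub] at this
    rw [← mul_le_mul_iff_right₀ hδ0, ← mul_assoc, mul_inv_cancel₀ hδ0.ne', one_mul]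
    exact this
  have hcau : CauchySeq fun n => J (w n) := by
    rw [cauchySeq_iff_tendsto_dist_atTop_0]
    have h1 := (Real.continuous_sqrt.tendsto 0).comp hJC
    rw [Real.sqrt_zero] at h1
    refine h1.congr fun k => ?_
    simp only [Function.comp_apply]
    rw [Real.sqrt_sq (norm_nonneg _), dist_eq_norm]
  obtain ⟨u, hu⟩ := cauchySeq_tendsto_of_complete hcau
  refine ⟨u, w, hu, ?_, ?_⟩
  · have h1 : Tendsto (fun k : ℕ × ℕ => (q (w k.1 - w k.2) (w k.1 - w k.2)).re) atTop (𝓝 0) := by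
      have h2 := hrC.add (hJC.const_mul E)
      rw [mul_zero, add_zero] at h2
      refine h2.congr fun k => ?_
      rw [hr, shift_re, map_sub]
      ring
    have h3 := (Complex.continuous_ofReal.tendsto 0).comp h1
    rw [Complex.ofReal_zero] at h3
    refine h3.congr fun k => ?_
    simp only [Function.comp_apply]
    rw [← hq.self_eq]
  · intro v
    have h1 : Tendsto (fun n => r (w n) v) atTop (𝓝 ⟪J v, g⟫_ℂ) := by
      rw [tendsto_iff_norm_sub_tendsto_zero]
      have h2 : Tendsto (fun n : ℕ => ((r v v).re + 1) * (1 / ((n : ℝ) + 1))) atTop (𝓝 0) := by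
        simpa using hlim.const_mul ((r v v).re + 1)
      have h3 : Tendsto (fun n => ‖r (w n) v - ⟪J v, g⟫_ℂ‖ ^ 2) atTop (𝓝 0) := by
        refine squeeze_zero (fun n => by positivity) (fun n => ?_) h2
        refine (energy_variation hrH hδ0 hrpos g hmle (w n) v).trans ?_
        have h4 : 0 ≤ (r v v).re := le_trans (by positivity) (hrpos v)
        refine mul_le_mul_of_nonneg_left ?_ (by linarith)
        linarith [hw n]
      have h5 := (Real.continuous_sqrt.tendsto 0).comp h3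
      rw [Real.sqrt_zero] at h5
      refine h5.congr fun n => ?_
      simp only [Function.comp_apply]
      rw [Real.sqrt_sq (norm_nonneg _)]
    have h2 : Tendsto (fun n => (E : ℂ) * ⟪J v, J (w n)⟫_ℂ) atTop (𝓝 ((E : ℂ) * ⟪J v, u⟫_ℂ)) :=
      (tendsto_const_nhds.inner hu).const_mul _
    have h3 := h1.add h2
    rw [inner_add_right, inner_smul_right]
    refine h3.congr fun n => ?_
    simp only [hr, shiftForm]
    ring

/-- Uniqueness of the solution of the resolvent equation. -/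
theorem unique_absGraph (g : H) {u₁ u₂ : H} (h₁ : AbsGraph q J u₁ (g + (E : ℂ) • u₁))
    (h₂ : AbsGraph q J u₂ (g + (E : ℂ) • u₂)) : u₁ = u₂ := by
  set r : D → D → ℂ := shiftForm q J E with hr
  have hrH : IsHerm r := isHerm_shift hq J E
  set δ : ℝ := -K - E with hδ
  have hδ0 : 0 < δ := by rw [hδ]; linarith
  have hrpos : ∀ u, δ * ‖J u‖ ^ 2 ≤ (r u u).re := by
    intro u
    rw [hr, shift_re, hδ]
    have := hpos u
    linarith
  obtain ⟨w₁, a1, b1, c1⟩ := h₁
  obtain ⟨w₂, a2, b2, c2⟩ := h₂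
  -- the forms of differences tend to zero
  have hcauchy : ∀ (w : ℕ → D) (u : H), Tendsto (fun n => J (w n)) atTop (𝓝 u) →
      Tendsto (fun k : ℕ × ℕ => q (w k.1 - w k.2) (w k.1 - w k.2)) atTop (𝓝 0) →
      Tendsto (fun k : ℕ × ℕ => (r (w k.1 - w k.2) (w k.1 - w k.2)).re) atTop (𝓝 0) := by
    intro w u hu hw
    have h1 := (Complex.continuous_re.tendsto 0).comp hw
    rw [Complex.zero_re] at h1
    have h2 : Tendsto (fun k : ℕ × ℕ => ‖J (w k.1) - J (w k.2)‖ ^ 2) atTop (𝓝 0) := by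
      have h3 : Tendsto (fun k : ℕ × ℕ => ‖J (w k.1) - J (w k.2)‖) atTop (𝓝 0) := by
        have h4 := hu.cauchySeq
        rw [cauchySeq_iff_tendsto_dist_atTop_0] at h4
        exact h4.congr fun k => by rw [dist_eq_norm]
      simpa using h3.pow 2
    have h5 := h1.sub (h2.const_mul E)
    rw [mul_zero, sub_zero] at h5
    refine h5.congr fun k => ?_
    simp only [Function.comp_apply]
    rw [hr, shift_re, map_sub]
  have d1 := hcauchy w₁ u₁ a1 b1
  have d2 := hcauchy w₂ u₂ a2 b2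
  set x : ℕ → D := fun n => w₁ n - w₂ n with hx
  have hJx : Tendsto (fun n => J (x n)) atTop (𝓝 (u₁ - u₂)) := by
    refine (a1.sub a2).congr fun n => ?_
    rw [hx, map_sub]
  have hxC : Tendsto (fun k : ℕ × ℕ => (r (x k.1 - x k.2) (x k.1 - x k.2)).re) atTop (𝓝 0) := by
    have h1 := (d1.const_mul 2).add (d2.const_mul 2)
    rw [mul_zero, add_zero] at h1
    refine squeeze_zero (fun k => le_trans (by positivity) (hrpos _)) (fun k => ?_) h1
    have e1 : x k.1 - x k.2 = (w₁ k.1 - w₁ k.2) - (w₂ k.1 - w₂ k.2) := by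
      simp only [hx]; abel
    rw [e1]
    have e2 := hrH.sub_sub (w₁ k.1 - w₁ k.2) (w₂ k.1 - w₂ k.2)
    have e3 := hrH.add_add (w₁ k.1 - w₁ k.2) (w₂ k.1 - w₂ k.2)
    have e4 : 0 ≤ (r ((w₁ k.1 - w₁ k.2) + (w₂ k.1 - w₂ k.2))
      ((w₁ k.1 - w₁ k.2) + (w₂ k.1 - w₂ k.2))).re := le_trans (by positivity) (hrpos _)
    linarith
  have hxv : ∀ v, Tendsto (fun n => (r (x n) v).re) atTop (𝓝 0) := by
    intro v
    have h1 := (c1 v).sub (c2 v)
    have h2 : Tendsto (fun n => (E : ℂ) * ⟪J v, J (x n)⟫_ℂ) atTop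
        (𝓝 ((E : ℂ) * ⟪J v, u₁ - u₂⟫_ℂ)) := (tendsto_const_nhds.inner hJx).const_mul _
    have h3 := h1.sub h2
    have e0 : ⟪J v, g + (E : ℂ) • u₁⟫_ℂ - ⟪J v, g + (E : ℂ) • u₂⟫_ℂ - (E : ℂ) * ⟪J v, u₁ - u₂⟫_ℂ =
        0 := by
      rw [inner_add_right, inner_add_right, inner_smul_right, inner_smul_right, inner_sub_right]
      ring
    rw [e0] at h3
    have h4 := (Complex.continuous_re.tendsto 0).comp h3
    rw [Complex.zero_re] at h4
    refine h4.congr fun n => ?_
    simp only [Function.comp_apply, hr, shiftForm, hx, hq.sub_left]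
  -- conclusion
  have hfin : Tendsto (fun n => ‖J (x n)‖ ^ 2) atTop (𝓝 0) := by
    rw [Metric.tendsto_atTop]
    intro η hη
    have h1 := (Metric.tendsto_atTop.mp hxC) (δ * η / 2) (by positivity)
    obtain ⟨⟨N1, N2⟩, hN⟩ := h1
    refine ⟨max N1 N2, fun b hb => ?_⟩
    have h2 : ∀ a, max N1 N2 ≤ a → δ * ‖J (x b)‖ ^ 2 ≤ δ * η / 2 + 2 * (r (x a) (x b)).re := by
      intro a ha
      have h3 := hN (a, b) (Prod.mk_le_mk.mpr ⟨(le_max_left _ _).trans ha, (le_max_right _ _).trans hb⟩)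
      rw [Real.dist_eq, sub_zero] at h3
      have h4 := (abs_lt.mp h3).2
      simp only at h4
      rw [hrH.sub_sub] at h4
      have h5 := hrpos (x b)
      have h6 : 0 ≤ (r (x a) (x a)).re := le_trans (by positivity) (hrpos _)
      linarith
    have h7 : δ * ‖J (x b)‖ ^ 2 ≤ δ * η / 2 + 2 * 0 := by
      refine ge_of_tendsto ((tendsto_const_nhds (x := δ * η / 2)).add ((hxv (x b)).const_mul 2)) ?_
      filter_upwards [eventually_ge_atTop (max N1 N2)] with a ha using h2 a ha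
    rw [Real.dist_eq, sub_zero, abs_of_nonneg (by positivity)]
    have h8 : δ * ‖J (x b)‖ ^ 2 < δ * η := by
      have : 0 < δ * η := by positivity
      linarith
    exact lt_of_mul_lt_mul_left h8 hδ0.le
  have h9 : Tendsto (fun n => ‖J (x n)‖ ^ 2) atTop (𝓝 (‖u₁ - u₂‖ ^ 2)) := (hJx.norm).pow 2
  have h10 := tendsto_nhds_unique h9 hfin
  have h11 : ‖u₁ - u₂‖ = 0 := by
    exact pow_eq_zero_iff (two_ne_zero) |>.mp h10
  exact sub_eq_zero.mp (norm_eq_zero.mp h11)

/-- Unique solvability below the lower bound of the form. -/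
theorem existsUnique_absGraph (g : H) : ∃! u : H, AbsGraph q J u (g + (E : ℂ) • u) := by
  obtain ⟨u, hu⟩ := exists_absGraph hq hpos hE g
  exact ⟨u, hu, fun v hv => unique_absGraph hq hpos hE g hv hu⟩

end main

end Pool.Agent.H99.Leaky
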