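import Mathlib

set_option autoImplicit false

/-!
# Magnetic leaky curves: definitions

The magnetic leaky-curve Hamiltonian is the self-adjoint operator associated with the closure of the
quadratic form `u ↦ ∫ |(-i∇ - A) u|² - α ∫_Γ |u|² ds` on smooth compactly supported functions.
-/

open MeasureTheory Filter Topology Set
open scoped ContDiff ComplexConjugate

namespace Pool.Agent.H99.Leaky

/-- The angle between the curve `Γ_ε` and the horizontal axis: `ε ∫_{-∞}^s γ`. -/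
noncomputable def turning (γ : ℝ → ℝ) (ε s : ℝ) : ℝ := ε * ∫ τ in Iic s, γ τ

/-- The curve `Γ_ε`, parametrised by arc length, with signed curvature `ε γ(s)` and
`Γ_ε(s) = (s, 0)` for `s ≤ inf supp γ`. -/
noncomputable def curve (γ : ℝ → ℝ) (ε s : ℝ) : ℝ × ℝ :=
  (s + ∫ τ in Iic s, (Real.cos (turning γ ε τ) - 1), ∫ τ in Iic s, Real.sin (turning γ ε τ))

/-- First component of `(-i∇ - A) u`. -/
noncomputable def magD1 (A : ℝ × ℝ → ℝ × ℝ) (u : ℝ × ℝ → ℂ) (p : ℝ × ℝ) : ℂ :=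
  -Complex.I * fderiv ℝ u p (1, 0) - (A p).1 * u p

/-- Second component of `(-i∇ - A) u`. -/
noncomputable def magD2 (A : ℝ × ℝ → ℝ × ℝ) (u : ℝ × ℝ → ℂ) (p : ℝ × ℝ) : ℂ :=
  -Complex.I * fderiv ℝ u p (0, 1) - (A p).2 * u p

/-- The sesquilinear form `∫ (-i∇-A)u · conj((-i∇-A)v) - α ∫_Γ u conj(v) ds` (linear in `u`). -/
noncomputable def form (α : ℝ) (Γ : ℝ → ℝ × ℝ) (A : ℝ × ℝ → ℝ × ℝ) (u v : ℝ × ℝ → ℂ) : ℂ :=
  (∫ p, (magD1 A u p * conj (magD1 A v p) + magD2 A u p * conj (magD2 A v p))) -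
    α * ∫ s, u (Γ s) * conj (v (Γ s))

/-- Smooth compactly supported functions whose support avoids the closed set `S`. -/
def IsTest (S : Set (ℝ × ℝ)) (u : ℝ × ℝ → ℂ) : Prop :=
  ContDiff ℝ ∞ u ∧ HasCompactSupport u ∧ Disjoint (tsupport u) S

/-- `L²(ℝ²)`. -/
abbrev L2 : Type := Lp ℂ 2 (volume : Measure (ℝ × ℝ))

/-- The graph of the self-adjoint operator associated with the closure of `form α Γ A` on the test
functions avoiding `S`: the pairs `(u, f)` such that `u` is the `L²`-limit of a form-Cauchy sequence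
of test functions `w n` and `form (w n) v → ⟨v, f⟩` for every test function `v`. -/
def InGraph (α : ℝ) (Γ : ℝ → ℝ × ℝ) (A : ℝ × ℝ → ℝ × ℝ) (S : Set (ℝ × ℝ)) (u f : L2) : Prop :=
  ∃ w : ℕ → ℝ × ℝ → ℂ, (∀ n, IsTest S (w n)) ∧
    Tendsto (fun n => ∫ p, ‖w n p - u p‖ ^ 2) atTop (𝓝 0) ∧
    Tendsto (fun k : ℕ × ℕ => form α Γ A (w k.1 - w k.2) (w k.1 - w k.2)) atTop (𝓝 0) ∧
    ∀ v, IsTest S v → Tendsto (fun n => form α Γ A (w n) v) atTop (𝓝 (∫ p, f p * conj (v p)))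

/-- The (real) spectrum of the operator: all `E` for which `H - E` is not a bijection from the
domain of `H` onto `L²(ℝ²)`. -/
def spec (α : ℝ) (Γ : ℝ → ℝ × ℝ) (A : ℝ × ℝ → ℝ × ℝ) (S : Set (ℝ × ℝ)) : Set ℝ :=
  {E | ¬ ∀ g : L2, ∃! u : L2, InGraph α Γ A S u (g + (E : ℂ) • u)}

/-- The magnetic field of a vector potential. -/
noncomputable def curl (A : ℝ × ℝ → ℝ × ℝ) (p : ℝ × ℝ) : ℝ :=
  fderiv ℝ (fun q => (A q).2) p (1, 0) - fderiv ℝ (fun q => (A q).1) p (0, 1)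

/-- The Aharonov-Bohm potential with flux `Φ` (in units of `2π`) at the point `x₀`. -/
noncomputable def abPotential (Φ : ℝ) (x₀ : ℝ × ℝ) (p : ℝ × ℝ) : ℝ × ℝ :=
  (-(Φ * (p.2 - x₀.2)) / ((p.1 - x₀.1) ^ 2 + (p.2 - x₀.2) ^ 2),
    Φ * (p.1 - x₀.1) / ((p.1 - x₀.1) ^ 2 + (p.2 - x₀.2) ^ 2))

end Pool.Agent.H99.Leaky
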