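import Pool.Agent.H99.Leaky.Pull

set_option autoImplicit false

/-!
# The magnetic Hardy type inequality along the curve
-/

open MeasureTheory Filter Topology Set
open scoped ContDiff ComplexConjugate

namespace Pool.Agent.H99.Leaky

lemma measurePreserving_reflect {σ : ℝ} (hσ : σ = 1 ∨ σ = -1) :
    MeasurePreserving (fun p : ℝ × ℝ => (p.1, σ * p.2)) ∧
      MeasurableEmbedding (fun p : ℝ × ℝ => (p.1, σ * p.2)) := by
  rcases hσ with rfl | rfl
  · simp only [one_mul]
    exact ⟨MeasurePreserving.id _, MeasurableEmbedding.id⟩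
  · have h1 : (fun p : ℝ × ℝ => (p.1, -1 * p.2)) = Prod.map id Neg.neg := by
      funext p; simp [Prod.map]
    rw [h1]
    refine ⟨?_, ?_⟩
    · have := (MeasurePreserving.id (volume : Measure ℝ)).prod
        (Measure.measurePreserving_neg (volume : Measure ℝ))
      exact this
    · exact (MeasurableEquiv.prodCongr (MeasurableEquiv.refl ℝ) (MeasurableEquiv.neg ℝ)).measurableEmbedding

lemma covP_identity {σ : ℝ} (hσ : σ = 1 ∨ σ = -1) {t : ℝ} (ht : 0 < t) (β s : ℝ)
    (A : ℝ × ℝ → ℝ × ℝ) (U : ℝ × ℝ → ℂ) (e : ℝ) :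
    ‖(e : ℂ) * (β * U (s, σ * t) + σ * fderiv ℝ U (s, σ * t) (0, 1)) -
      Complex.I * ((σ * (A (s, σ * t)).2 : ℝ) : ℂ) * ((e : ℂ) * U (s, σ * t))‖ =
      |e| * ‖covP β A U (s, σ * t)‖ := by
  have hs : sg (σ * t) = σ := by
    rcases hσ with rfl | rfl
    · rw [one_mul, sg_of_nonneg ht.le]
    · rw [sg_of_neg (by linarith)]
  have h2 : (σ : ℂ) * σ = 1 := by
    rcases hσ with rfl | rfl <;> norm_num
  have h3 : |σ| = 1 := by
    rcases hσ with rfl | rfl <;> norm_num
  have h1 : (e : ℂ) * (β * U (s, σ * t) + σ * fderiv ℝ U (s, σ * t) (0, 1)) -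
      Complex.I * ((σ * (A (s, σ * t)).2 : ℝ) : ℂ) * ((e : ℂ) * U (s, σ * t)) =
      (e : ℂ) * (σ * (Complex.I * covP β A U (s, σ * t))) := by
    rw [covP, magD2]
    simp only [hs]
    push_cast
    have h4 : Complex.I * Complex.I = -1 := Complex.I_mul_I
    linear_combination (-(e : ℂ) * β * U (s, σ * t)) * h2 + ((e : ℂ) * σ *
      fderiv ℝ U (s, σ * t) (0, 1) + (e : ℂ) * σ * (β * σ * U (s, σ * t))) * h4
  rw [h1, norm_mul, norm_mul, norm_mul, Complex.norm_I, one_mul, Complex.norm_real,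
    Complex.norm_real, Real.norm_eq_abs, Real.norm_eq_abs, h3, one_mul]

lemma hasDerivAt_expMul (β t : ℝ) :
    HasDerivAt (fun x : ℝ => ((Real.exp (β * x) : ℝ) : ℂ)) ((Real.exp (β * t) : ℝ) * β : ℂ) t := by
  have h1 : HasDerivAt (fun x : ℝ => Real.exp (β * x)) (Real.exp (β * t) * (β * 1)) t :=
    ((hasDerivAt_id t).const_mul β).exp
  have h2 := h1.ofReal_comp
  refine h2.congr_deriv ?_
  push_cast
  ring

/-- The trace bound. -/
theorem exists_trace_bound {γ : ℝ → ℝ} {a0 b0 M G : ℝ} (h : Curv γ a0 b0 M G) {α : ℝ} (hα : 0 < α)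
    {S : Set (ℝ × ℝ)} (hS : IsClosed S) {A : ℝ × ℝ → ℝ × ℝ} (hA : ContinuousOn A Sᶜ)
    {σ : ℝ} (hσ : σ = 1 ∨ σ = -1) {s₁ s₂ t₁ t₂ r₀ c ε₁ : ℝ} (h2 : s₁ ≤ s₂) (h4 : 0 ≤ t₁ - r₀)
    (h5 : t₁ ≤ t₂) (hr : 0 < r₀) (hc : 0 < c)
    (hS' : ∀ ε, |ε| < ε₁ → ∀ s t, ¬ (s₁ < s ∧ s < s₂ ∧ t₁ < t ∧ t < t₂) →
      shear γ ε (s, σ * t) ∉ S)
    (hhol : ∀ ε, |ε| < ε₁ → ∀ r ∈ Icc (0 : ℝ) r₀, c ≤ ‖1 - Complex.exp (Complex.I *
      (circ (fun s t => (pull γ ε A (s, σ * t)).1) (fun s t => σ * (pull γ ε A (s, σ * t)).2)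
        (s₁ - r) (s₂ + r) (t₁ - r) (t₂ + r) : ℝ))‖) :
    ∃ C : ℝ, 0 ≤ C ∧ ∀ ε, |ε| < ε₁ → |ε| * M ≤ 1 / 8 → |ε| * (M * (2 + |a0|)) ≤ 1 / 2 →
      ∀ u, Adm A u → ∫ s in Icc a0 b0, ‖u (curve γ ε s)‖ ^ 2 ≤ C *
      ∫ p, (‖magD1 (pull γ ε A) (fun q => u (shear γ ε q)) p‖ ^ 2 +
        ‖covP (α * Real.cos (halfTurn γ ε) / 2) (pull γ ε A)
          (fun q => u (shear γ ε q)) p‖ ^ 2) := by
  obtain ⟨C₀, hC₀, htr⟩ := trace_ineq (a := a0) (b := b0) (a' := min a0 (s₁ - r₀))
    (b' := max b0 (s₂ + r₀)) (s₁ := s₁) (s₂ := s₂) (t₁ := t₁) (t₂ := t₂) (r₀ := r₀)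
    (T := t₂ + r₀) (c := c) h.le (min_le_left _ _) (le_max_left _ _) (min_le_right _ _) h2
    (le_max_right _ _) h4 h5 le_rfl hr hc
  set a' := min a0 (s₁ - r₀) with ha'
  set b' := max b0 (s₂ + r₀) with hb'
  set T := t₂ + r₀ with hT
  have hT0 : 0 ≤ T := by rw [hT]; linarith
  have hab' : a' ≤ b' := (min_le_left _ _).trans (h.le.trans (le_max_left _ _))
  refine ⟨C₀ * Real.exp (α * T), by positivity, ?_⟩
  intro ε hε hε8 hε2 u hu
  set U : ℝ × ℝ → ℂ := fun q => u (shear γ ε q) with hUdef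
  set B : ℝ × ℝ → ℝ × ℝ := pull γ ε A with hB
  have hU : Adm B U := h.adm_pull hε2 hu
  have hd : Differentiable ℝ U := hU.smooth.differentiable one_ne_zero
  set β : ℝ := α * Real.cos (halfTurn γ ε) / 2 with hβ
  have hcos := h.cos_half_ge hε8
  have hcos1 := Real.cos_le_one (halfTurn γ ε)
  have hβ0 : 0 < β := by rw [hβ]; positivity
  have hβ2 : 2 * β ≤ α := by rw [hβ]; nlinarith
  set V : ℝ → ℝ → ℂ := fun s t => (Real.exp (β * t) : ℂ) * U (s, σ * t) with hV
  set Vs : ℝ → ℝ → ℂ := fun s t => (Real.exp (β * t) : ℂ) * fderiv ℝ U (s, σ * t) (1, 0) with hVs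
  set Vt : ℝ → ℝ → ℂ := fun s t => (Real.exp (β * t) : ℂ) *
    (β * U (s, σ * t) + σ * fderiv ℝ U (s, σ * t) (0, 1)) with hVt
  set As : ℝ → ℝ → ℝ := fun s t => (B (s, σ * t)).1 with hAs
  set At : ℝ → ℝ → ℝ := fun s t => σ * (B (s, σ * t)).2 with hAt
  have hrefl : Continuous fun p : ℝ × ℝ => (p.1, σ * p.2) :=
    continuous_fst.prodMk (continuous_const.mul continuous_snd)
  have hexp : Continuous fun p : ℝ × ℝ => (Real.exp (β * p.2) : ℂ) :=
    Complex.continuous_ofReal.comp (Real.continuous_exp.comp (continuous_const.mul continuous_snd))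
  have hUc : Continuous fun p : ℝ × ℝ => U (p.1, σ * p.2) := hU.smooth.continuous.comp hrefl
  have hUs : Continuous fun p : ℝ × ℝ => fderiv ℝ U (p.1, σ * p.2) (1, 0) :=
    (((hU.smooth.continuous_fderiv one_ne_zero).clm_apply continuous_const).comp hrefl)
  have hUt : Continuous fun p : ℝ × ℝ => fderiv ℝ U (p.1, σ * p.2) (0, 1) :=
    (((hU.smooth.continuous_fderiv one_ne_zero).clm_apply continuous_const).comp hrefl)
  have cV : Continuous (fun p : ℝ × ℝ => V p.1 p.2) := hexp.mul hUc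
  have cVs : Continuous (fun p : ℝ × ℝ => Vs p.1 p.2) := hexp.mul hUs
  have cVt : Continuous (fun p : ℝ × ℝ => Vt p.1 p.2) :=
    hexp.mul ((continuous_const.mul hUc).add (continuous_const.mul hUt))
  have cAV : Continuous (fun p : ℝ × ℝ => (As p.1 p.2 : ℂ) * V p.1 p.2) := by
    refine (hexp.mul (hU.cont1.comp hrefl)).congr fun p => ?_
    simp only [Pi.mul_apply, Function.comp_apply, hAs, hV]
    ring
  have cBV : Continuous (fun p : ℝ × ℝ => (At p.1 p.2 : ℂ) * V p.1 p.2) := by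
    refine ((continuous_const (y := (σ : ℂ))).mul (hexp.mul (hU.cont2.comp hrefl))).congr
      fun p => ?_
    simp only [Pi.mul_apply, Function.comp_apply, hAt, hV]
    push_cast
    ring
  have hBc : ∀ s t, ¬ (s₁ < s ∧ s < s₂ ∧ t₁ < t ∧ t < t₂) → ContinuousAt B (s, σ * t) := by
    intro s t hst
    have h1 := hS' ε hε s t hst
    have h2 : ContinuousAt A (shear γ ε (s, σ * t)) := hA.continuousAt (hS.isOpen_compl.mem_nhds h1)
    have h3 : ContinuousAt (fun p => A (shear γ ε p)) (s, σ * t) :=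
      ContinuousAt.comp (f := shear γ ε) h2 (h.continuous_shear ε).continuousAt
    have h4 := (h.continuous_turning ε)
    have h5 : ContinuousAt (fun p : ℝ × ℝ => Real.cos (turning γ ε p.1)) (s, σ * t) :=
      (Real.continuous_cos.comp (h4.comp continuous_fst)).continuousAt
    have h6 : ContinuousAt (fun p : ℝ × ℝ => Real.sin (turning γ ε p.1)) (s, σ * t) :=
      (Real.continuous_sin.comp (h4.comp continuous_fst)).continuousAt
    exact ((h5.mul h3.fst).add (h6.mul h3.snd)).prodMk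
      ((continuousAt_const.mul h3.fst).add (continuousAt_const.mul h3.snd))
  have key := htr V Vs Vt As At
    (fun s t => (hasDerivAt_fst hd s (σ * t)).const_mul _)
    (fun s t => by
      have g1 : HasDerivAt (fun x : ℝ => σ * x) σ t := by
        simpa using (hasDerivAt_id t).const_mul σ
      have g2 := (hasDerivAt_snd hd s (σ * t)).scomp t g1
      refine ((hasDerivAt_expMul β t).mul g2).congr_deriv ?_
      simp only [hVt, Function.comp_apply, Complex.real_smul]
      ring)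
    cV cVs cVt cAV cBV
    (fun s t hst => by
      have g1 := hBc s t hst
      have g2 : ContinuousAt (fun x : ℝ => (x, σ * t)) s := by fun_prop
      exact (ContinuousAt.comp (f := fun x : ℝ => (x, σ * t)) g1 g2).fst)
    (fun s t hst => by
      have g1 := hBc s t hst
      have g2 : ContinuousAt (fun x : ℝ => (s, σ * x)) t := by fun_prop
      exact continuousAt_const.mul (ContinuousAt.comp (f := fun x : ℝ => (s, σ * x)) g1 g2).snd)
    (hhol ε hε)
  -- identify the left hand side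
  have hL : ∫ s in Icc a0 b0, ‖u (curve γ ε s)‖ ^ 2 = ∫ s in a0..b0, ‖V s 0‖ ^ 2 := by
    rw [intervalIntegral.integral_of_le h.le, integral_Icc_eq_integral_Ioc]
    refine setIntegral_congr_fun measurableSet_Ioc fun s _ => ?_
    simp only [hV, hUdef, mul_zero, Real.exp_zero, Complex.ofReal_one, one_mul, Curv.shear_zero]
  rw [hL]
  refine key.trans ?_
  rw [mul_assoc]
  refine mul_le_mul_of_nonneg_left ?_ hC₀
  -- bound the right hand side
  set F : ℝ × ℝ → ℝ := fun p => ‖magD1 B U p‖ ^ 2 + ‖covP β B U p‖ ^ 2 with hF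
  have hFi : Integrable F := hU.integrable_aa.add (hU.integrable_pp β)
  have hF0 : ∀ p, 0 ≤ F p := fun p => by positivity
  have hcovc : Continuous (fun p : ℝ × ℝ => covSq V Vs Vt As At p.1 p.2) := by
    have e1 : Continuous (fun p : ℝ × ℝ => Vs p.1 p.2 - Complex.I * ((As p.1 p.2 : ℂ) * V p.1 p.2)) :=
      cVs.sub (continuous_const.mul cAV)
    have e2 : Continuous (fun p : ℝ × ℝ => Vt p.1 p.2 - Complex.I * ((At p.1 p.2 : ℂ) * V p.1 p.2)) :=
      cVt.sub (continuous_const.mul cBV)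
    refine ((e1.norm.pow 2).add (e2.norm.pow 2)).congr fun p => ?_
    simp only [covSq, Pi.add_apply, Pi.pow_apply, mul_assoc]
  have hcovb : ∀ s t, 0 < t → t ≤ T → covSq V Vs Vt As At s t ≤ Real.exp (α * T) * F (s, σ * t) := by
    intro s t ht htT
    have e1 := covP_identity hσ ht β s B U (Real.exp (β * t))
    have e2 : ‖Vs s t - Complex.I * As s t * V s t‖ = Real.exp (β * t) * ‖magD1 B U (s, σ * t)‖ := by
      have : Vs s t - Complex.I * As s t * V s t =
          (Real.exp (β * t) : ℂ) * (Complex.I * magD1 B U (s, σ * t)) := by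
        simp only [hVs, hAs, hV, magD1]
        have h4 : Complex.I * Complex.I = -1 := Complex.I_mul_I
        linear_combination ((Real.exp (β * t) : ℂ) * fderiv ℝ U (s, σ * t) (1, 0)) * h4
      rw [this, norm_mul, norm_mul, Complex.norm_I, one_mul, Complex.norm_real, Real.norm_eq_abs,
        abs_of_pos (Real.exp_pos _)]
    have e3 : ‖Vt s t - Complex.I * At s t * V s t‖ = Real.exp (β * t) * ‖covP β B U (s, σ * t)‖ := by
      rw [abs_of_pos (Real.exp_pos _)] at e1
      exact e1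
    rw [covSq, e2, e3, mul_pow, mul_pow, ← mul_add]
    refine mul_le_mul_of_nonneg_right ?_ (hF0 _)
    rw [← Real.exp_nat_mul]
    refine Real.exp_le_exp.mpr ?_
    push_cast
    have := mul_le_mul hβ2 htT ht.le (by positivity)
    linarith
  obtain ⟨hmp, hme⟩ := measurePreserving_reflect hσ
  have hFσ : Integrable (fun p : ℝ × ℝ => F (p.1, σ * p.2)) := hmp.integrable_comp_of_integrable hFi
  have hFσi : ∫ p : ℝ × ℝ, F (p.1, σ * p.2) = ∫ p, F p := hmp.integral_comp hme F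
  have hprod : ∫ s in a'..b', ∫ t in (0 : ℝ)..T, covSq V Vs Vt As At s t =
      ∫ p in Ioc a' b' ×ˢ Ioc 0 T, covSq V Vs Vt As At p.1 p.2 := by
    rw [intervalIntegral.integral_of_le hab', Measure.volume_eq_prod, setIntegral_prod]
    · refine setIntegral_congr_fun measurableSet_Ioc fun s _ => ?_
      simp only
      rw [intervalIntegral.integral_of_le hT0]
    · have hK : IsCompact (Icc a' b' ×ˢ Icc (0 : ℝ) T) := isCompact_Icc.prod isCompact_Icc
      have := (hcovc.continuousOn (s := Icc a' b' ×ˢ Icc (0 : ℝ) T)).integrableOn_compact hK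
        (μ := volume)
      rw [Measure.volume_eq_prod] at this
      exact this.mono_set (prod_mono Ioc_subset_Icc_self Ioc_subset_Icc_self)
  rw [hprod]
  calc ∫ p in Ioc a' b' ×ˢ Ioc 0 T, covSq V Vs Vt As At p.1 p.2
      ≤ ∫ p in Ioc a' b' ×ˢ Ioc 0 T, Real.exp (α * T) * F (p.1, σ * p.2) := by
        refine setIntegral_mono_on ?_ (hFσ.const_mul _).integrableOn
          (measurableSet_Ioc.prod measurableSet_Ioc) fun p hp => hcovb p.1 p.2 hp.2.1 hp.2.2
        have hK : IsCompact (Icc a' b' ×ˢ Icc (0 : ℝ) T) := isCompact_Icc.prod isCompact_Icc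
        have := (hcovc.continuousOn (s := Icc a' b' ×ˢ Icc (0 : ℝ) T)).integrableOn_compact hK
          (μ := volume)
        exact this.mono_set (prod_mono Ioc_subset_Icc_self Ioc_subset_Icc_self)
    _ ≤ ∫ p : ℝ × ℝ, Real.exp (α * T) * F (p.1, σ * p.2) := by
        refine setIntegral_le_integral (hFσ.const_mul _) (Eventually.of_forall fun p => ?_)
        exact mul_nonneg (Real.exp_pos _).le (hF0 _)
    _ = Real.exp (α * T) * ∫ p, F p := by rw [integral_const_mul, hFσi]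

end Pool.Agent.H99.Leaky
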