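import Pool.Agent.H99.Leaky.Holonomy

set_option autoImplicit false

/-!
# Holonomy bounds: the regular case
-/

open MeasureTheory Filter Topology Set
open scoped ContDiff ComplexConjugate

namespace Pool.Agent.H99.Leaky

/-- Green's identity on a rectangle. -/
lemma circ_green {s₁ s₂ t₁ t₂ : ℝ} (hs : s₁ ≤ s₂) (ht : t₁ ≤ t₂) {As At D1 D2 : ℝ → ℝ → ℝ}
    (h1 : ∀ s t, HasDerivAt (fun x => At x t) (D1 s t) s)
    (h2 : ∀ s t, HasDerivAt (fun x => As s x) (D2 s t) t)
    (c1 : Continuous fun p : ℝ × ℝ => D1 p.1 p.2) (c2 : Continuous fun p : ℝ × ℝ => D2 p.1 p.2)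
    (cs : ∀ t, Continuous fun s => As s t) (ct : ∀ s, Continuous fun t => At s t) :
    circ As At s₁ s₂ t₁ t₂ = ∫ s in s₁..s₂, ∫ t in t₁..t₂, (D1 s t - D2 s t) := by
  have cD1s : ∀ t, Continuous fun s => D1 s t := fun t =>
    c1.comp (Continuous.prodMk continuous_id continuous_const)
  have cD1t : ∀ s, Continuous fun t => D1 s t := fun s =>
    c1.comp (Continuous.prodMk continuous_const continuous_id)
  have cD2t : ∀ s, Continuous fun t => D2 s t := fun s =>
    c2.comp (Continuous.prodMk continuous_const continuous_id)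
  have e1 : ∀ s, ∫ t in t₁..t₂, (D1 s t - D2 s t) =
      (∫ t in t₁..t₂, D1 s t) - (As s t₂ - As s t₁) := by
    intro s
    rw [intervalIntegral.integral_sub ((cD1t s).intervalIntegrable _ _)
      ((cD2t s).intervalIntegrable _ _),
      intervalIntegral.integral_eq_sub_of_hasDerivAt (fun t _ => h2 s t)
        ((cD2t s).intervalIntegrable _ _)]
  have cI : Continuous fun s => ∫ t in t₁..t₂, D1 s t :=
    intervalIntegral.continuous_parametric_intervalIntegral_of_continuous' (f := D1) c1 t₁ t₂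
  have cAs : Continuous fun s => As s t₂ - As s t₁ := (cs t₂).sub (cs t₁)
  simp only [e1]
  rw [intervalIntegral.integral_sub (cI.intervalIntegrable _ _)
    (cAs.intervalIntegrable _ _),
    intervalIntegral.integral_sub ((cs t₂).intervalIntegrable _ _)
    ((cs t₁).intervalIntegrable _ _)]
  have e2 : ∫ s in s₁..s₂, ∫ t in t₁..t₂, D1 s t = ∫ t in t₁..t₂, (At s₂ t - At s₁ t) := by
    rw [intervalIntegral_intervalIntegral_swap]
    · congr 1
      funext t
      exact intervalIntegral.integral_eq_sub_of_hasDerivAt (fun s _ => h1 s t)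
        ((cD1s t).intervalIntegrable _ _)
    · have hK : IsCompact (Icc s₁ s₂ ×ˢ Icc t₁ t₂) := isCompact_Icc.prod isCompact_Icc
      have := (c1.continuousOn (s := Icc s₁ s₂ ×ˢ Icc t₁ t₂)).integrableOn_compact hK
        (μ := volume)
      refine IntegrableOn.mono_set this ?_
      rw [uIoc_of_le hs, uIoc_of_le ht]
      exact prod_mono Ioc_subset_Icc_self Ioc_subset_Icc_self
  rw [e2, intervalIntegral.integral_sub ((ct s₂).intervalIntegrable _ _)
    ((ct s₁).intervalIntegrable _ _), circ]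
  ring

/-- Lower bound for the holonomy when the flux is in `[m, π]`. -/
lemma norm_one_sub_exp_ge {x m : ℝ} (h1 : m ≤ |x|) (h2 : |x| ≤ Real.pi) :
    2 / Real.pi * m ≤ ‖1 - Complex.exp (Complex.I * (x : ℝ))‖ := by
  rw [norm_sub_rev, Complex.norm_exp_I_mul_ofReal_sub_one, Real.norm_eq_abs, abs_mul, abs_two]
  have h3 : |x / 2| ≤ Real.pi / 2 := by
    rw [abs_div, abs_two]; linarith
  have h4 := Real.mul_abs_le_abs_sin h3
  rw [abs_div, abs_two] at h4
  have h5 : 2 / Real.pi * m ≤ 2 / Real.pi * |x| :=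
    mul_le_mul_of_nonneg_left h1 (by have := Real.pi_pos; positivity)
  linarith

/-- Bounds for a double integral with values in a fixed interval. -/
lemma double_integral_bounds {s₁ s₂ t₁ t₂ m K : ℝ} (hs : s₁ ≤ s₂) (ht : t₁ ≤ t₂)
    {w : ℝ → ℝ → ℝ} (c : Continuous fun p : ℝ × ℝ => w p.1 p.2)
    (h : ∀ s ∈ Icc s₁ s₂, ∀ t ∈ Icc t₁ t₂, m ≤ w s t ∧ w s t ≤ K) :
    m * ((s₂ - s₁) * (t₂ - t₁)) ≤ ∫ s in s₁..s₂, ∫ t in t₁..t₂, w s t ∧
      ∫ s in s₁..s₂, ∫ t in t₁..t₂, w s t ≤ K * ((s₂ - s₁) * (t₂ - t₁)) := by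
  have ct : ∀ s, Continuous fun t => w s t := fun s =>
    c.comp (Continuous.prodMk continuous_const continuous_id)
  have cI : Continuous fun s => ∫ t in t₁..t₂, w s t :=
    intervalIntegral.continuous_parametric_intervalIntegral_of_continuous' (f := w) c t₁ t₂
  have inner : ∀ s ∈ Icc s₁ s₂, m * (t₂ - t₁) ≤ ∫ t in t₁..t₂, w s t ∧
      ∫ t in t₁..t₂, w s t ≤ K * (t₂ - t₁) := by
    intro s hs'
    constructor
    · have := intervalIntegral.integral_mono_on (μ := volume) ht (f := fun _ => m) (g := w s)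
        (by simp) ((ct s).intervalIntegrable _ _) fun t ht' => (h s hs' t ht').1
      rw [intervalIntegral.integral_const, smul_eq_mul] at this
      linarith
    · have := intervalIntegral.integral_mono_on (μ := volume) ht (g := fun _ => K) (f := w s)
        ((ct s).intervalIntegrable _ _) (by simp) fun t ht' => (h s hs' t ht').2
      rw [intervalIntegral.integral_const, smul_eq_mul] at this
      linarith
  constructor
  · have := intervalIntegral.integral_mono_on (μ := volume) hs (f := fun _ => m * (t₂ - t₁))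
      (g := fun s => ∫ t in t₁..t₂, w s t)
      (by simp) (cI.intervalIntegrable _ _) fun s hs' => (inner s hs').1
    rw [intervalIntegral.integral_const, smul_eq_mul] at this
    linarith
  · have := intervalIntegral.integral_mono_on (μ := volume) hs (g := fun _ => K * (t₂ - t₁))
      (f := fun s => ∫ t in t₁..t₂, w s t)
      (cI.intervalIntegrable _ _) (by simp) fun s hs' => (inner s hs').2
    rw [intervalIntegral.integral_const, smul_eq_mul] at this
    linarith

lemma continuous_curl {A : ℝ × ℝ → ℝ × ℝ} (hA : ContDiff ℝ ∞ A) : Continuous (curl A) := by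
  unfold curl
  have h1 : ContDiff ℝ 1 fun q => (A q).1 := (contDiff_fst.comp hA).of_le (by exact_mod_cast le_top)
  have h2 : ContDiff ℝ 1 fun q => (A q).2 := (contDiff_snd.comp hA).of_le (by exact_mod_cast le_top)
  exact ((h2.continuous_fderiv one_ne_zero).clm_apply continuous_const).sub
    ((h1.continuous_fderiv one_ne_zero).clm_apply continuous_const)

/-- The pulled back field. -/
lemma circ_pull {γ : ℝ → ℝ} {a0 b0 M G : ℝ} (h : Curv γ a0 b0 M G) {A : ℝ × ℝ → ℝ × ℝ}
    (hA : ContDiff ℝ ∞ A) {σ : ℝ} (ε : ℝ) {s₁ s₂ t₁ t₂ : ℝ} (hs : s₁ ≤ s₂) (ht : t₁ ≤ t₂) :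
    circ (fun s t => (pull γ ε A (s, σ * t)).1) (fun s t => σ * (pull γ ε A (s, σ * t)).2)
      s₁ s₂ t₁ t₂ = ∫ s in s₁..s₂, ∫ t in t₁..t₂,
        σ * (Real.cos (turning γ ε s - halfTurn γ ε) * curl A (shear γ ε (s, σ * t))) := by
  have h1 : ContDiff ℝ 1 fun q => (A q).1 := (contDiff_fst.comp hA).of_le (by exact_mod_cast le_top)
  have h2 : ContDiff ℝ 1 fun q => (A q).2 := (contDiff_snd.comp hA).of_le (by exact_mod_cast le_top)
  have d1 := h1.differentiable one_ne_zero
  have d2 := h2.differentiable one_ne_zero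
  have hsh := h.continuous_shear ε
  have htu := h.continuous_turning ε
  have hrefl : Continuous fun p : ℝ × ℝ => (p.1, σ * p.2) :=
    continuous_fst.prodMk (continuous_const.mul continuous_snd)
  have hq : Continuous fun p : ℝ × ℝ => shear γ ε (p.1, σ * p.2) := hsh.comp hrefl
  have cf1 : ∀ v : ℝ × ℝ, Continuous fun p : ℝ × ℝ =>
      fderiv ℝ (fun q => (A q).1) (shear γ ε (p.1, σ * p.2)) v := fun v =>
    ((h1.continuous_fderiv one_ne_zero).clm_apply continuous_const).comp hq
  have cf2 : ∀ v : ℝ × ℝ, Continuous fun p : ℝ × ℝ =>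
      fderiv ℝ (fun q => (A q).2) (shear γ ε (p.1, σ * p.2)) v := fun v =>
    ((h2.continuous_fderiv one_ne_zero).clm_apply continuous_const).comp hq
  have cC : Continuous fun p : ℝ × ℝ => Real.cos (turning γ ε p.1) :=
    Real.continuous_cos.comp (htu.comp continuous_fst)
  have cS : Continuous fun p : ℝ × ℝ => Real.sin (turning γ ε p.1) :=
    Real.continuous_sin.comp (htu.comp continuous_fst)
  have lin : ∀ (f : ℝ × ℝ → ℝ) (q : ℝ × ℝ) (x y : ℝ),
      fderiv ℝ f q (x, y) = x * fderiv ℝ f q (1, 0) + y * fderiv ℝ f q (0, 1) := by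
    intro f q x y
    have : ((x, y) : ℝ × ℝ) = x • (1, 0) + y • (0, 1) := by simp
    rw [this, map_add, map_smul, map_smul, smul_eq_mul, smul_eq_mul]
  -- chain rule
  have chain_s : ∀ (f : ℝ × ℝ → ℝ), Differentiable ℝ f → ∀ s t, HasDerivAt
      (fun x => f (shear γ ε (x, σ * t))) (Real.cos (turning γ ε s) *
        fderiv ℝ f (shear γ ε (s, σ * t)) (1, 0) + Real.sin (turning γ ε s) *
        fderiv ℝ f (shear γ ε (s, σ * t)) (0, 1)) s := by
    intro f hf s t
    have g := hasDerivAt_shear_s h ε s (σ * t)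
    have g1 := (hf (shear γ ε (s, σ * t))).hasFDerivAt.comp_hasDerivAt s (g.1.prodMk g.2)
    rw [← lin]
    exact g1
  have chain_t : ∀ (f : ℝ × ℝ → ℝ), Differentiable ℝ f → ∀ s t, HasDerivAt
      (fun x => f (shear γ ε (s, σ * x))) (-(σ * Real.sin (halfTurn γ ε)) *
        fderiv ℝ f (shear γ ε (s, σ * t)) (1, 0) + σ * Real.cos (halfTurn γ ε) *
        fderiv ℝ f (shear γ ε (s, σ * t)) (0, 1)) t := by
    intro f hf s t
    have g := hasDerivAt_shear_t γ ε σ s t
    have g1 := (hf (shear γ ε (s, σ * t))).hasFDerivAt.comp_hasDerivAt t (g.1.prodMk g.2)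
    rw [← lin]
    exact g1
  have key := circ_green (As := fun s t => (pull γ ε A (s, σ * t)).1)
    (At := fun s t => σ * (pull γ ε A (s, σ * t)).2)
    (D1 := fun s t => σ * (-Real.sin (halfTurn γ ε) * (Real.cos (turning γ ε s) *
        fderiv ℝ (fun q => (A q).1) (shear γ ε (s, σ * t)) (1, 0) + Real.sin (turning γ ε s) *
        fderiv ℝ (fun q => (A q).1) (shear γ ε (s, σ * t)) (0, 1)) +
        Real.cos (halfTurn γ ε) * (Real.cos (turning γ ε s) *
        fderiv ℝ (fun q => (A q).2) (shear γ ε (s, σ * t)) (1, 0) + Real.sin (turning γ ε s) *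
        fderiv ℝ (fun q => (A q).2) (shear γ ε (s, σ * t)) (0, 1))))
    (D2 := fun s t => Real.cos (turning γ ε s) * (-(σ * Real.sin (halfTurn γ ε)) *
        fderiv ℝ (fun q => (A q).1) (shear γ ε (s, σ * t)) (1, 0) + σ * Real.cos (halfTurn γ ε) *
        fderiv ℝ (fun q => (A q).1) (shear γ ε (s, σ * t)) (0, 1)) +
        Real.sin (turning γ ε s) * (-(σ * Real.sin (halfTurn γ ε)) *
        fderiv ℝ (fun q => (A q).2) (shear γ ε (s, σ * t)) (1, 0) + σ * Real.cos (halfTurn γ ε) *
        fderiv ℝ (fun q => (A q).2) (shear γ ε (s, σ * t)) (0, 1))) hs ht ?_ ?_ ?_ ?_ ?_ ?_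
  · rw [key]
    congr 1
    funext s
    congr 1
    funext t
    rw [curl, Real.cos_sub]
    ring
  · intro s t
    exact (((chain_s _ d1 s t).const_mul (-Real.sin (halfTurn γ ε))).add
      ((chain_s _ d2 s t).const_mul (Real.cos (halfTurn γ ε)))).const_mul σ
  · intro s t
    exact ((chain_t _ d1 s t).const_mul (Real.cos (turning γ ε s))).add
      ((chain_t _ d2 s t).const_mul (Real.sin (turning γ ε s)))
  · exact continuous_const.mul ((continuous_const.mul ((cC.mul (cf1 _)).add (cS.mul (cf1 _)))).add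
      (continuous_const.mul ((cC.mul (cf2 _)).add (cS.mul (cf2 _)))))
  · exact (cC.mul ((continuous_const.mul (cf1 _)).add (continuous_const.mul (cf1 _)))).add
      (cS.mul ((continuous_const.mul (cf2 _)).add (continuous_const.mul (cf2 _))))
  · intro t
    have hc : Continuous fun s : ℝ => (s, σ * t) := by fun_prop
    have g1 : Continuous fun s : ℝ => (A (shear γ ε (s, σ * t))).1 :=
      h1.continuous.comp (hsh.comp hc)
    have g2 : Continuous fun s : ℝ => (A (shear γ ε (s, σ * t))).2 :=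
      h2.continuous.comp (hsh.comp hc)
    exact ((Real.continuous_cos.comp htu).mul g1).add ((Real.continuous_sin.comp htu).mul g2)
  · intro s
    have hc : Continuous fun t : ℝ => (s, σ * t) := by fun_prop
    have g1 : Continuous fun t : ℝ => (A (shear γ ε (s, σ * t))).1 :=
      h1.continuous.comp (hsh.comp hc)
    have g2 : Continuous fun t : ℝ => (A (shear γ ε (s, σ * t))).2 :=
      h2.continuous.comp (hsh.comp hc)
    exact continuous_const.mul ((continuous_const.mul g1).add (continuous_const.mul g2))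

/-- Holonomy in the regular case. -/
theorem hol_reg {γ : ℝ → ℝ} {a0 b0 M G : ℝ} (h : Curv γ a0 b0 M G) {A : ℝ × ℝ → ℝ × ℝ}
    (hA : ContDiff ℝ ∞ A) (hB : ∃ p, curl A p ≠ 0) : Hol γ A ∅ := by
  have hcont := continuous_curl hA
  -- a point off the axis
  obtain ⟨p₀, hp₀, hy₀⟩ : ∃ p₀ : ℝ × ℝ, curl A p₀ ≠ 0 ∧ p₀.2 ≠ 0 := by
    obtain ⟨p, hp⟩ := hB
    by_cases h0 : p.2 = 0
    · have h1 : ContinuousAt (fun t : ℝ => curl A (p.1, t)) 0 := by
        have : Continuous fun t : ℝ => ((p.1, t) : ℝ × ℝ) := by fun_prop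
        exact (hcont.comp this).continuousAt
      have h2 : curl A (p.1, (0 : ℝ)) ≠ 0 := by
        have : p = (p.1, (0 : ℝ)) := Prod.ext rfl h0
        rwa [← this]
      have h3 := h1.eventually_ne h2
      have h4 : ∀ᶠ t in 𝓝[>] (0 : ℝ), curl A (p.1, t) ≠ 0 := h3.filter_mono nhdsWithin_le_nhds
      obtain ⟨t, ht1, ht2⟩ := (h4.and self_mem_nhdsWithin).exists
      exact ⟨(p.1, t), ht1, (ne_of_gt ht2)⟩
    · exact ⟨p, hp, h0⟩
  obtain ⟨σ, hσ, hy0⟩ : ∃ σ : ℝ, (σ = 1 ∨ σ = -1) ∧ 0 < σ * p₀.2 := by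
    rcases lt_or_gt_of_ne hy₀ with h1 | h1
    · exact ⟨-1, Or.inr rfl, by linarith⟩
    · exact ⟨1, Or.inl rfl, by linarith⟩
  have hσ2 : σ * σ = 1 := by rcases hσ with rfl | rfl <;> norm_num
  have hσ1 : |σ| = 1 := by rcases hσ with rfl | rfl <;> norm_num
  set y0 := σ * p₀.2 with hy0def
  set B0 := curl A p₀ with hB0
  have hB0pos : 0 < |B0| := abs_pos.mpr hp₀
  -- closeness of the field
  obtain ⟨η, hη, hηB⟩ := Metric.continuous_iff.mp hcont p₀ (|B0| / 2) (by positivity)
  -- choose the scale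
  obtain ⟨ρ, hρ0, hρ1, hρ2, hρ3⟩ : ∃ ρ : ℝ, 0 < ρ ∧ 4 * ρ < η ∧ 2 * ρ ≤ y0 ∧
      24 * ρ ^ 2 * |B0| ≤ Real.pi := by
    refine ⟨min (min (η / 8) (y0 / 2)) (min 1 (1 / (24 * |B0|))), ?_, ?_, ?_, ?_⟩
    · have h24 : 0 < 1 / (24 * |B0|) := by positivity
      exact lt_min (lt_min (by linarith) (by linarith)) (lt_min one_pos h24)
    · have := (min_le_left _ _).trans (min_le_left _ _) |>.trans_eq rfl
        (a := min (min (η / 8) (y0 / 2)) (min 1 (1 / (24 * |B0|)))) (b := η / 8)
      linarith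
    · have := ((min_le_left _ _).trans (min_le_right _ _) :
        min (min (η / 8) (y0 / 2)) (min 1 (1 / (24 * |B0|))) ≤ y0 / 2)
      linarith
    · set ρ := min (min (η / 8) (y0 / 2)) (min 1 (1 / (24 * |B0|))) with hρ
      have h24 : 0 < 1 / (24 * |B0|) := by positivity
      have hp : 0 < ρ := lt_min (lt_min (by linarith) (by linarith)) (lt_min one_pos h24)
      have e1 : ρ ≤ 1 := (min_le_right _ _).trans (min_le_left _ _)
      have e2 : ρ ≤ 1 / (24 * |B0|) := (min_le_right _ _).trans (min_le_right _ _)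
      rw [le_div_iff₀ (by positivity)] at e2
      have e3 : ρ ^ 2 ≤ ρ := by nlinarith
      have := Real.pi_gt_three
      nlinarith
  have hM := h.M_nonneg
  set K := M * (2 + |a0|) with hK
  have hK0 : 0 ≤ K := by positivity
  obtain ⟨ε₁, hε₁, hsmall⟩ := exists_small (K * (2 + 2 * ‖p₀‖ + 4 * ρ)) (2 * ρ) (K + M)
    (by positivity) (by linarith) (by positivity)
  refine ⟨σ, p₀.1 - ρ, p₀.1 + ρ, y0 - ρ, y0 + ρ, ρ, 2 / Real.pi * (ρ ^ 2 * |B0|), ε₁, hσ,
    by linarith, by linarith, by linarith, hρ0, by have := Real.pi_pos; positivity, hε₁, ?_, ?_⟩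
  · intro ε hε s t hst hmem
    exact hmem
  · intro ε hε r hr
    obtain ⟨hs1, hs2⟩ := hsmall ε hε
    obtain ⟨hr1, hr2⟩ := hr
    have hεM : |ε| * M ≤ 1 / 8 := by
      have := abs_nonneg ε
      nlinarith
    -- the field in the rectangle
    have hw : ∀ s ∈ Icc (p₀.1 - ρ - r) (p₀.1 + ρ + r), ∀ t ∈ Icc (y0 - ρ - r) (y0 + ρ + r),
        1 / 4 ≤ B0⁻¹ * (Real.cos (turning γ ε s - halfTurn γ ε) *
          curl A (shear γ ε (s, σ * t))) ∧
        B0⁻¹ * (Real.cos (turning γ ε s - halfTurn γ ε) *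
          curl A (shear γ ε (s, σ * t))) ≤ 3 / 2 := by
      intro s hs t ht
      have hs' : |s - p₀.1| ≤ 2 * ρ := by rw [abs_le]; constructor <;> linarith [hs.1, hs.2]
      have ht' : |t - y0| ≤ 2 * ρ := by rw [abs_le]; constructor <;> linarith [ht.1, ht.2]
      have e1 : ‖((s, σ * t) : ℝ × ℝ) - p₀‖ ≤ 2 * ρ := by
        rw [Prod.norm_def, max_le_iff, Real.norm_eq_abs, Real.norm_eq_abs]
        simp only [Prod.fst_sub, Prod.snd_sub]
        refine ⟨hs', ?_⟩
        rw [← abs_sigma_sub hσ]; exact ht'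
      have h6 : ‖((s, σ * t) : ℝ × ℝ)‖ ≤ ‖p₀‖ + 2 * ρ := by
        have := norm_add_le p₀ (((s, σ * t) : ℝ × ℝ) - p₀)
        rw [add_sub_cancel] at this
        linarith
      have h3 : ‖shear γ ε (s, σ * t) - (s, σ * t)‖ < 2 * ρ := by
        refine (h.shear_close ε (s, σ * t)).trans_lt (lt_of_le_of_lt ?_ hs1)
        rw [mul_assoc]
        refine mul_le_mul_of_nonneg_left ?_ (abs_nonneg _)
        refine mul_le_mul_of_nonneg_left ?_ hK0
        have := norm_nonneg p₀
        linarith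
      have h7 : dist (shear γ ε (s, σ * t)) p₀ < η := by
        rw [dist_eq_norm]
        have := norm_add_le (shear γ ε (s, σ * t) - (s, σ * t)) (((s, σ * t) : ℝ × ℝ) - p₀)
        rw [sub_add_sub_cancel] at this
        linarith
      have h8 := hηB _ h7
      rw [Real.dist_eq] at h8
      set b := curl A (shear γ ε (s, σ * t))
      have h9 : |B0⁻¹ * b - 1| ≤ 1 / 2 := by
        have : B0⁻¹ * b - 1 = B0⁻¹ * (b - B0) := by
          rw [mul_sub, inv_mul_cancel₀ hp₀]
        rw [this, abs_mul, abs_inv, inv_mul_le_iff₀ hB0pos]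
        linarith
      rw [abs_le] at h9
      have h10 := h.cos_ge hεM s
      have h11 := Real.cos_le_one (turning γ ε s - halfTurn γ ε)
      set k := Real.cos (turning γ ε s - halfTurn γ ε)
      have h12 : B0⁻¹ * (k * b) = k * (B0⁻¹ * b) := by ring
      rw [h12]
      set z := B0⁻¹ * b
      constructor
      · nlinarith [h9.1]
      · nlinarith [h9.2, h9.1]
    have hcw : Continuous fun p : ℝ × ℝ => B0⁻¹ * (Real.cos (turning γ ε p.1 - halfTurn γ ε) *
          curl A (shear γ ε (p.1, σ * p.2))) := by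
      have hrefl : Continuous fun p : ℝ × ℝ => (p.1, σ * p.2) :=
        continuous_fst.prodMk (continuous_const.mul continuous_snd)
      have g1 : Continuous fun p : ℝ × ℝ => curl A (shear γ ε (p.1, σ * p.2)) :=
        hcont.comp ((h.continuous_shear ε).comp hrefl)
      have g2 : Continuous fun p : ℝ × ℝ => Real.cos (turning γ ε p.1 - halfTurn γ ε) :=
        Real.continuous_cos.comp (((h.continuous_turning ε).comp continuous_fst).sub
          continuous_const)
      exact continuous_const.mul (g2.mul g1)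
    have hb := double_integral_bounds (s₁ := p₀.1 - ρ - r) (s₂ := p₀.1 + ρ + r)
      (t₁ := y0 - ρ - r) (t₂ := y0 + ρ + r) (by linarith) (by linarith)
      (w := fun s t => B0⁻¹ * (Real.cos (turning γ ε s - halfTurn γ ε) *
          curl A (shear γ ε (s, σ * t)))) hcw hw
    rw [circ_pull h hA ε (by linarith) (by linarith)]
    have hI : ∫ s in (p₀.1 - ρ - r)..(p₀.1 + ρ + r), ∫ t in (y0 - ρ - r)..(y0 + ρ + r),
        σ * (Real.cos (turning γ ε s - halfTurn γ ε) * curl A (shear γ ε (s, σ * t))) =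
        σ * B0 * ∫ s in (p₀.1 - ρ - r)..(p₀.1 + ρ + r), ∫ t in (y0 - ρ - r)..(y0 + ρ + r),
        B0⁻¹ * (Real.cos (turning γ ε s - halfTurn γ ε) * curl A (shear γ ε (s, σ * t))) := by
      rw [← intervalIntegral.integral_const_mul]
      congr 1
      funext s
      rw [← intervalIntegral.integral_const_mul]
      congr 1
      funext t
      field_simp
    rw [hI]
    set I := ∫ s in (p₀.1 - ρ - r)..(p₀.1 + ρ + r), ∫ t in (y0 - ρ - r)..(y0 + ρ + r),
        B0⁻¹ * (Real.cos (turning γ ε s - halfTurn γ ε) * curl A (shear γ ε (s, σ * t)))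
    have ea : (p₀.1 + ρ + r - (p₀.1 - ρ - r)) * (y0 + ρ + r - (y0 - ρ - r)) = 4 * (ρ + r) ^ 2 := by
      ring
    simp only [ea] at hb
    obtain ⟨hb1, hb2⟩ := hb
    have hI1 : ρ ^ 2 ≤ I := by nlinarith
    have hI2 : I ≤ 24 * ρ ^ 2 := by nlinarith
    have hI0 : 0 ≤ I := le_trans (by positivity) hI1
    have habs : |σ * B0 * I| = |B0| * I := by
      rw [abs_mul, abs_mul, hσ1, one_mul, abs_of_nonneg hI0]
    refine norm_one_sub_exp_ge ?_ ?_
    · rw [habs, mul_comm]
      exact mul_le_mul_of_nonneg_left hI1 hB0pos.le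
    · rw [habs]
      refine le_trans ?_ hρ3
      rw [mul_comm]
      exact mul_le_mul_of_nonneg_right hI2 hB0pos.le

end Pool.Agent.H99.Leaky
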