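import Pool.Agent.H99.Leaky.Hardy

set_option autoImplicit false

/-!
# Holonomy bounds: the Aharonov-Bohm and the regular case
-/

open MeasureTheory Filter Topology Set
open scoped ContDiff ComplexConjugate

namespace Pool.Agent.H99.Leaky

/-- There is a family of rectangular loops in the shear coordinates, on one side of the curve,
with holonomy bounded away from `1` for small `ε`. -/
def Hol (γ : ℝ → ℝ) (A : ℝ × ℝ → ℝ × ℝ) (S : Set (ℝ × ℝ)) : Prop :=
  ∃ σ s₁ s₂ t₁ t₂ r₀ c ε₁ : ℝ, (σ = 1 ∨ σ = -1) ∧ s₁ ≤ s₂ ∧ 0 ≤ t₁ - r₀ ∧ t₁ ≤ t₂ ∧ 0 < r₀ ∧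
    0 < c ∧ 0 < ε₁ ∧
    (∀ ε, |ε| < ε₁ → ∀ s t, ¬ (s₁ < s ∧ s < s₂ ∧ t₁ < t ∧ t < t₂) → shear γ ε (s, σ * t) ∉ S) ∧
    (∀ ε, |ε| < ε₁ → ∀ r ∈ Icc (0 : ℝ) r₀, c ≤ ‖1 - Complex.exp (Complex.I *
      (circ (fun s t => (pull γ ε A (s, σ * t)).1) (fun s t => σ * (pull γ ε A (s, σ * t)).2)
        (s₁ - r) (s₂ + r) (t₁ - r) (t₂ + r) : ℝ))‖)

lemma arctan_corner {z : ℝ} (hz : 0 < z) : Real.arctan z + Real.arctan z⁻¹ = Real.pi / 2 := by
  rw [Real.arctan_inv_of_pos hz]; ring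

/-- Integral of the angular form along a path not meeting the horizontal axis. -/
lemma integral_angle_hor {a b : ℝ} (hab : a ≤ b) {x y x' y' : ℝ → ℝ}
    (hx : ∀ s, HasDerivAt x (x' s) s) (hy : ∀ s, HasDerivAt y (y' s) s)
    (hx' : Continuous x') (hy' : Continuous y') (h0 : ∀ s ∈ Icc a b, y s ≠ 0) :
    ∫ s in a..b, (x s * y' s - y s * x' s) / (x s ^ 2 + y s ^ 2) =
      Real.arctan (-x b / y b) - Real.arctan (-x a / y a) := by
  have cx : Continuous x := continuous_iff_continuousAt.mpr fun s => (hx s).continuousAt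
  have cy : Continuous y := continuous_iff_continuousAt.mpr fun s => (hy s).continuousAt
  have hD : ∀ s ∈ Icc a b, x s ^ 2 + y s ^ 2 ≠ 0 := fun s hs => by
    have := h0 s hs
    positivity
  refine intervalIntegral.integral_eq_sub_of_hasDerivAt
    (f := fun s => Real.arctan (-x s / y s)) ?_ ?_
  · intro s hs
    rw [uIcc_of_le hab] at hs
    have h1 := ((hx s).neg.div (hy s) (h0 s hs)).arctan
    refine h1.congr_deriv ?_
    have h2 := h0 s hs
    have h3 := hD s hs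
    have h4 : 1 + (-x s / y s) ^ 2 ≠ 0 := by positivity
    have h5 : y s ^ 2 + x s ^ 2 ≠ 0 := by rwa [add_comm]
    simp only [Pi.neg_apply, Pi.div_apply]
    field_simp
    ring
  · refine ContinuousOn.intervalIntegrable ?_
    rw [uIcc_of_le hab]
    exact ((cx.mul hy').sub (cy.mul hx')).continuousOn.div ((cx.pow 2).add (cy.pow 2)).continuousOn hD

/-- Integral of the angular form along a path not meeting the vertical axis. -/
lemma integral_angle_ver {a b : ℝ} (hab : a ≤ b) {x y x' y' : ℝ → ℝ}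
    (hx : ∀ s, HasDerivAt x (x' s) s) (hy : ∀ s, HasDerivAt y (y' s) s)
    (hx' : Continuous x') (hy' : Continuous y') (h0 : ∀ s ∈ Icc a b, x s ≠ 0) :
    ∫ s in a..b, (x s * y' s - y s * x' s) / (x s ^ 2 + y s ^ 2) =
      Real.arctan (y b / x b) - Real.arctan (y a / x a) := by
  have cx : Continuous x := continuous_iff_continuousAt.mpr fun s => (hx s).continuousAt
  have cy : Continuous y := continuous_iff_continuousAt.mpr fun s => (hy s).continuousAt
  have hD : ∀ s ∈ Icc a b, x s ^ 2 + y s ^ 2 ≠ 0 := fun s hs => by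
    have := h0 s hs
    positivity
  refine intervalIntegral.integral_eq_sub_of_hasDerivAt
    (f := fun s => Real.arctan (y s / x s)) ?_ ?_
  · intro s hs
    rw [uIcc_of_le hab] at hs
    have h1 := ((hy s).div (hx s) (h0 s hs)).arctan
    refine h1.congr_deriv ?_
    have h2 := h0 s hs
    have h3 := hD s hs
    have h4 : 1 + (y s / x s) ^ 2 ≠ 0 := by positivity
    simp only [Pi.div_apply]
    field_simp
  · refine ContinuousOn.intervalIntegrable ?_
    rw [uIcc_of_le hab]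
    exact ((cx.mul hy').sub (cy.mul hx')).continuousOn.div ((cx.pow 2).add (cy.pow 2)).continuousOn hD

/-- The winding number computation. -/
lemma circ_angle {f s₁ s₂ t₁ t₂ : ℝ} (hs : s₁ ≤ s₂) (ht : t₁ ≤ t₂) {X Y Xs Ys Xt Yt : ℝ → ℝ → ℝ}
    (hXs : ∀ s t, HasDerivAt (fun x => X x t) (Xs s t) s)
    (hYs : ∀ s t, HasDerivAt (fun x => Y x t) (Ys s t) s)
    (hXt : ∀ s t, HasDerivAt (fun x => X s x) (Xt s t) t)
    (hYt : ∀ s t, HasDerivAt (fun x => Y s x) (Yt s t) t)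
    (cXs : ∀ t, Continuous fun s => Xs s t) (cYs : ∀ t, Continuous fun s => Ys s t)
    (cXt : ∀ s, Continuous fun t => Xt s t) (cYt : ∀ s, Continuous fun t => Yt s t)
    (h1 : ∀ s ∈ Icc s₁ s₂, Y s t₁ < 0) (h2 : ∀ s ∈ Icc s₁ s₂, 0 < Y s t₂)
    (h3 : ∀ t ∈ Icc t₁ t₂, X s₁ t < 0) (h4 : ∀ t ∈ Icc t₁ t₂, 0 < X s₂ t) :
    circ (fun s t => f * ((X s t * Ys s t - Y s t * Xs s t) / (X s t ^ 2 + Y s t ^ 2)))
      (fun s t => f * ((X s t * Yt s t - Y s t * Xt s t) / (X s t ^ 2 + Y s t ^ 2)))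
      s₁ s₂ t₁ t₂ = 2 * Real.pi * f := by
  rw [circ, intervalIntegral.integral_const_mul, intervalIntegral.integral_const_mul,
    intervalIntegral.integral_const_mul, intervalIntegral.integral_const_mul,
    integral_angle_hor hs (fun s => hXs s t₁) (fun s => hYs s t₁) (cXs t₁) (cYs t₁)
      (fun s hs => (h1 s hs).ne),
    integral_angle_hor hs (fun s => hXs s t₂) (fun s => hYs s t₂) (cXs t₂) (cYs t₂)
      (fun s hs => (h2 s hs).ne'),
    integral_angle_ver ht (fun t => hXt s₁ t) (fun t => hYt s₁ t) (cXt s₁) (cYt s₁)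
      (fun t ht => (h3 t ht).ne),
    integral_angle_ver ht (fun t => hXt s₂ t) (fun t => hYt s₂ t) (cXt s₂) (cYt s₂)
      (fun t ht => (h4 t ht).ne')]
  have m1 : s₁ ∈ Icc s₁ s₂ := left_mem_Icc.mpr hs
  have m2 : s₂ ∈ Icc s₁ s₂ := right_mem_Icc.mpr hs
  have m3 : t₁ ∈ Icc t₁ t₂ := left_mem_Icc.mpr ht
  have m4 : t₂ ∈ Icc t₁ t₂ := right_mem_Icc.mpr ht
  have BR : Real.arctan (-X s₂ t₁ / Y s₂ t₁) - Real.arctan (Y s₂ t₁ / X s₂ t₁) = Real.pi / 2 := by
    have hx := h4 t₁ m3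
    have hy := h1 s₂ m2
    have hz : 0 < -X s₂ t₁ / Y s₂ t₁ := div_pos_of_neg_of_neg (by linarith) hy
    have e : Y s₂ t₁ / X s₂ t₁ = -(-X s₂ t₁ / Y s₂ t₁)⁻¹ := by
      rw [inv_div, div_neg, neg_neg]
    rw [e, Real.arctan_neg, sub_neg_eq_add]
    exact arctan_corner hz
  have TR : Real.arctan (Y s₂ t₂ / X s₂ t₂) - Real.arctan (-X s₂ t₂ / Y s₂ t₂) = Real.pi / 2 := by
    have hx := h4 t₂ m4
    have hy := h2 s₂ m2
    have hz : 0 < Y s₂ t₂ / X s₂ t₂ := div_pos hy hx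
    have e : -X s₂ t₂ / Y s₂ t₂ = -(Y s₂ t₂ / X s₂ t₂)⁻¹ := by
      rw [inv_div, neg_div]
    rw [e, Real.arctan_neg, sub_neg_eq_add]
    exact arctan_corner hz
  have TL : Real.arctan (-X s₁ t₂ / Y s₁ t₂) - Real.arctan (Y s₁ t₂ / X s₁ t₂) = Real.pi / 2 := by
    have hx := h3 t₂ m4
    have hy := h2 s₁ m1
    have hz : 0 < -X s₁ t₂ / Y s₁ t₂ := div_pos (by linarith) hy
    have e : Y s₁ t₂ / X s₁ t₂ = -(-X s₁ t₂ / Y s₁ t₂)⁻¹ := by
      rw [inv_div, div_neg, neg_neg]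
    rw [e, Real.arctan_neg, sub_neg_eq_add]
    exact arctan_corner hz
  have BL : Real.arctan (Y s₁ t₁ / X s₁ t₁) - Real.arctan (-X s₁ t₁ / Y s₁ t₁) = Real.pi / 2 := by
    have hx := h3 t₁ m3
    have hy := h1 s₁ m1
    have hz : 0 < Y s₁ t₁ / X s₁ t₁ := div_pos_of_neg_of_neg hy hx
    have e : -X s₁ t₁ / Y s₁ t₁ = -(Y s₁ t₁ / X s₁ t₁)⁻¹ := by
      rw [inv_div, neg_div]
    rw [e, Real.arctan_neg, sub_neg_eq_add]
    exact arctan_corner hz
  linear_combination f * BR + f * TR + f * TL + f * BL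

lemma exists_small (a b c : ℝ) (ha : 0 ≤ a) (hb : 0 < b) (hc : 0 ≤ c) :
    ∃ ε₁ > 0, ∀ ε : ℝ, |ε| < ε₁ → |ε| * a < b ∧ |ε| * c ≤ 1 / 8 := by
  refine ⟨min (b / (a + 1)) (1 / 8 / (c + 1)), lt_min (by positivity) (by positivity), ?_⟩
  intro ε hε
  have h1 := lt_of_lt_of_le hε (min_le_left _ _)
  have h2 := lt_of_lt_of_le hε (min_le_right _ _)
  rw [lt_div_iff₀ (by positivity)] at h1 h2
  have := abs_nonneg ε
  constructor <;> nlinarith

lemma abs_sigma_sub {σ : ℝ} (hσ : σ = 1 ∨ σ = -1) (t y : ℝ) : |t - σ * y| = |σ * t - y| := by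
  rcases hσ with rfl | rfl
  · simp
  · rw [← abs_neg]; congr 1; ring

lemma hasDerivAt_shear_s {γ : ℝ → ℝ} {a0 b0 M G : ℝ} (h : Curv γ a0 b0 M G) (ε s t : ℝ) :
    HasDerivAt (fun x => (shear γ ε (x, t)).1) (Real.cos (turning γ ε s)) s ∧
    HasDerivAt (fun x => (shear γ ε (x, t)).2) (Real.sin (turning γ ε s)) s :=
  ⟨(h.hasDerivAt_curve_fst ε s).sub_const (t * Real.sin (halfTurn γ ε)),
    (h.hasDerivAt_curve_snd ε s).add_const (t * Real.cos (halfTurn γ ε))⟩

lemma hasDerivAt_shear_t (γ : ℝ → ℝ) (ε σ s t : ℝ) :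
    HasDerivAt (fun x => (shear γ ε (s, σ * x)).1) (-(σ * Real.sin (halfTurn γ ε))) t ∧
    HasDerivAt (fun x => (shear γ ε (s, σ * x)).2) (σ * Real.cos (halfTurn γ ε)) t := by
  have g1 : HasDerivAt (fun x : ℝ => σ * x) σ t := by
    simpa using (hasDerivAt_id t).const_mul σ
  constructor
  · refine ((g1.mul_const (Real.sin (halfTurn γ ε))).const_sub (curve γ ε s).1).congr_deriv rfl
  · exact (g1.mul_const (Real.cos (halfTurn γ ε))).const_add (curve γ ε s).2

/-- Holonomy in the Aharonov-Bohm case. -/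
theorem hol_ab {γ : ℝ → ℝ} {a0 b0 M G : ℝ} (h : Curv γ a0 b0 M G) {Φ : ℝ} (hΦ : ∀ n : ℤ, Φ ≠ n)
    {x₀ : ℝ × ℝ} (hx₀ : x₀.2 ≠ 0) : Hol γ (abPotential Φ x₀) {x₀} := by
  obtain ⟨σ, hσ, hy0⟩ : ∃ σ : ℝ, (σ = 1 ∨ σ = -1) ∧ 0 < σ * x₀.2 := by
    rcases lt_or_gt_of_ne hx₀ with h1 | h1
    · exact ⟨-1, Or.inr rfl, by linarith⟩
    · exact ⟨1, Or.inl rfl, by linarith⟩
  have hσ2 : σ * σ = 1 := by rcases hσ with rfl | rfl <;> norm_num
  have hσ1 : |σ| = 1 := by rcases hσ with rfl | rfl <;> norm_num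
  set y0 := σ * x₀.2 with hy0def
  set ρ := y0 / 4 with hρ
  have hρ0 : 0 < ρ := by rw [hρ]; linarith
  have hM := h.M_nonneg
  set K := M * (2 + |a0|) with hK
  have hK0 : 0 ≤ K := by positivity
  obtain ⟨ε₁, hε₁, hsmall⟩ := exists_small (K * (2 + 2 * ‖x₀‖ + 4 * ρ)) ρ (K + M) (by positivity)
    hρ0 (by positivity)
  have hc : 0 < ‖1 - Complex.exp (Complex.I * ((2 * Real.pi * (σ * Φ) : ℝ)))‖ := by
    rw [norm_pos_iff, sub_ne_zero]
    intro h1
    obtain ⟨n, hn⟩ := Complex.exp_eq_one_iff.mp h1.symm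
    have h2 : ((2 * Real.pi * (σ * Φ) : ℝ) : ℂ) = ((n * (2 * Real.pi) : ℝ) : ℂ) := by
      have h3 : Complex.I * (((2 * Real.pi * (σ * Φ) : ℝ)) : ℂ) =
          Complex.I * ((n * (2 * Real.pi) : ℝ) : ℂ) := by
        rw [hn]; push_cast; ring
      exact mul_left_cancel₀ Complex.I_ne_zero h3
    have h4 : 2 * Real.pi * (σ * Φ) = n * (2 * Real.pi) := by exact_mod_cast h2
    have h5 : σ * Φ = n := by
      have := Real.pi_pos
      have h6 : (2 * Real.pi) * (σ * Φ) = (2 * Real.pi) * n := by linarith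
      exact mul_left_cancel₀ (by positivity) h6
    rcases hσ with hs | hs
    · rw [hs, one_mul] at h5; exact hΦ n h5
    · rw [hs] at h5
      exact hΦ (-n) (by push_cast; linarith)
  refine ⟨σ, x₀.1 - ρ, x₀.1 + ρ, y0 - ρ, y0 + ρ, ρ, _, ε₁, hσ, by linarith, by linarith,
    by linarith, hρ0, hc, hε₁, ?_, ?_⟩
  · intro ε hε s t hst hmem
    rw [mem_singleton_iff] at hmem
    obtain ⟨hs1, hs2⟩ := hsmall ε hε
    have h1 := h.norm_le_shear (ε := ε) (by nlinarith [abs_nonneg ε]) (s, σ * t)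
    have h2 := h.shear_close ε (s, σ * t)
    rw [hmem] at h1 h2
    have h3 : ‖x₀ - (s, σ * t)‖ < ρ := by
      refine h2.trans_lt (lt_of_le_of_lt ?_ hs1)
      rw [mul_assoc]
      refine mul_le_mul_of_nonneg_left ?_ (abs_nonneg _)
      exact mul_le_mul_of_nonneg_left (by linarith) hK0
    rw [Prod.norm_def, max_lt_iff, Real.norm_eq_abs, Real.norm_eq_abs] at h3
    simp only [Prod.fst_sub, Prod.snd_sub] at h3
    obtain ⟨h4, h5⟩ := h3
    rw [abs_sub_comm, ← abs_sigma_sub hσ] at h5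
    rw [abs_lt] at h4 h5
    exact hst ⟨by linarith [h4.2], by linarith [h4.1], by linarith [h5.1], by linarith [h5.2]⟩
  · intro ε hε r hr
    obtain ⟨hs1, hs2⟩ := hsmall ε hε
    refine le_of_eq ?_
    congr 4
    -- closeness on the rectangle
    have hclose : ∀ s t, |s - x₀.1| ≤ 2 * ρ → |t - y0| ≤ 2 * ρ →
        |(shear γ ε (s, σ * t)).1 - s| < ρ ∧ |σ * (shear γ ε (s, σ * t)).2 - t| < ρ := by
      intro s t hs ht
      have h2 := h.shear_close ε (s, σ * t)
      have h6 : ‖((s, σ * t) : ℝ × ℝ)‖ ≤ ‖x₀‖ + 2 * ρ := by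
        have e1 : ‖((s, σ * t) : ℝ × ℝ) - x₀‖ ≤ 2 * ρ := by
          rw [Prod.norm_def, max_le_iff, Real.norm_eq_abs, Real.norm_eq_abs]
          simp only [Prod.fst_sub, Prod.snd_sub]
          refine ⟨hs, ?_⟩
          rw [← abs_sigma_sub hσ]; exact ht
        have := norm_add_le x₀ (((s, σ * t) : ℝ × ℝ) - x₀)
        rw [add_sub_cancel] at this
        linarith
      have h3 : ‖shear γ ε (s, σ * t) - (s, σ * t)‖ < ρ := by
        refine h2.trans_lt (lt_of_le_of_lt ?_ hs1)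
        rw [mul_assoc]
        refine mul_le_mul_of_nonneg_left ?_ (abs_nonneg _)
        refine mul_le_mul_of_nonneg_left ?_ hK0
        have := norm_nonneg x₀
        linarith
      rw [Prod.norm_def, max_lt_iff, Real.norm_eq_abs, Real.norm_eq_abs] at h3
      simp only [Prod.fst_sub, Prod.snd_sub] at h3
      refine ⟨h3.1, ?_⟩
      have e2 : σ * (shear γ ε (s, σ * t)).2 - t = σ * ((shear γ ε (s, σ * t)).2 - σ * t) := by
        linear_combination (t) * hσ2 
      rw [e2, abs_mul, hσ1, one_mul]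
      exact h3.2
    have key := circ_angle (f := σ * Φ) (s₁ := x₀.1 - ρ - r) (s₂ := x₀.1 + ρ + r)
      (t₁ := y0 - ρ - r) (t₂ := y0 + ρ + r) (by linarith [hr.1]) (by linarith [hr.1])
      (X := fun s t => (shear γ ε (s, σ * t)).1 - x₀.1)
      (Y := fun s t => σ * ((shear γ ε (s, σ * t)).2 - x₀.2))
      (Xs := fun s _ => Real.cos (turning γ ε s)) (Ys := fun s _ => σ * Real.sin (turning γ ε s))
      (Xt := fun _ _ => -(σ * Real.sin (halfTurn γ ε)))
      (Yt := fun _ _ => σ * (σ * Real.cos (halfTurn γ ε)))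
      (fun s t => ((hasDerivAt_shear_s h ε s (σ * t)).1.sub_const _))
      (fun s t => ((hasDerivAt_shear_s h ε s (σ * t)).2.sub_const _).const_mul σ)
      (fun s t => ((hasDerivAt_shear_t γ ε σ s t).1.sub_const _))
      (fun s t => ((hasDerivAt_shear_t γ ε σ s t).2.sub_const _).const_mul σ)
      (fun t => Real.continuous_cos.comp (h.continuous_turning ε))
      (fun t => continuous_const.mul (Real.continuous_sin.comp (h.continuous_turning ε)))
      (fun s => continuous_const) (fun s => continuous_const) ?_ ?_ ?_ ?_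
    · rw [← key]
      have E1 : (fun s t => (pull γ ε (abPotential Φ x₀) (s, σ * t)).1) = (fun s t => σ * Φ *
          ((((shear γ ε (s, σ * t)).1 - x₀.1) * (σ * Real.sin (turning γ ε s)) -
              σ * ((shear γ ε (s, σ * t)).2 - x₀.2) * Real.cos (turning γ ε s)) /
            (((shear γ ε (s, σ * t)).1 - x₀.1) ^ 2 +
              (σ * ((shear γ ε (s, σ * t)).2 - x₀.2)) ^ 2))) := by
        funext s t
        simp only [pull, abPotential]
        set q := shear γ ε (s, σ * t)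
        have e1 : (σ * (q.2 - x₀.2)) ^ 2 = (q.2 - x₀.2) ^ 2 := by
          rw [mul_pow, pow_two σ, hσ2, one_mul]
        rw [e1]
        have e2 : σ * Φ * (((q.1 - x₀.1) * (σ * Real.sin (turning γ ε s)) -
            σ * (q.2 - x₀.2) * Real.cos (turning γ ε s)) /
            ((q.1 - x₀.1) ^ 2 + (q.2 - x₀.2) ^ 2)) =
            (σ * σ) * (Φ * (((q.1 - x₀.1) * (Real.sin (turning γ ε s)) -
            (q.2 - x₀.2) * Real.cos (turning γ ε s)) /
            ((q.1 - x₀.1) ^ 2 + (q.2 - x₀.2) ^ 2))) := by ring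
        rw [e2, hσ2]
        ring
      have E2 : (fun s t => σ * (pull γ ε (abPotential Φ x₀) (s, σ * t)).2) = (fun s t => σ * Φ *
          ((((shear γ ε (s, σ * t)).1 - x₀.1) * (σ * (σ * Real.cos (halfTurn γ ε))) -
              σ * ((shear γ ε (s, σ * t)).2 - x₀.2) * -(σ * Real.sin (halfTurn γ ε))) /
            (((shear γ ε (s, σ * t)).1 - x₀.1) ^ 2 +
              (σ * ((shear γ ε (s, σ * t)).2 - x₀.2)) ^ 2))) := by
        funext s t
        simp only [pull, abPotential]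
        set q := shear γ ε (s, σ * t)
        have e1 : (σ * (q.2 - x₀.2)) ^ 2 = (q.2 - x₀.2) ^ 2 := by
          rw [mul_pow, pow_two σ, hσ2, one_mul]
        rw [e1]
        have e2 : σ * Φ * (((q.1 - x₀.1) * (σ * (σ * Real.cos (halfTurn γ ε))) -
            σ * (q.2 - x₀.2) * -(σ * Real.sin (halfTurn γ ε))) /
            ((q.1 - x₀.1) ^ 2 + (q.2 - x₀.2) ^ 2)) =
            (σ * σ) * (σ * (Φ * (((q.1 - x₀.1) * (Real.cos (halfTurn γ ε)) +
            (q.2 - x₀.2) * Real.sin (halfTurn γ ε)) /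
            ((q.1 - x₀.1) ^ 2 + (q.2 - x₀.2) ^ 2)))) := by ring
        rw [e2, hσ2]
        ring
      rw [E1, E2]
    all_goals
      intro z hz
      obtain ⟨hz1, hz2⟩ := hz
      obtain ⟨hr1, hr2⟩ := hr
    · have := (hclose z (y0 - ρ - r) (by rw [abs_le]; constructor <;> linarith)
        (by rw [abs_le]; constructor <;> linarith)).2
      rw [abs_lt] at this
      have e : σ * ((shear γ ε (z, σ * (y0 - ρ - r))).2 - x₀.2) =
        σ * (shear γ ε (z, σ * (y0 - ρ - r))).2 - y0 := by rw [hy0def]; ring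
      rw [e]
      linarith [this.2]
    · have := (hclose z (y0 + ρ + r) (by rw [abs_le]; constructor <;> linarith)
        (by rw [abs_le]; constructor <;> linarith)).2
      rw [abs_lt] at this
      have e : σ * ((shear γ ε (z, σ * (y0 + ρ + r))).2 - x₀.2) =
        σ * (shear γ ε (z, σ * (y0 + ρ + r))).2 - y0 := by rw [hy0def]; ring
      rw [e]
      linarith [this.1]
    · have := (hclose (x₀.1 - ρ - r) z (by rw [abs_le]; constructor <;> linarith)
        (by rw [abs_le]; constructor <;> linarith)).1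
      rw [abs_lt] at this
      linarith [this.2]
    · have := (hclose (x₀.1 + ρ + r) z (by rw [abs_le]; constructor <;> linarith)
        (by rw [abs_le]; constructor <;> linarith)).1
      rw [abs_lt] at this
      linarith [this.1]

end Pool.Agent.H99.Leaky
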