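import Pool.Agent.H99.Leaky.Spec

set_option autoImplicit false

/-!
# Stability of the spectrum
-/

open MeasureTheory Filter Topology Set
open scoped ContDiff ComplexConjugate

namespace Pool.Agent.H99.Leaky

theorem stability_of_hol {γ : ℝ → ℝ} {a0 b0 M G : ℝ} (h : Curv γ a0 b0 M G) {α : ℝ} (hα : 0 < α)
    {S : Set (ℝ × ℝ)} (hS : IsClosed S) {A : ℝ × ℝ → ℝ × ℝ} (hA : ContinuousOn A Sᶜ)
    (hH : Hol γ A S) :
    ∃ ε₀ > 0, ∀ ε : ℝ, |ε| < ε₀ → spec α (curve γ ε) A S ⊆ Ici (-(α ^ 2 / 4)) := by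
  obtain ⟨σ, s₁, s₂, t₁, t₂, r₀, c, ε₁, hσ, h2, h4, h5, hr, hc, hε₁, hS', hhol⟩ := hH
  obtain ⟨C, hC0, hC⟩ := exists_trace_bound h hα hS hA hσ h2 h4 h5 hr hc hS' hhol
  have hM := h.M_nonneg
  have hG := h.G_nonneg
  obtain ⟨ε₂, hε₂, hsmall⟩ := exists_small
    ((16 * (1 + 2 / α) + (10 * α + 16) * C) * (2 * M + G)) (1 / 2) (M + M * (2 + |a0|))
    (by positivity) (by norm_num) (by positivity)
  refine ⟨min ε₁ ε₂, lt_min hε₁ hε₂, fun ε hε => ?_⟩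
  have hε1 := lt_of_lt_of_le hε (min_le_left _ _)
  have hε2 := lt_of_lt_of_le hε (min_le_right _ _)
  obtain ⟨g1, g2⟩ := hsmall ε hε2
  have hn := abs_nonneg ε
  have hMM : 0 ≤ |ε| * (M * (2 + |a0|)) := by positivity
  have hM1 : 0 ≤ |ε| * M := by positivity
  have e8 : |ε| * M ≤ 1 / 8 := by linarith
  have e2 : |ε| * (M * (2 + |a0|)) ≤ 1 / 2 := by linarith
  have hcont : Continuous (curve γ ε) :=
    (continuous_iff_continuousAt.mpr fun s => (h.hasDerivAt_curve_fst ε s).continuousAt).prodMk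
      (continuous_iff_continuousAt.mpr fun s => (h.hasDerivAt_curve_snd ε s).continuousAt)
  refine spec_subset hS hA α hcont ?_ (K := α ^ 2 / 4) ?_
  · intro u hu
    have h1 := compact_slice_fst (h.hasCompactSupport_comp e2 hu) 0
    simpa only [Curv.shear_zero] using h1
  · intro u hu
    refine h.form_nonneg_of_trace hα e8 e2 hu (hC ε hε1 e8 e2 u hu) ?_
    linarith

lemma continuousOn_abPotential (Φ : ℝ) (x₀ : ℝ × ℝ) :
    ContinuousOn (abPotential Φ x₀) ({x₀} : Set (ℝ × ℝ))ᶜ := by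
  have hD : ∀ p ∈ ({x₀} : Set (ℝ × ℝ))ᶜ, (p.1 - x₀.1) ^ 2 + (p.2 - x₀.2) ^ 2 ≠ 0 := by
    intro p hp h0
    refine hp ?_
    have h1 : (p.1 - x₀.1) ^ 2 = 0 := by nlinarith [sq_nonneg (p.1 - x₀.1), sq_nonneg (p.2 - x₀.2)]
    have h2 : (p.2 - x₀.2) ^ 2 = 0 := by nlinarith [sq_nonneg (p.1 - x₀.1), sq_nonneg (p.2 - x₀.2)]
    rw [pow_eq_zero_iff two_ne_zero, sub_eq_zero] at h1 h2
    exact Prod.ext h1 h2
  unfold abPotential
  refine ContinuousOn.prodMk ?_ ?_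
  · exact ContinuousOn.div (by fun_prop) (by fun_prop) hD
  · exact ContinuousOn.div (by fun_prop) (by fun_prop) hD

end Pool.Agent.H99.Leaky
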