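import Mathlib

set_option autoImplicit false

/-!
# Integration by parts on the plane with a jump across the horizontal axis
-/

open MeasureTheory Filter Topology Set

namespace Pool.Agent.H99.Leaky

/-- The sign function with value `1` at the origin. -/
noncomputable def sg (t : ℝ) : ℝ := if 0 ≤ t then 1 else -1

lemma sg_sq (t : ℝ) : sg t * sg t = 1 := by unfold sg; split_ifs <;> norm_num

lemma abs_sg (t : ℝ) : |sg t| = 1 := by unfold sg; split_ifs <;> norm_num

lemma sg_of_nonneg {t : ℝ} (h : 0 ≤ t) : sg t = 1 := by unfold sg; rw [if_pos h]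

lemma sg_of_neg {t : ℝ} (h : t < 0) : sg t = -1 := by unfold sg; rw [if_neg (not_le.mpr h)]

lemma measurable_sg : Measurable sg :=
  Measurable.ite measurableSet_Ici measurable_const measurable_const

/-- One dimensional integration with the sign function. -/
lemma integral_sg_deriv {f : ℝ → ℝ} (hf : ContDiff ℝ 1 f) (hc : HasCompactSupport f) :
    ∫ t, sg t * deriv f t = -2 * f 0 := by
  have hint : Integrable (deriv f) :=
    (hf.continuous_deriv le_rfl).integrable_of_hasCompactSupport hc.deriv
  have hint' : Integrable (fun t => sg t * deriv f t) :=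
    hint.bdd_mul (c := 1) measurable_sg.aestronglyMeasurable
      (Eventually.of_forall fun t => by rw [Real.norm_eq_abs, abs_sg])
  rw [← setIntegral_univ, ← Set.Iic_union_Ioi (a := (0 : ℝ)),
    setIntegral_union (Iic_disjoint_Ioi le_rfl) measurableSet_Ioi hint'.integrableOn
      hint'.integrableOn]
  have h1 : ∫ t in Iic (0 : ℝ), sg t * deriv f t = - ∫ t in Iic (0 : ℝ), deriv f t := by
    rw [← integral_neg]
    apply setIntegral_congr_ae₀ measurableSet_Iic.nullMeasurableSet
    have : ∀ᵐ t : ℝ, t ≠ 0 := by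
      simp [ae_iff, measure_singleton]
    filter_upwards [this] with t ht hmem
    rw [sg_of_neg (lt_of_le_of_ne hmem ht)]
    ring
  have h2 : ∫ t in Ioi (0 : ℝ), sg t * deriv f t = ∫ t in Ioi (0 : ℝ), deriv f t := by
    apply setIntegral_congr_fun measurableSet_Ioi
    intro t ht
    simp only [sg_of_nonneg (le_of_lt ht), one_mul]
  rw [h1, h2, hc.integral_Iic_deriv_eq hf, hc.integral_Ioi_deriv_eq hf]
  ring

section partials

variable {f : ℝ × ℝ → ℝ}

lemma hasDerivAt_fst {E : Type*} [NormedAddCommGroup E] [NormedSpace ℝ E] {f : ℝ × ℝ → E}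
    (hf : Differentiable ℝ f) (s t : ℝ) :
    HasDerivAt (fun x => f (x, t)) (fderiv ℝ f (s, t) (1, 0)) s := by
  have h1 : HasDerivAt (fun x : ℝ => (x, t)) ((1 : ℝ), (0 : ℝ)) s :=
    (hasDerivAt_id s).prodMk (hasDerivAt_const s t)
  exact (hf (s, t)).hasFDerivAt.comp_hasDerivAt s h1

lemma hasDerivAt_snd {E : Type*} [NormedAddCommGroup E] [NormedSpace ℝ E] {f : ℝ × ℝ → E}
    (hf : Differentiable ℝ f) (s t : ℝ) :
    HasDerivAt (fun x => f (s, x)) (fderiv ℝ f (s, t) (0, 1)) t := by
  have h1 : HasDerivAt (fun x : ℝ => (s, x)) ((0 : ℝ), (1 : ℝ)) t :=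
    (hasDerivAt_const t s).prodMk (hasDerivAt_id t)
  exact (hf (s, t)).hasFDerivAt.comp_hasDerivAt t h1

lemma contDiff_slice_snd (hf : ContDiff ℝ 1 f) (s : ℝ) : ContDiff ℝ 1 fun t => f (s, t) :=
  hf.comp (contDiff_const.prodMk contDiff_id)

lemma contDiff_slice_fst (hf : ContDiff ℝ 1 f) (t : ℝ) : ContDiff ℝ 1 fun s => f (s, t) :=
  hf.comp (contDiff_id.prodMk contDiff_const)

lemma compact_slice_snd {E : Type*} [Zero E] {f : ℝ × ℝ → E} (hc : HasCompactSupport f) (s : ℝ) :
    HasCompactSupport fun t => f (s, t) := by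
  refine HasCompactSupport.intro (hc.isCompact.image continuous_snd) ?_
  intro t ht
  by_contra h
  exact ht ⟨(s, t), subset_tsupport _ h, rfl⟩

lemma compact_slice_fst {E : Type*} [Zero E] {f : ℝ × ℝ → E} (hc : HasCompactSupport f) (t : ℝ) :
    HasCompactSupport fun s => f (s, t) := by
  refine HasCompactSupport.intro (hc.isCompact.image continuous_fst) ?_
  intro s hs
  by_contra h
  exact hs ⟨(s, t), subset_tsupport _ h, rfl⟩

lemma integrable_partial (hf : ContDiff ℝ 1 f) (hc : HasCompactSupport f) (v : ℝ × ℝ) :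
    Integrable fun p => fderiv ℝ f p v := by
  have h1 : Continuous fun p => fderiv ℝ f p v := (hf.continuous_fderiv one_ne_zero).clm_apply
    continuous_const
  refine h1.integrable_of_hasCompactSupport ?_
  refine HasCompactSupport.intro hc.isCompact fun p hp => ?_
  have : fderiv ℝ f p = 0 := by
    by_contra h
    exact hp (support_fderiv_subset ℝ h)
  rw [this]; rfl

lemma integrable_weight {g : ℝ × ℝ → ℝ} (hg : Integrable g) {w : ℝ → ℝ} (hw : Measurable w)
    {C : ℝ} (hC : ∀ s, |w s| ≤ C) : Integrable fun p : ℝ × ℝ => w p.1 * sg p.2 * g p := by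
  refine hg.bdd_mul (c := C) ?_ ?_
  · exact ((hw.comp measurable_fst).mul (measurable_sg.comp measurable_snd)).aestronglyMeasurable
  · refine Eventually.of_forall fun p => ?_
    rw [norm_mul, Real.norm_eq_abs, Real.norm_eq_abs, abs_sg, mul_one]
    exact hC _

lemma integrable_weight' {g : ℝ × ℝ → ℝ} (hg : Integrable g) {w : ℝ → ℝ} (hw : Measurable w)
    {C : ℝ} (hC : ∀ s, |w s| ≤ C) : Integrable fun p : ℝ × ℝ => w p.1 * g p := by
  refine hg.bdd_mul (c := C) ?_ ?_
  · exact (hw.comp measurable_fst).aestronglyMeasurable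
  · exact Eventually.of_forall fun p => by rw [Real.norm_eq_abs]; exact hC _

/-- Integration by parts in the transversal direction. -/
lemma integral_sg_snd (hf : ContDiff ℝ 1 f) (hc : HasCompactSupport f) {w : ℝ → ℝ}
    (hw : Measurable w) {C : ℝ} (hC : ∀ s, |w s| ≤ C) :
    ∫ p : ℝ × ℝ, w p.1 * sg p.2 * fderiv ℝ f p (0, 1) = -2 * ∫ s, w s * f (s, 0) := by
  have hi := integrable_weight (integrable_partial hf hc (0, 1)) hw hC
  rw [Measure.volume_eq_prod] at hi ⊢
  rw [integral_prod _ hi, ← integral_const_mul]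
  congr 1
  funext s
  have h1 : ∀ t, fderiv ℝ f (s, t) (0, 1) = deriv (fun t => f (s, t)) t := fun t =>
    (hasDerivAt_snd (hf.differentiable one_ne_zero) s t).deriv.symm
  simp only [h1]
  have h2 := integral_sg_deriv (contDiff_slice_snd hf s) (compact_slice_snd hc s)
  have h3 : (fun t => w s * sg t * deriv (fun t => f (s, t)) t) =
      fun t => w s * (sg t * deriv (fun t => f (s, t)) t) := by funext t; ring
  rw [h3, integral_const_mul, h2]
  ring

/-- Integration by parts in the longitudinal direction. -/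
lemma integral_sg_fst (hf : ContDiff ℝ 1 f) (hc : HasCompactSupport f) {m m' : ℝ → ℝ}
    (hm : ∀ s, HasDerivAt m (m' s) s) (hm' : Continuous m') {C : ℝ} (hC : ∀ s, |m s| ≤ C)
    {C' : ℝ} (hC' : ∀ s, |m' s| ≤ C') :
    ∫ p : ℝ × ℝ, m p.1 * sg p.2 * fderiv ℝ f p (1, 0) =
      - ∫ p : ℝ × ℝ, m' p.1 * sg p.2 * f p := by
  have hmc : Continuous m := continuous_iff_continuousAt.mpr fun s => (hm s).continuousAt
  have hfi : Integrable f := hf.continuous.integrable_of_hasCompactSupport hc
  have hi := integrable_weight (integrable_partial hf hc (1, 0)) hmc.measurable hC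
  have hi' := integrable_weight hfi hm'.measurable hC'
  rw [Measure.volume_eq_prod] at hi hi' ⊢
  rw [integral_prod_symm _ hi, integral_prod_symm _ hi', ← integral_neg]
  congr 1
  funext t
  have h1 : ∀ s, fderiv ℝ f (s, t) (1, 0) = deriv (fun s => f (s, t)) s := fun s =>
    (hasDerivAt_fst (hf.differentiable one_ne_zero) s t).deriv.symm
  simp only [h1]
  have hs := contDiff_slice_fst hf t
  have hcs := compact_slice_fst hc t
  have key : ∫ s, m s * deriv (fun s => f (s, t)) s = - ∫ s, m' s * f (s, t) := by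
    refine integral_mul_deriv_eq_deriv_mul_of_integrable (fun s _ => hm s)
      (fun s _ => (hs.differentiable one_ne_zero s).hasDerivAt) ?_ ?_ ?_
    · exact ((hmc.mul (hs.continuous_deriv le_rfl)).integrable_of_hasCompactSupport
        (hcs.deriv.mul_left))
    · exact ((hm'.mul hs.continuous).integrable_of_hasCompactSupport hcs.mul_left)
    · exact ((hmc.mul hs.continuous).integrable_of_hasCompactSupport hcs.mul_left)
  have e1 : (fun s => m s * sg t * deriv (fun s => f (s, t)) s) =
      fun s => sg t * (m s * deriv (fun s => f (s, t)) s) := by funext s; ring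
  have e2 : (fun s => m' s * sg t * f (s, t)) = fun s => sg t * (m' s * f (s, t)) := by
    funext s; ring
  rw [e1, e2, integral_const_mul, integral_const_mul, key]
  ring

end partials

end Pool.Agent.H99.Leaky
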