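import Pool.Agent.H99.Leaky.Defs
import Pool.Agent.H99.Leaky.Plane

set_option autoImplicit false

/-!
# The main inequality in shear coordinates
-/

open MeasureTheory Filter Topology Set
open scoped ContDiff ComplexConjugate

namespace Pool.Agent.H99.Leaky

/-- The transversal covariant derivative relative to the transversal ground state. -/
noncomputable def covP (β : ℝ) (A : ℝ × ℝ → ℝ × ℝ) (U : ℝ × ℝ → ℂ) (p : ℝ × ℝ) : ℂ :=
  magD2 A U p - Complex.I * (β * sg p.2 : ℝ) * U p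

lemma fderiv_normSq {U : ℝ × ℝ → ℂ} (hU : Differentiable ℝ U) (p v : ℝ × ℝ) :
    fderiv ℝ (fun q => ‖U q‖ ^ 2) p v =
      2 * ((fderiv ℝ U p v).re * (U p).re + (fderiv ℝ U p v).im * (U p).im) := by
  have h := (hU p).hasFDerivAt.norm_sq
  rw [h.fderiv]
  simp [Complex.inner, Complex.mul_re]
  ring

lemma normSq_covP {U : ℝ × ℝ → ℂ} (hU : Differentiable ℝ U) (β : ℝ) (A : ℝ × ℝ → ℝ × ℝ)
    (p : ℝ × ℝ) :
    ‖covP β A U p‖ ^ 2 = ‖magD2 A U p‖ ^ 2 + β ^ 2 * ‖U p‖ ^ 2 +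
      β * sg p.2 * fderiv ℝ (fun q => ‖U q‖ ^ 2) p (0, 1) := by
  rw [fderiv_normSq hU, covP, magD2]
  have h := sg_sq p.2
  simp only [Complex.sq_norm, Complex.normSq_apply]
  simp
  set x := (fderiv ℝ U p (0, 1)).re
  set y := (fderiv ℝ U p (0, 1)).im
  set z := (U p).re
  set w := (U p).im
  set σ := sg p.2
  linear_combination (β ^ 2 * (z ^ 2 + w ^ 2)) * h

lemma re_mul_covP {U : ℝ × ℝ → ℂ} (hU : Differentiable ℝ U) (β : ℝ) (A : ℝ × ℝ → ℝ × ℝ)
    (p : ℝ × ℝ) :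
    (magD1 A U p * conj (magD2 A U p)).re = (magD1 A U p * conj (covP β A U p)).re -
      (β / 2) * sg p.2 * fderiv ℝ (fun q => ‖U q‖ ^ 2) p (1, 0) := by
  rw [fderiv_normSq hU, covP, magD2, magD1]
  simp
  ring

lemma normSq_le_covP {U : ℝ × ℝ → ℂ} (hU : Differentiable ℝ U) {β : ℝ} (hβ : 0 < β)
    (A : ℝ × ℝ → ℝ × ℝ) (p : ℝ × ℝ) :
    ‖U p‖ ^ 2 ≤ (β⁻¹) ^ 2 * ‖covP β A U p‖ ^ 2 -
      β⁻¹ * sg p.2 * fderiv ℝ (fun q => ‖U q‖ ^ 2) p (0, 1) := by
  rw [normSq_covP hU]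
  have h1 : (β⁻¹) ^ 2 * (‖magD2 A U p‖ ^ 2 + β ^ 2 * ‖U p‖ ^ 2 +
      β * sg p.2 * fderiv ℝ (fun q => ‖U q‖ ^ 2) p (0, 1)) =
      (β⁻¹) ^ 2 * ‖magD2 A U p‖ ^ 2 + ‖U p‖ ^ 2 +
      β⁻¹ * sg p.2 * fderiv ℝ (fun q => ‖U q‖ ^ 2) p (0, 1) := by
    field_simp
  rw [h1]
  have : 0 ≤ (β⁻¹) ^ 2 * ‖magD2 A U p‖ ^ 2 := by positivity
  linarith

/-- `C¹` compactly supported functions on which the potential acts continuously. -/
structure Adm (A : ℝ × ℝ → ℝ × ℝ) (U : ℝ × ℝ → ℂ) : Prop where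
  smooth : ContDiff ℝ 1 U
  supp : HasCompactSupport U
  cont1 : Continuous fun p => ((A p).1 : ℂ) * U p
  cont2 : Continuous fun p => ((A p).2 : ℂ) * U p

namespace Adm

variable {A : ℝ × ℝ → ℝ × ℝ} {U : ℝ × ℝ → ℂ}

lemma continuous_magD1 (h : Adm A U) : Continuous (magD1 A U) := by
  unfold magD1
  exact (continuous_const.mul
    ((h.smooth.continuous_fderiv one_ne_zero).clm_apply continuous_const)).sub h.cont1

lemma continuous_magD2 (h : Adm A U) : Continuous (magD2 A U) := by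
  unfold magD2
  exact (continuous_const.mul
    ((h.smooth.continuous_fderiv one_ne_zero).clm_apply continuous_const)).sub h.cont2

lemma magD1_eq_zero {p : ℝ × ℝ} (hp : p ∉ tsupport U) : magD1 A U p = 0 := by
  have h1 : fderiv ℝ U p = 0 := by
    by_contra h
    exact hp (support_fderiv_subset ℝ h)
  rw [magD1, h1, image_eq_zero_of_notMem_tsupport hp]
  simp

lemma magD2_eq_zero {p : ℝ × ℝ} (hp : p ∉ tsupport U) : magD2 A U p = 0 := by
  have h1 : fderiv ℝ U p = 0 := by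
    by_contra h
    exact hp (support_fderiv_subset ℝ h)
  rw [magD2, h1, image_eq_zero_of_notMem_tsupport hp]
  simp

lemma integrable_of (h : Adm A U) {F : ℝ × ℝ → ℝ} (hF : Continuous F)
    (h0 : ∀ p, p ∉ tsupport U → F p = 0) : Integrable F :=
  hF.integrable_of_hasCompactSupport (HasCompactSupport.intro h.supp.isCompact h0)

lemma integrable_aa (h : Adm A U) : Integrable fun p => ‖magD1 A U p‖ ^ 2 :=
  h.integrable_of (h.continuous_magD1.norm.pow 2) fun p hp => by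
    rw [magD1_eq_zero hp]; simp

lemma integrable_bb (h : Adm A U) : Integrable fun p => ‖magD2 A U p‖ ^ 2 :=
  h.integrable_of (h.continuous_magD2.norm.pow 2) fun p hp => by
    rw [magD2_eq_zero hp]; simp

lemma integrable_ab (h : Adm A U) :
    Integrable fun p => (magD1 A U p * conj (magD2 A U p)).re :=
  h.integrable_of (Complex.continuous_re.comp
    (h.continuous_magD1.mul (Complex.continuous_conj.comp h.continuous_magD2))) fun p hp => by
    rw [magD1_eq_zero hp]; simp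

lemma contDiff_f (h : Adm A U) : ContDiff ℝ 1 fun p => ‖U p‖ ^ 2 := h.smooth.norm_sq ℝ

lemma supp_f (h : Adm A U) : HasCompactSupport fun p => ‖U p‖ ^ 2 := by
  refine HasCompactSupport.intro h.supp.isCompact fun p hp => ?_
  rw [image_eq_zero_of_notMem_tsupport hp]; simp

lemma integrable_f (h : Adm A U) : Integrable fun p => ‖U p‖ ^ 2 :=
  h.contDiff_f.continuous.integrable_of_hasCompactSupport h.supp_f

lemma integrable_pp (h : Adm A U) (β : ℝ) : Integrable fun p => ‖covP β A U p‖ ^ 2 := by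
  have h1 : (fun p => ‖covP β A U p‖ ^ 2) = fun p => ‖magD2 A U p‖ ^ 2 + β ^ 2 * ‖U p‖ ^ 2 +
      β * sg p.2 * fderiv ℝ (fun q => ‖U q‖ ^ 2) p (0, 1) := by
    funext p
    exact normSq_covP (h.smooth.differentiable one_ne_zero) β A p
  rw [h1]
  exact (h.integrable_bb.add (h.integrable_f.const_mul _)).add
    (integrable_weight (integrable_partial h.contDiff_f h.supp_f (0, 1)) (w := fun _ => β)
      measurable_const (C := |β|) fun _ => le_rfl)

lemma integrable_trace (h : Adm A U) : Integrable fun s : ℝ => ‖U (s, 0)‖ ^ 2 :=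
  (contDiff_slice_fst h.contDiff_f 0).continuous.integrable_of_hasCompactSupport
    (compact_slice_fst h.supp_f 0)

end Adm

/-- The main inequality in shear coordinates. -/
theorem main_ineq {α c δ a0 b0 : ℝ} (hα : 0 < α) (hc : 1 / 2 ≤ c) (hc1 : c ≤ 1)
    {θ θ' : ℝ → ℝ} (hθ : ∀ s, HasDerivAt θ (θ' s) s) (hθ' : Continuous θ')
    (hcos : ∀ s, 1 / 2 ≤ Real.cos (θ s)) (hsin : ∀ s, |Real.sin (θ s)| ≤ 1 / 2)
    (hδ1 : ∀ s, |Real.cos (θ s) - c| ≤ δ) (hδ2 : ∀ s, |θ' s| ≤ δ)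
    (hout : ∀ s, s ∉ Icc a0 b0 → Real.cos (θ s) = c ∧ θ' s = 0)
    {A : ℝ × ℝ → ℝ × ℝ} {U : ℝ × ℝ → ℂ} (h : Adm A U) :
    (1 / 2 - 16 * (1 + 2 / α) * δ) *
        (∫ p, (‖magD1 A U p‖ ^ 2 + ‖covP (α * c / 2) A U p‖ ^ 2)) -
      (10 * α + 16) * δ * (∫ s in Icc a0 b0, ‖U (s, 0)‖ ^ 2) ≤
    (∫ p, ((‖magD1 A U p‖ ^ 2 - 2 * Real.sin (θ p.1) * (magD1 A U p * conj (magD2 A U p)).re +
        ‖magD2 A U p‖ ^ 2) / Real.cos (θ p.1) +
        α ^ 2 / 4 * Real.cos (θ p.1) * ‖U p‖ ^ 2)) - α * ∫ s, ‖U (s, 0)‖ ^ 2 := by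
  have hδ : 0 ≤ δ := (abs_nonneg _).trans (hδ2 0)
  set β : ℝ := α * c / 2 with hβ
  have hβ0 : 0 < β := by positivity
  have hβ1 : α / 4 ≤ β := by rw [hβ]; nlinarith
  have hβ2 : β ≤ α / 2 := by rw [hβ]; nlinarith
  have hd := h.smooth.differentiable one_ne_zero
  have hθc : Continuous θ := continuous_iff_continuousAt.mpr fun s => (hθ s).continuousAt
  have hcos0 : ∀ s, 0 < Real.cos (θ s) := fun s => by linarith [hcos s]
  have hcosc : Continuous fun s => Real.cos (θ s) := Real.continuous_cos.comp hθc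
  have hsinc : Continuous fun s => Real.sin (θ s) := Real.continuous_sin.comp hθc
  have hinvc : Continuous fun s => (Real.cos (θ s))⁻¹ := hcosc.inv₀ fun s => (hcos0 s).ne'
  have hinv : ∀ s, |(Real.cos (θ s))⁻¹| ≤ 2 := by
    intro s
    rw [abs_of_pos (inv_pos.mpr (hcos0 s))]
    rw [inv_le_comm₀ (hcos0 s) two_pos]
    linarith [hcos s]
  -- the weights
  set w1 : ℝ → ℝ := fun s => β * (Real.cos (θ s))⁻¹ with hw1
  set w2 : ℝ → ℝ := fun s => β * (Real.sin (θ s) * (Real.cos (θ s))⁻¹) with hw2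
  set w3 : ℝ → ℝ := fun s => β * (θ' s * ((Real.cos (θ s))⁻¹) ^ 2) with hw3
  set χ : ℝ → ℝ := (Icc a0 b0).indicator 1 with hχ
  have hχ0 : ∀ s, 0 ≤ χ s := fun s => Set.indicator_nonneg (fun _ _ => zero_le_one) s
  have hχm : Measurable χ := measurable_one.indicator measurableSet_Icc
  have hχ1 : ∀ s, |χ s| ≤ 1 := by
    intro s
    rw [abs_of_nonneg (hχ0 s), hχ]
    exact Set.indicator_le' (fun _ _ => le_rfl) (fun _ _ => zero_le_one) s
  have hχin : ∀ s, s ∈ Icc a0 b0 → χ s = 1 := fun s hs => by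
    rw [hχ, Set.indicator_of_mem hs]; rfl
  have hχout : ∀ s, s ∉ Icc a0 b0 → χ s = 0 := fun s hs => by
    rw [hχ, Set.indicator_of_notMem hs]
  have hw1c : Continuous w1 := continuous_const.mul hinvc
  have hw2c : Continuous w2 := continuous_const.mul (hsinc.mul hinvc)
  have hw3c : Continuous w3 := continuous_const.mul (hθ'.mul (hinvc.pow 2))
  have hw2d : ∀ s, HasDerivAt w2 (w3 s) s := by
    intro s
    have h1 := ((hθ s).sin.mul ((hθ s).cos.inv (hcos0 s).ne')).const_mul β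
    refine h1.congr_deriv ?_
    have h2 := (hcos0 s).ne'
    have h3 := Real.sin_sq_add_cos_sq (θ s)
    simp only [hw3, Pi.inv_apply]
    field_simp
    linear_combination (θ' s) * h3
  have hw1b : ∀ s, |w1 s| ≤ β * 2 := fun s => by
    rw [hw1, abs_mul, abs_of_pos hβ0]; exact mul_le_mul_of_nonneg_left (hinv s) hβ0.le
  have hw2b : ∀ s, |w2 s| ≤ β * 1 := fun s => by
    rw [hw2, abs_mul, abs_of_pos hβ0, abs_mul]
    refine mul_le_mul_of_nonneg_left ?_ hβ0.le
    have := mul_le_mul (hsin s) (hinv s) (abs_nonneg _) (by norm_num)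
    linarith
  have hw3b' : ∀ s, |w3 s| ≤ 2 * α * δ * χ s := by
    intro s
    by_cases hs : s ∈ Icc a0 b0
    · rw [hχin s hs, hw3, abs_mul, abs_of_pos hβ0, abs_mul, abs_pow]
      have h1 : |(Real.cos (θ s))⁻¹| ^ 2 ≤ 2 ^ 2 := pow_le_pow_left₀ (abs_nonneg _) (hinv s) 2
      have h2 := mul_le_mul (hδ2 s) h1 (by positivity) hδ
      have h3 := mul_le_mul hβ2 h2 (by positivity) (by positivity)
      linarith
    · have h1 : w3 s = 0 := by simp only [hw3]; rw [(hout s hs).2]; simp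
      rw [hχout s hs, h1]; simp
  have hw3b : ∀ s, |w3 s| ≤ 2 * α * δ := by
    intro s
    refine (hw3b' s).trans ?_
    have := (le_abs_self (χ s)).trans (hχ1 s)
    have h2 : 0 ≤ 2 * α * δ := by positivity
    nlinarith
  -- integrability
  have iaa := h.integrable_aa
  have ibb := h.integrable_bb
  have iab := h.integrable_ab
  have iff' := h.integrable_f
  have ipp := h.integrable_pp β
  have ifs := integrable_partial h.contDiff_f h.supp_f (1, 0)
  have ift := integrable_partial h.contDiff_f h.supp_f (0, 1)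
  have itr := h.integrable_trace
  have j1 := integrable_weight ifs hw2c.measurable hw2b
  have j2 := integrable_weight ift hw1c.measurable hw1b
  have j3 := integrable_weight iff' hw3c.measurable hw3b
  have j4 := integrable_weight' iff' hχm hχ1
  have j5 := integrable_weight' ipp hχm hχ1
  have j6 := integrable_weight ift hχm hχ1
  -- the pointwise bound
  have hpt : ∀ p : ℝ × ℝ, 1 / 2 * (‖magD1 A U p‖ ^ 2 + ‖covP β A U p‖ ^ 2) -
      α ^ 2 * δ * (χ p.1 * ‖U p‖ ^ 2) +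
      w2 p.1 * sg p.2 * fderiv ℝ (fun q => ‖U q‖ ^ 2) p (1, 0) -
      w1 p.1 * sg p.2 * fderiv ℝ (fun q => ‖U q‖ ^ 2) p (0, 1) ≤
      (‖magD1 A U p‖ ^ 2 - 2 * Real.sin (θ p.1) * (magD1 A U p * conj (magD2 A U p)).re +
        ‖magD2 A U p‖ ^ 2) / Real.cos (θ p.1) + α ^ 2 / 4 * Real.cos (θ p.1) * ‖U p‖ ^ 2 := by
    intro p
    have e1 := normSq_covP hd β A p
    have e2 := re_mul_covP hd β A p
    have e3 : ‖magD2 A U p‖ ^ 2 = ‖covP β A U p‖ ^ 2 - β ^ 2 * ‖U p‖ ^ 2 -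
      β * sg p.2 * fderiv ℝ (fun q => ‖U q‖ ^ 2) p (0, 1) := by linarith
    rw [e2, e3]
    set X := fderiv ℝ (fun q => ‖U q‖ ^ 2) p (1, 0)
    set Y := fderiv ℝ (fun q => ‖U q‖ ^ 2) p (0, 1)
    have hap : |(magD1 A U p * conj (covP β A U p)).re| ≤
        1 / 2 * (‖magD1 A U p‖ ^ 2 + ‖covP β A U p‖ ^ 2) := by
      refine (Complex.abs_re_le_norm _).trans ?_
      rw [norm_mul, RCLike.norm_conj]
      nlinarith [sq_nonneg (‖magD1 A U p‖ - ‖covP β A U p‖)]
    set ap := (magD1 A U p * conj (covP β A U p)).re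
    set aa := ‖magD1 A U p‖ ^ 2
    set pp := ‖covP β A U p‖ ^ 2
    have hf0 : 0 ≤ ‖U p‖ ^ 2 := by positivity
    set f := ‖U p‖ ^ 2
    have haa : 0 ≤ aa + pp := by positivity
    set k := Real.cos (θ p.1) with hk
    have hk0 : 0 < k := hcos0 p.1
    have hk1 : k ≤ 1 := Real.cos_le_one _
    have hk2 : 1 / 2 ≤ k := hcos p.1
    set m := Real.sin (θ p.1) with hm
    have hm1 : |m| ≤ 1 / 2 := hsin p.1
    have hE : (aa - 2 * m * (ap - β / 2 * sg p.2 * X) + (pp - β ^ 2 * f - β * sg p.2 * Y)) / k +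
        α ^ 2 / 4 * k * f = (aa - 2 * m * ap + pp) / k + (α ^ 2 / 4 * (k - c) * (k + c) * k⁻¹) * f +
        β * (m * k⁻¹) * sg p.2 * X - β * k⁻¹ * sg p.2 * Y := by
      rw [hβ]
      field_simp
      ring
    rw [hE]
    have q1 : 1 / 2 * (aa + pp) ≤ (aa - 2 * m * ap + pp) / k := by
      have : 2 * m * ap ≤ 1 / 2 * (aa + pp) := by
        have h1 : m * ap ≤ |m| * |ap| := by rw [← abs_mul]; exact le_abs_self _
        have h2 := mul_le_mul hm1 hap (abs_nonneg _) (by norm_num)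
        linarith
      rw [le_div_iff₀ hk0]
      nlinarith
    have q2 : -(α ^ 2 * δ * (χ p.1 * f)) ≤ (α ^ 2 / 4 * (k - c) * (k + c) * k⁻¹) * f := by
      by_cases hs : p.1 ∈ Icc a0 b0
      · rw [hχin _ hs]
        have h1 : |α ^ 2 / 4 * (k - c) * (k + c) * k⁻¹| ≤ α ^ 2 * δ := by
          rw [abs_mul, abs_mul, abs_mul]
          have g1 : |α ^ 2 / 4| = α ^ 2 / 4 := abs_of_nonneg (by positivity)
          have g2 : |k - c| ≤ δ := hδ1 p.1
          have g3 : |k + c| ≤ 2 := by rw [abs_of_nonneg (by linarith)]; linarith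
          have g4 : |k⁻¹| ≤ 2 := hinv p.1
          rw [g1]
          have h1 := mul_le_mul g2 g3 (abs_nonneg _) hδ
          have h2 := mul_le_mul h1 g4 (abs_nonneg _) (by positivity)
          have h3 := mul_le_mul_of_nonneg_left h2 (show 0 ≤ α ^ 2 / 4 by positivity)
          linarith
        have h2 := mul_le_mul_of_nonneg_right (neg_le_of_abs_le h1) hf0
        linarith
      · rw [hχout _ hs, hk, (hout _ hs).1]
        simp
    have q3 : w2 p.1 = β * (m * k⁻¹) := rfl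
    have q4 : w1 p.1 = β * k⁻¹ := rfl
    rw [q3, q4]
    linarith
  -- integrate the pointwise bound
  set N : ℝ := ∫ p, (‖magD1 A U p‖ ^ 2 + ‖covP β A U p‖ ^ 2) with hN
  set τ : ℝ := ∫ s in Icc a0 b0, ‖U (s, 0)‖ ^ 2 with hτ
  set M : ℝ := ∫ p : ℝ × ℝ, χ p.1 * ‖U p‖ ^ 2 with hM
  have hN0 : 0 ≤ N := integral_nonneg fun p => by positivity
  have hτ0 : 0 ≤ τ := integral_nonneg fun p => by positivity
  have hM0 : 0 ≤ M := integral_nonneg fun p => mul_nonneg (hχ0 _) (by positivity)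
  have iN : Integrable fun p => ‖magD1 A U p‖ ^ 2 + ‖covP β A U p‖ ^ 2 := iaa.add ipp
  have iF : Integrable fun p : ℝ × ℝ => (‖magD1 A U p‖ ^ 2 -
      2 * Real.sin (θ p.1) * (magD1 A U p * conj (magD2 A U p)).re +
        ‖magD2 A U p‖ ^ 2) / Real.cos (θ p.1) + α ^ 2 / 4 * Real.cos (θ p.1) * ‖U p‖ ^ 2 := by
    have g1 := integrable_weight' iaa hinvc.measurable hinv
    have g2 := integrable_weight' ibb hinvc.measurable hinv
    have g3 := integrable_weight' iab (w := fun s => Real.sin (θ s) * (Real.cos (θ s))⁻¹)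
      (hsinc.mul hinvc).measurable (C := 1 / 2 * 2) (fun s => by
      rw [abs_mul]
      exact mul_le_mul (hsin s) (hinv s) (abs_nonneg _) (by norm_num))
    have g4 := integrable_weight' iff' hcosc.measurable (C := 1) (fun s => Real.abs_cos_le_one _)
    refine (((g1.sub (g3.const_mul 2)).add g2).add (g4.const_mul (α ^ 2 / 4))).congr ?_
    refine Eventually.of_forall fun p => ?_
    simp only [Pi.add_apply, Pi.sub_apply]
    rw [div_eq_mul_inv]
    ring
  have hint : 1 / 2 * N - α ^ 2 * δ * M +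
      (∫ p : ℝ × ℝ, w2 p.1 * sg p.2 * fderiv ℝ (fun q => ‖U q‖ ^ 2) p (1, 0)) -
      (∫ p : ℝ × ℝ, w1 p.1 * sg p.2 * fderiv ℝ (fun q => ‖U q‖ ^ 2) p (0, 1)) ≤
      ∫ p : ℝ × ℝ, ((‖magD1 A U p‖ ^ 2 -
      2 * Real.sin (θ p.1) * (magD1 A U p * conj (magD2 A U p)).re +
        ‖magD2 A U p‖ ^ 2) / Real.cos (θ p.1) + α ^ 2 / 4 * Real.cos (θ p.1) * ‖U p‖ ^ 2) := by
    have := integral_mono (((iN.const_mul (1 / 2)).sub (j4.const_mul (α ^ 2 * δ))).add j1 |>.sub j2)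
      iF hpt
    refine le_trans (le_of_eq ?_) this
    simp only [Pi.add_apply, Pi.sub_apply]
    rw [integral_sub, integral_add, integral_sub, integral_const_mul, integral_const_mul]
    · exact iN.const_mul (1 / 2)
    · exact j4.const_mul (α ^ 2 * δ)
    · exact (iN.const_mul (1 / 2)).sub (j4.const_mul (α ^ 2 * δ))
    · exact j1
    · exact ((iN.const_mul (1 / 2)).sub (j4.const_mul (α ^ 2 * δ))).add j1
    · exact j2
  have hbs := integral_sg_fst h.contDiff_f h.supp_f hw2d hw3c hw2b hw3b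
  have hbt := integral_sg_snd h.contDiff_f h.supp_f hw1c.measurable hw1b
  have hbχ := integral_sg_snd h.contDiff_f h.supp_f hχm hχ1
  rw [hbs, hbt] at hint
  have hw3i : ∫ p : ℝ × ℝ, w3 p.1 * sg p.2 * ‖U p‖ ^ 2 ≤ 2 * α * δ * M := by
    rw [hM, ← integral_const_mul]
    refine integral_mono j3 (j4.const_mul _) fun p => ?_
    have h1 : w3 p.1 * sg p.2 ≤ 2 * α * δ * χ p.1 := by
      refine (le_abs_self _).trans ?_
      rw [abs_mul, abs_sg, mul_one]
      exact hw3b' _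
    have h2 := mul_le_mul_of_nonneg_right h1 (show 0 ≤ ‖U p‖ ^ 2 by positivity)
    simp only
    linarith
  have hχτ : ∫ s, χ s * ‖U (s, 0)‖ ^ 2 = τ := by
    rw [hτ, ← integral_indicator measurableSet_Icc]
    congr 1
    funext s
    by_cases hs : s ∈ Icc a0 b0
    · rw [hχin _ hs, Set.indicator_of_mem hs, one_mul]
    · rw [hχout _ hs, Set.indicator_of_notMem hs, zero_mul]
  have jtr : Integrable fun s => χ s * ‖U (s, 0)‖ ^ 2 := by
    refine itr.bdd_mul (c := 1) hχm.aestronglyMeasurable ?_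
    exact Eventually.of_forall fun s => by rw [Real.norm_eq_abs]; exact hχ1 s
  have jtr1 : Integrable fun s => w1 s * ‖U (s, 0)‖ ^ 2 := by
    refine itr.bdd_mul (c := β * 2) hw1c.measurable.aestronglyMeasurable ?_
    exact Eventually.of_forall fun s => by rw [Real.norm_eq_abs]; exact hw1b s
  have hbd : -(2 * α * δ * τ) ≤ 2 * (∫ s, w1 s * ‖U (s, 0)‖ ^ 2) - α * ∫ s, ‖U (s, 0)‖ ^ 2 := by
    have e0 : 2 * (∫ s, w1 s * ‖U (s, 0)‖ ^ 2) - α * ∫ s, ‖U (s, 0)‖ ^ 2 =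
        ∫ s, (2 * (w1 s * ‖U (s, 0)‖ ^ 2) - α * ‖U (s, 0)‖ ^ 2) := by
      rw [integral_sub (jtr1.const_mul _) (itr.const_mul _), integral_const_mul,
        integral_const_mul]
    rw [e0, ← hχτ, ← integral_const_mul, ← integral_neg]
    refine integral_mono (jtr.const_mul _).neg ((jtr1.const_mul _).sub (itr.const_mul _)) fun s => ?_
    simp only
    have hf0 : 0 ≤ ‖U (s, 0)‖ ^ 2 := by positivity
    set f := ‖U (s, 0)‖ ^ 2
    have h1 : -(2 * α * δ * χ s) ≤ 2 * w1 s - α := by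
      by_cases hs : s ∈ Icc a0 b0
      · rw [hχin _ hs]
        have e1 : 2 * w1 s - α = α * ((c - Real.cos (θ s)) * (Real.cos (θ s))⁻¹) := by
          have := (hcos0 s).ne'
          simp only [hw1, hβ]
          field_simp
        rw [e1]
        have h2 : |(c - Real.cos (θ s)) * (Real.cos (θ s))⁻¹| ≤ δ * 2 := by
          rw [abs_mul, abs_sub_comm]
          exact mul_le_mul (hδ1 s) (hinv s) (abs_nonneg _) hδ
        have h3 := mul_le_mul_of_nonneg_left (neg_le_of_abs_le h2) hα.le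
        linarith
      · rw [hχout _ hs]
        have e1 : 2 * w1 s - α = 0 := by
          have h4 := (hcos0 s).ne'
          simp only [hw1, hβ, (hout s hs).1]
          rw [(hout s hs).1] at h4
          field_simp
          ring
        rw [e1]; simp
    have h2 := mul_le_mul_of_nonneg_right h1 hf0
    linarith
  have hMle : M ≤ (β⁻¹) ^ 2 * N + 2 * β⁻¹ * τ := by
    have h1 : ∀ p : ℝ × ℝ, χ p.1 * ‖U p‖ ^ 2 ≤
        (β⁻¹) ^ 2 * (‖magD1 A U p‖ ^ 2 + ‖covP β A U p‖ ^ 2) -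
        β⁻¹ * (χ p.1 * sg p.2 * fderiv ℝ (fun q => ‖U q‖ ^ 2) p (0, 1)) := by
      intro p
      have h2 := mul_le_mul_of_nonneg_left (normSq_le_covP hd hβ0 A p) (hχ0 p.1)
      have h3 : χ p.1 * ((β⁻¹) ^ 2 * ‖covP β A U p‖ ^ 2) ≤
          (β⁻¹) ^ 2 * (‖magD1 A U p‖ ^ 2 + ‖covP β A U p‖ ^ 2) := by
        have g1 : 0 ≤ (β⁻¹) ^ 2 * ‖covP β A U p‖ ^ 2 := by positivity
        have g2 : χ p.1 ≤ 1 := (le_abs_self _).trans (hχ1 _)
        have g3 : 0 ≤ (β⁻¹) ^ 2 * ‖magD1 A U p‖ ^ 2 := by positivity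
        have g4 := mul_le_mul_of_nonneg_right g2 g1
        linarith
      linarith
    have h2 := integral_mono j4 ((iN.const_mul ((β⁻¹) ^ 2)).sub (j6.const_mul β⁻¹)) h1
    rw [integral_sub' (iN.const_mul ((β⁻¹) ^ 2)) (j6.const_mul β⁻¹), integral_const_mul,
      integral_const_mul, hbχ, hχτ] at h2
    linarith
  have hinvβ : β⁻¹ ≤ 4 / α := by
    rw [inv_le_comm₀ hβ0 (by positivity), inv_div]; exact hβ1
  have hinvβ0 : 0 < β⁻¹ := inv_pos.mpr hβ0
  have hM2 : M ≤ 16 / α ^ 2 * N + 8 / α * τ := by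
    have h1 : (β⁻¹) ^ 2 ≤ (4 / α) ^ 2 := pow_le_pow_left₀ hinvβ0.le hinvβ 2
    have h2 : (4 / α) ^ 2 = 16 / α ^ 2 := by rw [div_pow]; norm_num
    rw [h2] at h1
    have h3 := mul_le_mul_of_nonneg_right h1 hN0
    have h4 := mul_le_mul_of_nonneg_right hinvβ hτ0
    have h5 : 8 / α * τ = 2 * (4 / α * τ) := by ring
    rw [h5]
    linarith
  have hM3 := mul_le_mul_of_nonneg_left hM2 (show 0 ≤ (α ^ 2 + 2 * α) * δ by positivity)
  have hM4 : (α ^ 2 + 2 * α) * δ * (16 / α ^ 2 * N + 8 / α * τ) =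
      16 * (1 + 2 / α) * δ * N + (8 * α + 16) * δ * τ := by
    field_simp
    ring
  rw [hM4] at hM3
  linarith

end Pool.Agent.H99.Leaky
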