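import Pool.Agent.H99.Leaky.Transport

set_option autoImplicit false

/-!
# A magnetic trace inequality

If the holonomy of a family of rectangular loops is bounded away from `1`, then the trace of a
function on a segment is controlled by its covariant derivatives.
-/

open MeasureTheory Filter Topology Set intervalIntegral

namespace Pool.Agent.H99.Leaky

/-- Circulation of the potential `(As, At)` along the boundary of `[s₁,s₂] × [t₁,t₂]`. -/
noncomputable def circ (As At : ℝ → ℝ → ℝ) (s₁ s₂ t₁ t₂ : ℝ) : ℝ :=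
  ((∫ σ in s₁..s₂, As σ t₁) + ∫ τ in t₁..t₂, At s₂ τ) -
    ((∫ σ in s₁..s₂, As σ t₂) + ∫ τ in t₁..t₂, At s₁ τ)

/-- Going around a rectangle. -/
lemma holonomy_rect {s₁ s₂ t₁ t₂ : ℝ} (hs : s₁ ≤ s₂) (ht : t₁ ≤ t₂) {V Vs Vt : ℝ → ℝ → ℂ}
    {As At : ℝ → ℝ → ℝ}
    (hVs : ∀ s t, HasDerivAt (fun x => V x t) (Vs s t) s)
    (hVt : ∀ s t, HasDerivAt (fun x => V s x) (Vt s t) t)
    (hcs : Continuous (fun p : ℝ × ℝ => Vs p.1 p.2))
    (hct : Continuous (fun p : ℝ × ℝ => Vt p.1 p.2))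
    (h1 : ContinuousOn (fun σ => As σ t₁) (Icc s₁ s₂))
    (h2 : ContinuousOn (fun τ => At s₂ τ) (Icc t₁ t₂))
    (h3 : ContinuousOn (fun σ => As σ t₂) (Icc s₁ s₂))
    (h4 : ContinuousOn (fun τ => At s₁ τ) (Icc t₁ t₂)) :
    ‖1 - Complex.exp (Complex.I * (circ As At s₁ s₂ t₁ t₂ : ℝ))‖ * ‖V s₁ t₁‖ ≤
      (∫ σ in s₁..s₂, ‖Vs σ t₁ - Complex.I * As σ t₁ * V σ t₁‖) +
      (∫ τ in t₁..t₂, ‖Vt s₂ τ - Complex.I * At s₂ τ * V s₂ τ‖) +
      (∫ σ in s₁..s₂, ‖Vs σ t₂ - Complex.I * As σ t₂ * V σ t₂‖) +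
      (∫ τ in t₁..t₂, ‖Vt s₁ τ - Complex.I * At s₁ τ * V s₁ τ‖) := by
  have cs : ∀ t, Continuous (fun σ => Vs σ t) := fun t =>
    hcs.comp (Continuous.prodMk continuous_id continuous_const)
  have ct : ∀ s, Continuous (fun τ => Vt s τ) := fun s =>
    hct.comp (Continuous.prodMk continuous_const continuous_id)
  have a1 := transport_le hs (fun τ _ => hVs τ t₁) (cs t₁).continuousOn h1
  have a2 := transport_le ht (fun τ _ => hVt s₂ τ) (ct s₂).continuousOn h2
  have a3 := transport_le hs (fun τ _ => hVs τ t₂) (cs t₂).continuousOn h3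
  have a4 := transport_le ht (fun τ _ => hVt s₁ τ) (ct s₁).continuousOn h4
  set x1 : ℝ := ∫ σ in s₁..s₂, As σ t₁ with hx1
  set x2 : ℝ := ∫ τ in t₁..t₂, At s₂ τ with hx2
  set x3 : ℝ := ∫ σ in s₁..s₂, As σ t₂ with hx3
  set x4 : ℝ := ∫ τ in t₁..t₂, At s₁ τ with hx4
  have hn : ∀ x : ℝ, ‖Complex.exp (Complex.I * (x : ℝ))‖ = 1 := by
    intro x; rw [mul_comm, Complex.norm_exp_ofReal_mul_I]
  set e1 := Complex.exp (Complex.I * (x1 : ℝ)) with he1
  set e2 := Complex.exp (Complex.I * (x2 : ℝ)) with he2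
  set e3 := Complex.exp (Complex.I * (x3 : ℝ)) with he3
  set e4 := Complex.exp (Complex.I * (x4 : ℝ)) with he4
  have hcirc : Complex.exp (Complex.I * (circ As At s₁ s₂ t₁ t₂ : ℝ)) * (e3 * e4) = e1 * e2 := by
    rw [he1, he2, he3, he4, ← Complex.exp_add, ← Complex.exp_add, ← Complex.exp_add, circ,
      ← hx1, ← hx2, ← hx3, ← hx4]
    congr 1
    push_cast
    ring
  have hn3 : ‖e3 * e4‖ = 1 := by rw [norm_mul, hn, hn, one_mul]
  have key : ‖1 - Complex.exp (Complex.I * (circ As At s₁ s₂ t₁ t₂ : ℝ))‖ * ‖V s₁ t₁‖ =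
      ‖e3 * e4 * V s₁ t₁ - e1 * e2 * V s₁ t₁‖ := by
    rw [← hcirc]
    have : e3 * e4 * V s₁ t₁ - Complex.exp (Complex.I * (circ As At s₁ s₂ t₁ t₂ : ℝ)) *
        (e3 * e4) * V s₁ t₁ =
        (e3 * e4) * ((1 - Complex.exp (Complex.I * (circ As At s₁ s₂ t₁ t₂ : ℝ))) * V s₁ t₁) := by
      ring
    rw [this, norm_mul (e3 * e4), hn3, one_mul, norm_mul]
  rw [key]
  have hd : e3 * e4 * V s₁ t₁ - e1 * e2 * V s₁ t₁ =
      (V s₂ t₂ - e2 * V s₂ t₁) + e2 * (V s₂ t₁ - e1 * V s₁ t₁) -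
      (V s₂ t₂ - e3 * V s₁ t₂) - e3 * (V s₁ t₂ - e4 * V s₁ t₁) := by ring
  rw [hd]
  have b2 : ‖e2 * (V s₂ t₁ - e1 * V s₁ t₁)‖ = ‖V s₂ t₁ - e1 * V s₁ t₁‖ := by
    rw [norm_mul, hn, one_mul]
  have b3 : ‖e3 * (V s₁ t₂ - e4 * V s₁ t₁)‖ = ‖V s₁ t₂ - e4 * V s₁ t₁‖ := by
    rw [norm_mul, hn, one_mul]
  have c1 := norm_sub_le ((V s₂ t₂ - e2 * V s₂ t₁) + e2 * (V s₂ t₁ - e1 * V s₁ t₁) -
      (V s₂ t₂ - e3 * V s₁ t₂)) (e3 * (V s₁ t₂ - e4 * V s₁ t₁))
  have c2 := norm_sub_le ((V s₂ t₂ - e2 * V s₂ t₁) + e2 * (V s₂ t₁ - e1 * V s₁ t₁))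
      (V s₂ t₂ - e3 * V s₁ t₂)
  have c3 := norm_add_le (V s₂ t₂ - e2 * V s₂ t₁) (e2 * (V s₂ t₁ - e1 * V s₁ t₁))
  linarith

/-- The squared length of the covariant derivative. -/
noncomputable def covSq (V Vs Vt : ℝ → ℝ → ℂ) (As At : ℝ → ℝ → ℝ) (s t : ℝ) : ℝ :=
  ‖Vs s t - Complex.I * As s t * V s t‖ ^ 2 + ‖Vt s t - Complex.I * At s t * V s t‖ ^ 2

/-- The magnetic trace inequality. -/
theorem trace_ineq {a b a' b' s₁ s₂ t₁ t₂ r₀ T c : ℝ} (hab : a ≤ b) (haa : a' ≤ a) (hbb : b ≤ b')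
    (h1 : a' ≤ s₁ - r₀) (h2 : s₁ ≤ s₂) (h3 : s₂ + r₀ ≤ b') (h4 : 0 ≤ t₁ - r₀) (h5 : t₁ ≤ t₂)
    (h6 : t₂ + r₀ ≤ T) (hr : 0 < r₀) (hc : 0 < c) :
    ∃ C : ℝ, 0 ≤ C ∧ ∀ (V Vs Vt : ℝ → ℝ → ℂ) (As At : ℝ → ℝ → ℝ),
      (∀ s t, HasDerivAt (fun x => V x t) (Vs s t) s) →
      (∀ s t, HasDerivAt (fun x => V s x) (Vt s t) t) →
      Continuous (fun p : ℝ × ℝ => V p.1 p.2) →
      Continuous (fun p : ℝ × ℝ => Vs p.1 p.2) →
      Continuous (fun p : ℝ × ℝ => Vt p.1 p.2) →
      Continuous (fun p : ℝ × ℝ => (As p.1 p.2 : ℂ) * V p.1 p.2) →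
      Continuous (fun p : ℝ × ℝ => (At p.1 p.2 : ℂ) * V p.1 p.2) →
      (∀ s t, ¬ (s₁ < s ∧ s < s₂ ∧ t₁ < t ∧ t < t₂) → ContinuousAt (fun x => As x t) s) →
      (∀ s t, ¬ (s₁ < s ∧ s < s₂ ∧ t₁ < t ∧ t < t₂) → ContinuousAt (fun x => At s x) t) →
      (∀ r ∈ Icc (0 : ℝ) r₀,
        c ≤ ‖1 - Complex.exp (Complex.I * (circ As At (s₁ - r) (s₂ + r) (t₁ - r) (t₂ + r) : ℝ))‖) →
      ∫ s in a..b, ‖V s 0‖ ^ 2 ≤ C * ∫ s in a'..b', ∫ t in (0 : ℝ)..T, covSq V Vs Vt As At s t := by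
  have hT : 0 ≤ T := by linarith
  have hab' : a' ≤ b' := by linarith
  set K : ℝ := 6 * ((1 + 2 * (c⁻¹) ^ 2) * (b' - a') + 2 * (c⁻¹) ^ 2 * T) with hK
  have hK0 : 0 ≤ K := by
    have : 0 ≤ b' - a' := by linarith
    positivity
  refine ⟨6 * T + (b - a) * K / r₀, by have : 0 ≤ b - a := by linarith
                                       positivity, ?_⟩
  intro V Vs Vt As At hVs hVt hV hcs hct hAV hBV hAc hBc hhol
  -- the covariant derivatives
  set Ds : ℝ → ℝ → ℝ := fun s t => ‖Vs s t - Complex.I * As s t * V s t‖ with hDs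
  set Dt : ℝ → ℝ → ℝ := fun s t => ‖Vt s t - Complex.I * At s t * V s t‖ with hDt
  have hDsc : Continuous (fun p : ℝ × ℝ => Ds p.1 p.2) := by
    have : Continuous (fun p : ℝ × ℝ => Vs p.1 p.2 - Complex.I * ((As p.1 p.2 : ℂ) * V p.1 p.2)) :=
      hcs.sub (continuous_const.mul hAV)
    refine this.norm.congr fun p => ?_
    simp only [hDs, mul_assoc]
  have hDtc : Continuous (fun p : ℝ × ℝ => Dt p.1 p.2) := by
    have : Continuous (fun p : ℝ × ℝ => Vt p.1 p.2 - Complex.I * ((At p.1 p.2 : ℂ) * V p.1 p.2)) :=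
      hct.sub (continuous_const.mul hBV)
    refine this.norm.congr fun p => ?_
    simp only [hDt, mul_assoc]
  set G : ℝ → ℝ → ℝ := fun s t => Ds s t ^ 2 + Dt s t ^ 2 with hG
  have hGc : Continuous (fun p : ℝ × ℝ => G p.1 p.2) := (hDsc.pow 2).add (hDtc.pow 2)
  have hGn : ∀ s t, 0 ≤ G s t := fun s t => by positivity
  have hDsn : ∀ s t, 0 ≤ Ds s t := fun s t => norm_nonneg _
  have hDtn : ∀ s t, 0 ≤ Dt s t := fun s t => norm_nonneg _
  have cG1 : ∀ t, Continuous (fun s => G s t) := fun t =>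
    hGc.comp (Continuous.prodMk continuous_id continuous_const)
  have cG2 : ∀ s, Continuous (fun t => G s t) := fun s =>
    hGc.comp (Continuous.prodMk continuous_const continuous_id)
  have cDs1 : ∀ t, Continuous (fun s => Ds s t) := fun t =>
    hDsc.comp (Continuous.prodMk continuous_id continuous_const)
  have cDt2 : ∀ s, Continuous (fun t => Dt s t) := fun s =>
    hDtc.comp (Continuous.prodMk continuous_const continuous_id)
  have cVs1 : ∀ t, Continuous (fun s => Vs s t) := fun t =>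
    hcs.comp (Continuous.prodMk continuous_id continuous_const)
  have cVt2 : ∀ s, Continuous (fun t => Vt s t) := fun s =>
    hct.comp (Continuous.prodMk continuous_const continuous_id)
  set g : ℝ → ℝ := fun s => ∫ t in (0 : ℝ)..T, G s t with hg
  set h : ℝ → ℝ := fun t => ∫ s in a'..b', G s t with hh
  have hgc : Continuous g :=
    intervalIntegral.continuous_parametric_intervalIntegral_of_continuous' (f := fun s t => G s t)
      hGc 0 T
  have hhc : Continuous h := by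
    refine intervalIntegral.continuous_parametric_intervalIntegral_of_continuous'
      (f := fun t s => G s t) ?_ a' b'
    exact hGc.comp continuous_swap
  have hgn : ∀ s, 0 ≤ g s := fun s => intervalIntegral.integral_nonneg hT fun t _ => hGn s t
  have hhn : ∀ t, 0 ≤ h t := fun t => intervalIntegral.integral_nonneg hab' fun s _ => hGn s t
  set E : ℝ := ∫ s in a'..b', g s with hE
  have hEh : E = ∫ t in (0 : ℝ)..T, h t := by
    rw [hE, hg, hh]
    apply intervalIntegral_intervalIntegral_swap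
    have hK : IsCompact (Icc a' b' ×ˢ Icc (0 : ℝ) T) := isCompact_Icc.prod isCompact_Icc
    have := (hGc.continuousOn (s := Icc a' b' ×ˢ Icc (0 : ℝ) T)).integrableOn_compact hK
      (μ := volume)
    refine IntegrableOn.mono_set this ?_
    rw [uIoc_of_le hab', uIoc_of_le hT]
    exact prod_mono Ioc_subset_Icc_self Ioc_subset_Icc_self
  have hE0 : 0 ≤ E := intervalIntegral.integral_nonneg hab' fun s _ => hgn s
  have hDsG : ∀ s t, Ds s t ^ 2 ≤ G s t := fun s t => by
    have := sq_nonneg (Dt s t); simp only [hG]; linarith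
  have hDtG : ∀ s t, Dt s t ^ 2 ≤ G s t := fun s t => by
    have := sq_nonneg (Ds s t); simp only [hG]; linarith
  -- horizontal and vertical line integrals
  have lineS : ∀ t, (∫ σ in a'..b', Ds σ t) ^ 2 ≤ (b' - a') * h t := by
    intro t
    refine (sq_integral_le hab' (cDs1 t).continuousOn).trans ?_
    refine mul_le_mul_of_nonneg_left ?_ (by linarith)
    exact intervalIntegral.integral_mono_on hab' (((cDs1 t).pow 2).intervalIntegrable _ _)
      ((cG1 t).intervalIntegrable _ _) fun s _ => hDsG s t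
  have lineT : ∀ s, (∫ τ in (0 : ℝ)..T, Dt s τ) ^ 2 ≤ T * g s := by
    intro s
    refine (sq_integral_le hT (cDt2 s).continuousOn).trans ?_
    rw [sub_zero]
    refine mul_le_mul_of_nonneg_left ?_ hT
    exact intervalIntegral.integral_mono_on hT (((cDt2 s).pow 2).intervalIntegrable _ _)
      ((cG2 s).intervalIntegrable _ _) fun t _ => hDtG s t
  have subS : ∀ t x y, a' ≤ x → x ≤ y → y ≤ b' →
      ∫ σ in x..y, Ds σ t ≤ ∫ σ in a'..b', Ds σ t := by
    intro t x y hx hxy hy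
    exact intervalIntegral.integral_mono_interval hx hxy hy
      (Eventually.of_forall fun s => hDsn s t) ((cDs1 t).intervalIntegrable _ _)
  have subT : ∀ s x y, 0 ≤ x → x ≤ y → y ≤ T →
      ∫ τ in x..y, Dt s τ ≤ ∫ τ in (0 : ℝ)..T, Dt s τ := by
    intro s x y hx hxy hy
    exact intervalIntegral.integral_mono_interval hx hxy hy
      (Eventually.of_forall fun t => hDtn s t) ((cDt2 s).intervalIntegrable _ _)
  -- the pointwise estimate
  have pw : ∀ s ∈ Icc a b, ∀ r ∈ Icc (0 : ℝ) r₀,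
      ‖V s 0‖ ^ 2 ≤ 6 * (T * g s + (1 + (c⁻¹) ^ 2) * (b' - a') * h (t₁ - r) +
        (c⁻¹) ^ 2 * (T * g (s₂ + r)) + (c⁻¹) ^ 2 * ((b' - a') * h (t₂ + r)) +
        (c⁻¹) ^ 2 * (T * g (s₁ - r))) := by
    intro s hs r hr'
    obtain ⟨hs1, hs2⟩ := hs
    obtain ⟨hr1, hr2⟩ := hr'
    set X1 : ℝ := ∫ τ in (0 : ℝ)..T, Dt s τ with hX1
    set X2 : ℝ := ∫ σ in a'..b', Ds σ (t₁ - r) with hX2
    set X3 : ℝ := ∫ τ in (0 : ℝ)..T, Dt (s₂ + r) τ with hX3
    set X4 : ℝ := ∫ σ in a'..b', Ds σ (t₂ + r) with hX4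
    set X5 : ℝ := ∫ τ in (0 : ℝ)..T, Dt (s₁ - r) τ with hX5
    have step1 : ‖V s 0‖ ≤ ‖V s (t₁ - r)‖ + X1 := by
      have := (norm_le_add_transport (a := 0) (b := t₁ - r) (by linarith)
        (fun τ _ => hVt s τ) (cVt2 s).continuousOn
        (fun τ hτ => (hBc s τ (by rintro ⟨-, -, h7, -⟩; linarith [hτ.2])).continuousWithinAt)).1
      refine this.trans ?_
      have h8 := subT s 0 (t₁ - r) le_rfl (by linarith) (by linarith)
      simp only [hDt] at h8
      linarith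
    have step2 : ‖V s (t₁ - r)‖ ≤ ‖V (s₁ - r) (t₁ - r)‖ + X2 := by
      rcases le_total s (s₁ - r) with hle | hle
      · have := (norm_le_add_transport (a := s) (b := s₁ - r) hle
          (fun τ _ => hVs τ (t₁ - r)) (cVs1 (t₁ - r)).continuousOn
          (fun τ hτ => (hAc τ (t₁ - r)
            (by rintro ⟨-, -, h7, -⟩; linarith)).continuousWithinAt)).1
        refine this.trans ?_
        have h8 := subS (t₁ - r) s (s₁ - r) (by linarith) hle (by linarith)
        simp only [hDs] at h8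
        linarith
      · have := (norm_le_add_transport (a := s₁ - r) (b := s) hle
          (fun τ _ => hVs τ (t₁ - r)) (cVs1 (t₁ - r)).continuousOn
          (fun τ hτ => (hAc τ (t₁ - r)
            (by rintro ⟨-, -, h7, -⟩; linarith)).continuousWithinAt)).2
        refine this.trans ?_
        have h8 := subS (t₁ - r) (s₁ - r) s (by linarith) hle (by linarith)
        simp only [hDs] at h8
        linarith
    have step3 : c * ‖V (s₁ - r) (t₁ - r)‖ ≤ X2 + X3 + X4 + X5 := by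
      have hol := holonomy_rect (s₁ := s₁ - r) (s₂ := s₂ + r) (t₁ := t₁ - r) (t₂ := t₂ + r)
        (by linarith) (by linarith) hVs hVt hcs hct
        (fun τ hτ => (hAc τ (t₁ - r)
            (by rintro ⟨-, -, h7, -⟩; linarith)).continuousWithinAt)
        (fun τ hτ => (hBc (s₂ + r) τ
            (by rintro ⟨-, h7, -, -⟩; linarith)).continuousWithinAt)
        (fun τ hτ => (hAc τ (t₂ + r)
            (by rintro ⟨-, -, -, h7⟩; linarith)).continuousWithinAt)
        (fun τ hτ => (hBc (s₁ - r) τ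
            (by rintro ⟨h7, -, -, -⟩; linarith)).continuousWithinAt)
      have e1 := subS (t₁ - r) (s₁ - r) (s₂ + r) (by linarith) (by linarith) (by linarith)
      have e2 := subT (s₂ + r) (t₁ - r) (t₂ + r) (by linarith) (by linarith) (by linarith)
      have e3 := subS (t₂ + r) (s₁ - r) (s₂ + r) (by linarith) (by linarith) (by linarith)
      have e4 := subT (s₁ - r) (t₁ - r) (t₂ + r) (by linarith) (by linarith) (by linarith)
      have e5 := mul_le_mul_of_nonneg_right (hhol r ⟨hr1, hr2⟩)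
        (norm_nonneg (V (s₁ - r) (t₁ - r)))
      simp only [hDs, hDt] at e1 e2 e3 e4
      linarith
    have step4 : ‖V (s₁ - r) (t₁ - r)‖ ≤ c⁻¹ * (X2 + X3 + X4 + X5) := by
      rw [le_inv_mul_iff₀ hc]; exact step3
    have step5 : ‖V s 0‖ ≤ X1 + X2 + c⁻¹ * X2 + c⁻¹ * X3 + c⁻¹ * X4 + c⁻¹ * X5 := by
      linarith
    have hc' : 0 < c⁻¹ := inv_pos.mpr hc
    have q1 := lineT s
    have q2 := lineS (t₁ - r)
    have q3 := lineT (s₂ + r)
    have q4 := lineS (t₂ + r)
    have q5 := lineT (s₁ - r)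
    rw [← hX1] at q1
    rw [← hX2] at q2
    rw [← hX3] at q3
    rw [← hX4] at q4
    rw [← hX5] at q5
    have hsq : ‖V s 0‖ ^ 2 ≤ (X1 + X2 + c⁻¹ * X2 + c⁻¹ * X3 + c⁻¹ * X4 + c⁻¹ * X5) ^ 2 := by
      have := norm_nonneg (V s 0)
      exact pow_le_pow_left₀ this step5 2
    have six : (X1 + X2 + c⁻¹ * X2 + c⁻¹ * X3 + c⁻¹ * X4 + c⁻¹ * X5) ^ 2 ≤
        6 * (X1 ^ 2 + X2 ^ 2 + (c⁻¹) ^ 2 * X2 ^ 2 + (c⁻¹) ^ 2 * X3 ^ 2 + (c⁻¹) ^ 2 * X4 ^ 2 +
          (c⁻¹) ^ 2 * X5 ^ 2) := by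
      have : ∀ x1 x2 x3 x4 x5 x6 : ℝ, (x1 + x2 + x3 + x4 + x5 + x6) ^ 2 ≤
          6 * (x1 ^ 2 + x2 ^ 2 + x3 ^ 2 + x4 ^ 2 + x5 ^ 2 + x6 ^ 2) := by
        intro x1 x2 x3 x4 x5 x6
        nlinarith [sq_nonneg (x1 - x2), sq_nonneg (x1 - x3), sq_nonneg (x1 - x4),
          sq_nonneg (x1 - x5), sq_nonneg (x1 - x6), sq_nonneg (x2 - x3), sq_nonneg (x2 - x4),
          sq_nonneg (x2 - x5), sq_nonneg (x2 - x6), sq_nonneg (x3 - x4), sq_nonneg (x3 - x5),
          sq_nonneg (x3 - x6), sq_nonneg (x4 - x5), sq_nonneg (x4 - x6), sq_nonneg (x5 - x6)]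
      have h9 := this X1 X2 (c⁻¹ * X2) (c⁻¹ * X3) (c⁻¹ * X4) (c⁻¹ * X5)
      simpa only [mul_pow] using h9
    have cc : 0 ≤ (c⁻¹) ^ 2 := by positivity
    have m2 := mul_le_mul_of_nonneg_left q2 cc
    have m3 := mul_le_mul_of_nonneg_left q3 cc
    have m4 := mul_le_mul_of_nonneg_left q4 cc
    have m5 := mul_le_mul_of_nonneg_left q5 cc
    nlinarith
  -- integrate over r
  have avg : ∀ s ∈ Icc a b, r₀ * ‖V s 0‖ ^ 2 ≤ 6 * T * r₀ * g s + K * E := by
    intro s hs
    have i1 : ∫ r in (0 : ℝ)..r₀, h (t₁ - r) ≤ E := by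
      rw [intervalIntegral.integral_comp_sub_left (fun x => h x) t₁, hEh, sub_zero]
      exact intervalIntegral.integral_mono_interval h4 (by linarith) (by linarith)
        (Eventually.of_forall hhn) (hhc.intervalIntegrable _ _)
    have i2 : ∫ r in (0 : ℝ)..r₀, h (t₂ + r) ≤ E := by
      rw [intervalIntegral.integral_comp_add_left (fun x => h x) t₂, hEh, add_zero]
      exact intervalIntegral.integral_mono_interval (by linarith) (by linarith) (by linarith)
        (Eventually.of_forall hhn) (hhc.intervalIntegrable _ _)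
    have i3 : ∫ r in (0 : ℝ)..r₀, g (s₂ + r) ≤ E := by
      rw [intervalIntegral.integral_comp_add_left (fun x => g x) s₂, hE, add_zero]
      exact intervalIntegral.integral_mono_interval (by linarith) (by linarith) (by linarith)
        (Eventually.of_forall hgn) (hgc.intervalIntegrable _ _)
    have i4 : ∫ r in (0 : ℝ)..r₀, g (s₁ - r) ≤ E := by
      rw [intervalIntegral.integral_comp_sub_left (fun x => g x) s₁, hE, sub_zero]
      exact intervalIntegral.integral_mono_interval (by linarith) (by linarith) (by linarith)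
        (Eventually.of_forall hgn) (hgc.intervalIntegrable _ _)
    have c1 : Continuous fun r => h (t₁ - r) := hhc.comp (continuous_const.sub continuous_id)
    have c2 : Continuous fun r => h (t₂ + r) := hhc.comp (continuous_const.add continuous_id)
    have c3 : Continuous fun r => g (s₂ + r) := hgc.comp (continuous_const.add continuous_id)
    have c4 : Continuous fun r => g (s₁ - r) := hgc.comp (continuous_const.sub continuous_id)
    have mono := intervalIntegral.integral_mono_on (μ := volume) (a := 0) (b := r₀) hr.le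
      (f := fun _ => ‖V s 0‖ ^ 2)
      (g := fun r => 6 * (T * g s + (1 + (c⁻¹) ^ 2) * (b' - a') * h (t₁ - r) +
        (c⁻¹) ^ 2 * (T * g (s₂ + r)) + (c⁻¹) ^ 2 * ((b' - a') * h (t₂ + r)) +
        (c⁻¹) ^ 2 * (T * g (s₁ - r))))
      (by simp) (by
        apply Continuous.intervalIntegrable
        fun_prop) (fun r hr' => pw s hs r hr')
    rw [intervalIntegral.integral_const, sub_zero, smul_eq_mul] at mono
    have comp : (∫ r in (0 : ℝ)..r₀, 6 * (T * g s + (1 + (c⁻¹) ^ 2) * (b' - a') * h (t₁ - r) +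
        (c⁻¹) ^ 2 * (T * g (s₂ + r)) + (c⁻¹) ^ 2 * ((b' - a') * h (t₂ + r)) +
        (c⁻¹) ^ 2 * (T * g (s₁ - r)))) =
        6 * (r₀ * (T * g s) + (1 + (c⁻¹) ^ 2) * (b' - a') * (∫ r in (0 : ℝ)..r₀, h (t₁ - r)) +
        (c⁻¹) ^ 2 * T * (∫ r in (0 : ℝ)..r₀, g (s₂ + r)) +
        (c⁻¹) ^ 2 * (b' - a') * (∫ r in (0 : ℝ)..r₀, h (t₂ + r)) +
        (c⁻¹) ^ 2 * T * (∫ r in (0 : ℝ)..r₀, g (s₁ - r))) := by
      rw [intervalIntegral.integral_const_mul]
      congr 1
      rw [intervalIntegral.integral_add, intervalIntegral.integral_add,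
        intervalIntegral.integral_add, intervalIntegral.integral_add,
        intervalIntegral.integral_const, intervalIntegral.integral_const_mul,
        intervalIntegral.integral_const_mul, intervalIntegral.integral_const_mul,
        intervalIntegral.integral_const_mul, intervalIntegral.integral_const_mul,
        intervalIntegral.integral_const_mul, intervalIntegral.integral_const_mul]
      · rw [sub_zero, smul_eq_mul]; ring
      all_goals
        apply Continuous.intervalIntegrable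
        fun_prop
    rw [comp] at mono
    have hba : 0 ≤ b' - a' := by linarith
    have cc : 0 ≤ (c⁻¹) ^ 2 := by positivity
    have m1 := mul_le_mul_of_nonneg_left i1 (show 0 ≤ (1 + (c⁻¹) ^ 2) * (b' - a') by positivity)
    have m2 := mul_le_mul_of_nonneg_left i2 (show 0 ≤ (c⁻¹) ^ 2 * (b' - a') by positivity)
    have m3 := mul_le_mul_of_nonneg_left i3 (show 0 ≤ (c⁻¹) ^ 2 * T by positivity)
    have m4 := mul_le_mul_of_nonneg_left i4 (show 0 ≤ (c⁻¹) ^ 2 * T by positivity)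
    rw [hK]
    nlinarith
  -- integrate over s
  have hVc0 : Continuous fun s => V s 0 :=
    hV.comp (Continuous.prodMk continuous_id continuous_const)
  have fin := intervalIntegral.integral_mono_on (μ := volume) (a := a) (b := b) hab
    (f := fun s => r₀ * ‖V s 0‖ ^ 2) (g := fun s => 6 * T * r₀ * g s + K * E)
    (by apply Continuous.intervalIntegrable; fun_prop)
    (by apply Continuous.intervalIntegrable; fun_prop) avg
  rw [intervalIntegral.integral_const_mul, intervalIntegral.integral_add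
    (by apply Continuous.intervalIntegrable; fun_prop) (by simp),
    intervalIntegral.integral_const_mul, intervalIntegral.integral_const, smul_eq_mul] at fin
  have ig : ∫ s in a..b, g s ≤ E :=
    intervalIntegral.integral_mono_interval haa hab hbb (Eventually.of_forall hgn)
      (hgc.intervalIntegrable _ _)
  have m5 := mul_le_mul_of_nonneg_left ig (show 0 ≤ 6 * T * r₀ by positivity)
  have goal1 : r₀ * ∫ s in a..b, ‖V s 0‖ ^ 2 ≤ r₀ * ((6 * T + (b - a) * K / r₀) * E) := by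
    have : r₀ * ((6 * T + (b - a) * K / r₀) * E) = 6 * T * r₀ * E + (b - a) * (K * E) := by
      field_simp
    rw [this]
    linarith
  have goal2 := le_of_mul_le_mul_left goal1 hr
  refine goal2.trans (le_of_eq ?_)
  rfl

end Pool.Agent.H99.Leaky
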