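import Pool.Agent.H99.Leaky.ShearMap
import Pool.Agent.H99.Leaky.TraceIneq

set_option autoImplicit false

/-!
# The quadratic form in shear coordinates
-/

open MeasureTheory Filter Topology Set
open scoped ContDiff ComplexConjugate

namespace Pool.Agent.H99.Leaky

/-- The vector potential in shear coordinates. -/
noncomputable def pull (γ : ℝ → ℝ) (ε : ℝ) (A : ℝ × ℝ → ℝ × ℝ) (p : ℝ × ℝ) : ℝ × ℝ :=
  (Real.cos (turning γ ε p.1) * (A (shear γ ε p)).1 + Real.sin (turning γ ε p.1) *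
      (A (shear γ ε p)).2,
    -Real.sin (halfTurn γ ε) * (A (shear γ ε p)).1 + Real.cos (halfTurn γ ε) *
      (A (shear γ ε p)).2)

lemma frame_identity (x y : ℂ) (θ κ : ℝ) :
    ‖(Real.cos θ : ℂ) * x + (Real.sin θ : ℂ) * y‖ ^ 2 - 2 * Real.sin (θ - κ) *
      (((Real.cos θ : ℂ) * x + (Real.sin θ : ℂ) * y) *
        conj (-(Real.sin κ : ℂ) * x + (Real.cos κ : ℂ) * y)).re +
      ‖-(Real.sin κ : ℂ) * x + (Real.cos κ : ℂ) * y‖ ^ 2 =
      Real.cos (θ - κ) ^ 2 * (‖x‖ ^ 2 + ‖y‖ ^ 2) := by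
  simp only [Complex.sq_norm, Complex.normSq_apply, Real.sin_sub, Real.cos_sub]
  have h1 := Real.sin_sq_add_cos_sq θ
  have h2 := Real.sin_sq_add_cos_sq κ
  simp only [Complex.add_re, Complex.add_im, Complex.mul_re, Complex.mul_im, Complex.ofReal_re,
    Complex.ofReal_im, Complex.conj_re, Complex.conj_im, Complex.neg_re, Complex.neg_im]
  set a := Real.cos θ
  set b := Real.sin θ
  set c := Real.cos κ
  set d := Real.sin κ
  linear_combination
    (-(d ^ 2) * (x.re ^ 2 + x.im ^ 2) - c ^ 2 * (y.re ^ 2 + y.im ^ 2) +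
      2 * c * d * (x.re * y.re + x.im * y.im)) * h1 -
    (a ^ 2 * (x.re ^ 2 + x.im ^ 2) + b ^ 2 * (y.re ^ 2 + y.im ^ 2) +
      2 * a * b * (x.re * y.re + x.im * y.im)) * h2

namespace Curv

variable {γ : ℝ → ℝ} {a0 b0 M G : ℝ} (h : Curv γ a0 b0 M G)

include h

lemma fderiv_comp_shear {u : ℝ × ℝ → ℂ} (hu : Differentiable ℝ u) (ε : ℝ) (p v : ℝ × ℝ) :
    fderiv ℝ (fun q => u (shear γ ε q)) p v = fderiv ℝ u (shear γ ε p) (dshear γ ε p v) := by
  have h1 := (hu (shear γ ε p)).hasFDerivAt.comp p (h.hasFDerivAt_shear ε p)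
  have h2 : fderiv ℝ (fun q => u (shear γ ε q)) p = (fderiv ℝ u (shear γ ε p)).comp
    (dshear γ ε p) := h1.fderiv
  rw [h2, ContinuousLinearMap.comp_apply]

omit h in
lemma fderiv_decomp (u : ℝ × ℝ → ℂ) (q : ℝ × ℝ) (x y : ℝ) :
    fderiv ℝ u q (x, y) = x * fderiv ℝ u q (1, 0) + y * fderiv ℝ u q (0, 1) := by
  have : ((x, y) : ℝ × ℝ) = x • (1, 0) + y • (0, 1) := by simp
  rw [this, map_add, map_smul, map_smul, Complex.real_smul, Complex.real_smul]

lemma magD1_pull {u : ℝ × ℝ → ℂ} (hu : Differentiable ℝ u) (ε : ℝ) (A : ℝ × ℝ → ℝ × ℝ)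
    (p : ℝ × ℝ) :
    magD1 (pull γ ε A) (fun q => u (shear γ ε q)) p =
      (Real.cos (turning γ ε p.1) : ℂ) * magD1 A u (shear γ ε p) +
      (Real.sin (turning γ ε p.1) : ℂ) * magD2 A u (shear γ ε p) := by
  rw [magD1, h.fderiv_comp_shear hu, dshear_apply, fderiv_decomp, magD1, magD2, pull]
  push_cast
  ring

lemma magD2_pull {u : ℝ × ℝ → ℂ} (hu : Differentiable ℝ u) (ε : ℝ) (A : ℝ × ℝ → ℝ × ℝ)
    (p : ℝ × ℝ) :
    magD2 (pull γ ε A) (fun q => u (shear γ ε q)) p =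
      -(Real.sin (halfTurn γ ε) : ℂ) * magD1 A u (shear γ ε p) +
      (Real.cos (halfTurn γ ε) : ℂ) * magD2 A u (shear γ ε p) := by
  rw [magD2, h.fderiv_comp_shear hu, dshear_apply, fderiv_decomp, magD1, magD2, pull]
  push_cast
  ring

lemma adm_pull {ε : ℝ} (hε : |ε| * (M * (2 + |a0|)) ≤ 1 / 2) {A : ℝ × ℝ → ℝ × ℝ}
    {u : ℝ × ℝ → ℂ} (hu : Adm A u) : Adm (pull γ ε A) (fun q => u (shear γ ε q)) where
  smooth := hu.smooth.comp (h.contDiff_shear ε)
  supp := h.hasCompactSupport_comp hε hu.supp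
  cont1 := by
    have h1 := hu.cont1.comp (h.continuous_shear ε)
    have h2 := hu.cont2.comp (h.continuous_shear ε)
    have h3 := h.continuous_turning ε
    have h4 : Continuous fun p : ℝ × ℝ => (Real.cos (turning γ ε p.1) : ℂ) :=
      Complex.continuous_ofReal.comp (Real.continuous_cos.comp (h3.comp continuous_fst))
    have h5 : Continuous fun p : ℝ × ℝ => (Real.sin (turning γ ε p.1) : ℂ) :=
      Complex.continuous_ofReal.comp (Real.continuous_sin.comp (h3.comp continuous_fst))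
    refine ((h4.mul h1).add (h5.mul h2)).congr fun p => ?_
    simp only [Pi.add_apply, Pi.mul_apply, Function.comp_apply, pull]
    push_cast
    ring
  cont2 := by
    have h1 := hu.cont1.comp (h.continuous_shear ε)
    have h2 := hu.cont2.comp (h.continuous_shear ε)
    refine (((continuous_const (y := (-Real.sin (halfTurn γ ε) : ℂ))).mul h1).add
      ((continuous_const (y := (Real.cos (halfTurn γ ε) : ℂ))).mul h2)).congr fun p => ?_
    simp only [Pi.add_apply, Pi.mul_apply, Function.comp_apply, pull]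
    push_cast
    ring

omit h in
lemma shear_zero (γ : ℝ → ℝ) (ε s : ℝ) : shear γ ε (s, 0) = curve γ ε s := by
  simp [shear]

/-- The kinetic and mass terms in shear coordinates. -/
lemma energy_pull {ε : ℝ} (hε : |ε| * M ≤ 1 / 8) {A : ℝ × ℝ → ℝ × ℝ} {u : ℝ × ℝ → ℂ}
    (hu : Adm A u) (α : ℝ) :
    ∫ p : ℝ × ℝ, ((‖magD1 (pull γ ε A) (fun q => u (shear γ ε q)) p‖ ^ 2 -
        2 * Real.sin (turning γ ε p.1 - halfTurn γ ε) *
          (magD1 (pull γ ε A) (fun q => u (shear γ ε q)) p *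
            conj (magD2 (pull γ ε A) (fun q => u (shear γ ε q)) p)).re +
        ‖magD2 (pull γ ε A) (fun q => u (shear γ ε q)) p‖ ^ 2) /
          Real.cos (turning γ ε p.1 - halfTurn γ ε) +
        α ^ 2 / 4 * Real.cos (turning γ ε p.1 - halfTurn γ ε) * ‖u (shear γ ε p)‖ ^ 2) =
      (∫ p, (‖magD1 A u p‖ ^ 2 + ‖magD2 A u p‖ ^ 2)) + α ^ 2 / 4 * ∫ p, ‖u p‖ ^ 2 := by
  have hd := hu.smooth.differentiable one_ne_zero
  have iN : Integrable fun p => ‖magD1 A u p‖ ^ 2 + ‖magD2 A u p‖ ^ 2 :=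
    hu.integrable_aa.add hu.integrable_bb
  rw [← integral_const_mul, ← integral_add iN (hu.integrable_f.const_mul _),
    h.integral_shear hε (fun p => ‖magD1 A u p‖ ^ 2 + ‖magD2 A u p‖ ^ 2 +
      α ^ 2 / 4 * ‖u p‖ ^ 2)]
  congr 1
  funext p
  rw [h.magD1_pull hd, h.magD2_pull hd, frame_identity, smul_eq_mul]
  have : Real.cos (turning γ ε p.1 - halfTurn γ ε) ≠ 0 := by
    have := h.cos_ge hε p.1
    intro h0
    rw [h0] at this
    norm_num at this
  field_simp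

/-- The bound on the form given a trace bound. -/
theorem form_nonneg_of_trace {α : ℝ} (hα : 0 < α) {ε : ℝ} (hε : |ε| * M ≤ 1 / 8)
    (hε' : |ε| * (M * (2 + |a0|)) ≤ 1 / 2) {A : ℝ × ℝ → ℝ × ℝ} {u : ℝ × ℝ → ℂ} (hu : Adm A u)
    {C : ℝ}
    (hC : ∫ s in Icc a0 b0, ‖u (curve γ ε s)‖ ^ 2 ≤ C *
      ∫ p, (‖magD1 (pull γ ε A) (fun q => u (shear γ ε q)) p‖ ^ 2 +
        ‖covP (α * Real.cos (halfTurn γ ε) / 2) (pull γ ε A) (fun q => u (shear γ ε q)) p‖ ^ 2))
    (hsmall : (16 * (1 + 2 / α) + (10 * α + 16) * C) * (|ε| * (2 * M + G)) ≤ 1 / 2) :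
    0 ≤ (∫ p, (‖magD1 A u p‖ ^ 2 + ‖magD2 A u p‖ ^ 2)) + α ^ 2 / 4 * (∫ p, ‖u p‖ ^ 2) -
      α * ∫ s, ‖u (curve γ ε s)‖ ^ 2 := by
  have hM := h.M_nonneg
  have hG := h.G_nonneg
  have hδ : 0 ≤ |ε| * (2 * M + G) := by positivity
  have key := main_ineq (α := α) (c := Real.cos (halfTurn γ ε)) (δ := |ε| * (2 * M + G))
    (a0 := a0) (b0 := b0) hα (h.cos_half_ge hε) (Real.cos_le_one _)
    (θ := fun s => turning γ ε s - halfTurn γ ε) (θ' := fun s => ε * γ s)
    (fun s => (h.hasDerivAt_turning ε s).sub_const _) (continuous_const.mul h.cont)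
    (h.cos_ge hε) (h.abs_sin_le hε) ?_ ?_ ?_ (h.adm_pull hε' hu)
  · rw [h.energy_pull hε hu] at key
    simp only [shear_zero] at key
    refine le_trans ?_ key
    set N := ∫ p, (‖magD1 (pull γ ε A) (fun q => u (shear γ ε q)) p‖ ^ 2 +
        ‖covP (α * Real.cos (halfTurn γ ε) / 2) (pull γ ε A) (fun q => u (shear γ ε q)) p‖ ^ 2)
    have hN : 0 ≤ N := integral_nonneg fun p => by positivity
    set τ := ∫ s in Icc a0 b0, ‖u (curve γ ε s)‖ ^ 2
    have h1 := mul_le_mul_of_nonneg_left hC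
      (show 0 ≤ (10 * α + 16) * (|ε| * (2 * M + G)) by positivity)
    have h2 := mul_le_mul_of_nonneg_right hsmall hN
    nlinarith
  · intro s
    have h1 := Real.abs_cos_sub_cos_le (turning γ ε s - halfTurn γ ε) (-halfTurn γ ε)
    rw [Real.cos_neg] at h1
    refine h1.trans ?_
    have h2 := h.abs_turning_le ε s
    have : turning γ ε s - halfTurn γ ε - -halfTurn γ ε = turning γ ε s := by ring
    rw [this]
    have h3 : 0 ≤ |ε| * (M + G) := by positivity
    linarith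
  · intro s
    rw [abs_mul]
    have h1 := mul_le_mul_of_nonneg_left (h.sup s) (abs_nonneg ε)
    have h3 : 0 ≤ |ε| * (2 * M) := by positivity
    linarith
  · intro s hs
    refine ⟨?_, by rw [h.zero s hs, mul_zero]⟩
    rcases lt_or_ge s a0 with h1 | h1
    · rw [h.turning_left ε h1.le, zero_sub, Real.cos_neg]
    · have h2 : b0 ≤ s := by
        by_contra h3
        exact hs ⟨h1, (not_le.mp h3).le⟩
      rw [h.turning_right ε h2]
      congr 1
      ring

end Curv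

end Pool.Agent.H99.Leaky
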