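import Pool.Agent.H99.Leaky.MainIneq

set_option autoImplicit false

/-!
# The curve and its shear coordinates
-/

open MeasureTheory Filter Topology Set
open scoped ContDiff ComplexConjugate

namespace Pool.Agent.H99.Leaky

lemma integral_Iic_eq {g : ℝ → ℝ} (hg : Continuous g) {a : ℝ} (h0 : ∀ τ, τ ≤ a → g τ = 0) (s : ℝ) :
    ∫ τ in Iic s, g τ = ∫ τ in a..s, g τ := by
  have hz : ∀ x, x ≤ a → IntegrableOn g (Iic x) := by
    intro x hx
    refine (integrableOn_zero (ε' := ℝ) (s := Iic x) (μ := volume)).congr_fun ?_ measurableSet_Iic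
    intro τ hτ
    exact (h0 τ (le_trans hτ hx)).symm
  have hi : IntegrableOn g (Iic s) := by
    rcases le_total s a with h | h
    · exact hz s h
    · rw [← Iic_union_Ioc_eq_Iic h]
      exact (hz a le_rfl).union ((hg.integrableOn_Icc (a := a) (b := s)).mono_set Ioc_subset_Icc_self)
  rw [← intervalIntegral.integral_Iic_sub_Iic (hz a le_rfl) hi]
  have : ∫ x in Iic a, g x = 0 := by
    rw [setIntegral_congr_fun (g := fun _ => (0 : ℝ)) measurableSet_Iic fun τ hτ => h0 τ hτ]
    simp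
  rw [this, sub_zero]

/-- Half of the total turning angle. -/
noncomputable def halfTurn (γ : ℝ → ℝ) (ε : ℝ) : ℝ := ε * (∫ τ, γ τ) / 2

/-- Shear coordinates around the curve. -/
noncomputable def shear (γ : ℝ → ℝ) (ε : ℝ) (p : ℝ × ℝ) : ℝ × ℝ :=
  ((curve γ ε p.1).1 - p.2 * Real.sin (halfTurn γ ε),
    (curve γ ε p.1).2 + p.2 * Real.cos (halfTurn γ ε))

/-- Data describing a smooth compactly supported curvature. -/
structure Curv (γ : ℝ → ℝ) (a0 b0 M G : ℝ) : Prop where
  cont : Continuous γ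
  le : a0 ≤ b0
  zero : ∀ s, s ∉ Icc a0 b0 → γ s = 0
  mass : ∀ s t : ℝ, |∫ τ in s..t, γ τ| ≤ M
  sup : ∀ s, |γ s| ≤ G

lemma exists_curv {γ : ℝ → ℝ} (h : Continuous γ) (hc : HasCompactSupport γ) :
    ∃ a0 b0 M G : ℝ, Curv γ a0 b0 M G := by
  obtain ⟨R, hR⟩ := hc.isCompact.isBounded.subset_closedBall (0 : ℝ)
  obtain ⟨G, hG⟩ := hc.exists_bound_of_continuous h
  have hi : Integrable γ := h.integrable_of_hasCompactSupport hc
  refine ⟨-|R|, |R|, ∫ τ, |γ τ|, G, h, by linarith [abs_nonneg R], ?_, ?_, hG⟩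
  · intro s hs
    by_contra hne
    have h1 := hR (subset_tsupport _ hne)
    rw [Metric.mem_closedBall, dist_zero_right, Real.norm_eq_abs] at h1
    have h2 := le_trans h1 (le_abs_self R)
    exact hs ⟨(abs_le.mp h2).1, (abs_le.mp h2).2⟩
  · intro s t
    rw [← Real.norm_eq_abs]
    refine intervalIntegral.norm_integral_le_integral_norm_uIoc.trans ?_
    exact setIntegral_le_integral hi.norm (Eventually.of_forall fun _ => norm_nonneg _)

namespace Curv

variable {γ : ℝ → ℝ} {a0 b0 M G : ℝ} (h : Curv γ a0 b0 M G)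

include h

lemma M_nonneg : 0 ≤ M := (abs_nonneg _).trans (h.mass 0 0)

lemma G_nonneg : 0 ≤ G := (abs_nonneg _).trans (h.sup 0)

lemma zero_left {s : ℝ} (hs : s ≤ a0) : γ s = 0 := by
  rcases lt_or_eq_of_le hs with h1 | h1
  · exact h.zero s fun h2 => absurd h2.1 (not_le.mpr h1)
  · -- by continuity
    subst h1
    have h3 : Tendsto γ (𝓝[<] s) (𝓝 (γ s)) := h.cont.continuousAt.tendsto.mono_left nhdsWithin_le_nhds
    have h4 : Tendsto γ (𝓝[<] s) (𝓝 0) := by
      refine tendsto_const_nhds.congr' ?_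
      filter_upwards [self_mem_nhdsWithin] with x hx
      exact (h.zero x fun h2 => absurd h2.1 (not_le.mpr hx)).symm
    exact tendsto_nhds_unique h3 h4

lemma turning_eq (ε s : ℝ) : turning γ ε s = ε * ∫ τ in a0..s, γ τ := by
  rw [turning, integral_Iic_eq h.cont (fun τ hτ => h.zero_left hτ)]

lemma hasDerivAt_turning (ε s : ℝ) : HasDerivAt (turning γ ε) (ε * γ s) s := by
  have h1 : turning γ ε = fun s => ε * ∫ τ in a0..s, γ τ := funext (h.turning_eq ε)
  rw [h1]
  exact (h.cont.integral_hasStrictDerivAt a0 s).hasDerivAt.const_mul ε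

lemma continuous_turning (ε : ℝ) : Continuous (turning γ ε) :=
  continuous_iff_continuousAt.mpr fun s => (h.hasDerivAt_turning ε s).continuousAt

lemma abs_turning_le (ε s : ℝ) : |turning γ ε s| ≤ |ε| * M := by
  rw [h.turning_eq, abs_mul]
  exact mul_le_mul_of_nonneg_left (h.mass _ _) (abs_nonneg _)

lemma turning_left {s : ℝ} (ε : ℝ) (hs : s ≤ a0) : turning γ ε s = 0 := by
  rw [turning, setIntegral_congr_fun (g := fun _ => (0 : ℝ)) measurableSet_Iic
    fun τ hτ => h.zero_left (le_trans hτ hs)]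
  simp

lemma turning_right {s : ℝ} (ε : ℝ) (hs : b0 ≤ s) : turning γ ε s = 2 * halfTurn γ ε := by
  rw [turning, setIntegral_eq_integral_of_forall_compl_eq_zero, halfTurn]
  · ring
  · intro x hx
    exact h.zero x fun h2 => hx (le_trans h2.2 hs)

lemma abs_halfTurn_le (ε : ℝ) : |halfTurn γ ε| ≤ |ε| * M := by
  have h1 := h.turning_right ε (le_refl b0)
  have h2 := h.abs_turning_le ε b0
  rw [h1, abs_mul, abs_two] at h2
  have := abs_nonneg (halfTurn γ ε)
  linarith

lemma curve_fst (ε s : ℝ) :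
    (curve γ ε s).1 = s + ∫ τ in a0..s, (Real.cos (turning γ ε τ) - 1) := by
  rw [curve]
  simp only
  rw [integral_Iic_eq]
  · exact (Real.continuous_cos.comp (h.continuous_turning ε)).sub continuous_const
  · intro τ hτ
    rw [h.turning_left ε hτ]; simp

lemma curve_snd (ε s : ℝ) :
    (curve γ ε s).2 = ∫ τ in a0..s, Real.sin (turning γ ε τ) := by
  rw [curve]
  simp only
  rw [integral_Iic_eq]
  · exact Real.continuous_sin.comp (h.continuous_turning ε)
  · intro τ hτ
    rw [h.turning_left ε hτ]; simp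

lemma hasDerivAt_curve_fst (ε s : ℝ) :
    HasDerivAt (fun s => (curve γ ε s).1) (Real.cos (turning γ ε s)) s := by
  have h1 : (fun s => (curve γ ε s).1) =
    fun s => s + ∫ τ in a0..s, (Real.cos (turning γ ε τ) - 1) := funext (h.curve_fst ε)
  rw [h1]
  have hc : Continuous fun τ => Real.cos (turning γ ε τ) - 1 :=
    (Real.continuous_cos.comp (h.continuous_turning ε)).sub continuous_const
  refine ((hasDerivAt_id s).add (hc.integral_hasStrictDerivAt a0 s).hasDerivAt).congr_deriv ?_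
  ring

lemma hasDerivAt_curve_snd (ε s : ℝ) :
    HasDerivAt (fun s => (curve γ ε s).2) (Real.sin (turning γ ε s)) s := by
  have h1 : (fun s => (curve γ ε s).2) =
    fun s => ∫ τ in a0..s, Real.sin (turning γ ε τ) := funext (h.curve_snd ε)
  rw [h1]
  have hc : Continuous fun τ => Real.sin (turning γ ε τ) :=
    Real.continuous_sin.comp (h.continuous_turning ε)
  exact (hc.integral_hasStrictDerivAt a0 s).hasDerivAt

lemma abs_curve_fst_sub_le (ε s : ℝ) : |(curve γ ε s).1 - s| ≤ |ε| * M * |s - a0| := by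
  rw [h.curve_fst, add_sub_cancel_left, ← Real.norm_eq_abs]
  refine intervalIntegral.norm_integral_le_of_norm_le_const fun τ _ => ?_
  rw [Real.norm_eq_abs]
  have := Real.abs_cos_sub_cos_le (turning γ ε τ) 0
  rw [Real.cos_zero, sub_zero] at this
  exact this.trans (h.abs_turning_le ε τ)

lemma abs_curve_snd_le (ε s : ℝ) : |(curve γ ε s).2| ≤ |ε| * M * |s - a0| := by
  rw [h.curve_snd, ← Real.norm_eq_abs]
  refine intervalIntegral.norm_integral_le_of_norm_le_const fun τ _ => ?_
  rw [Real.norm_eq_abs]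
  exact Real.abs_sin_le_abs.trans (h.abs_turning_le ε τ)

/-- The shear map is close to the identity. -/
lemma shear_close (ε : ℝ) (p : ℝ × ℝ) :
    ‖shear γ ε p - p‖ ≤ |ε| * (M * (2 + |a0|)) * (1 + ‖p‖) := by
  have h1 := h.abs_curve_fst_sub_le ε p.1
  have h2 := h.abs_curve_snd_le ε p.1
  have h3 := h.abs_halfTurn_le ε
  have hp1 : |p.1| ≤ ‖p‖ := by rw [← Real.norm_eq_abs]; exact norm_fst_le p
  have hp2 : |p.2| ≤ ‖p‖ := by rw [← Real.norm_eq_abs]; exact norm_snd_le p
  have hM := h.M_nonneg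
  have hεM : 0 ≤ |ε| * M := by positivity
  have h4 : |p.1 - a0| ≤ ‖p‖ + |a0| := (abs_sub _ _).trans (by linarith)
  have h5 : |p.2 * Real.sin (halfTurn γ ε)| ≤ ‖p‖ * (|ε| * M) := by
    rw [abs_mul]
    exact mul_le_mul hp2 (Real.abs_sin_le_abs.trans h3) (abs_nonneg _) (norm_nonneg _)
  have h6 : |p.2 * (Real.cos (halfTurn γ ε) - 1)| ≤ ‖p‖ * (|ε| * M) := by
    rw [abs_mul]
    refine mul_le_mul hp2 ?_ (abs_nonneg _) (norm_nonneg _)
    have := Real.abs_cos_sub_cos_le (halfTurn γ ε) 0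
    rw [Real.cos_zero, sub_zero] at this
    exact this.trans h3
  have h7 := mul_le_mul_of_nonneg_left h4 hεM
  have ha := abs_nonneg a0
  have hp := norm_nonneg p
  have h8 : |ε| * M * (‖p‖ + |a0|) + ‖p‖ * (|ε| * M) ≤ |ε| * (M * (2 + |a0|)) * (1 + ‖p‖) := by
    have : |ε| * (M * (2 + |a0|)) * (1 + ‖p‖) - (|ε| * M * (‖p‖ + |a0|) + ‖p‖ * (|ε| * M)) =
        |ε| * M * (2 + |a0| * ‖p‖) := by ring
    have h9 : 0 ≤ |ε| * M * (2 + |a0| * ‖p‖) := by positivity
    linarith
  rw [Prod.norm_def, max_le_iff]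
  constructor
  · rw [Real.norm_eq_abs]
    have e1 : (shear γ ε p - p).1 = ((curve γ ε p.1).1 - p.1) - p.2 * Real.sin (halfTurn γ ε) := by
      simp [shear]; ring
    rw [e1]
    refine (abs_sub _ _).trans ?_
    linarith
  · rw [Real.norm_eq_abs]
    have e1 : (shear γ ε p - p).2 = (curve γ ε p.1).2 + p.2 * (Real.cos (halfTurn γ ε) - 1) := by
      simp [shear]; ring
    rw [e1]
    refine (abs_add_le _ _).trans ?_
    linarith

end Curv

end Pool.Agent.H99.Leaky
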