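import Pool.Agent.H99.Leaky.Shear

set_option autoImplicit false

/-!
# The shear map is a diffeomorphism
-/

open MeasureTheory Filter Topology Set
open scoped ContDiff ComplexConjugate

namespace Pool.Agent.H99.Leaky

/-- The derivative of the shear map. -/
noncomputable def dshear (γ : ℝ → ℝ) (ε : ℝ) (p : ℝ × ℝ) : ℝ × ℝ →L[ℝ] ℝ × ℝ :=
  (Matrix.toLin (.finTwoProd ℝ) (.finTwoProd ℝ)
    !![Real.cos (turning γ ε p.1), -Real.sin (halfTurn γ ε);
      Real.sin (turning γ ε p.1), Real.cos (halfTurn γ ε)]).toContinuousLinearMap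

lemma dshear_apply (γ : ℝ → ℝ) (ε : ℝ) (p v : ℝ × ℝ) : dshear γ ε p v =
    (Real.cos (turning γ ε p.1) * v.1 - Real.sin (halfTurn γ ε) * v.2,
      Real.sin (turning γ ε p.1) * v.1 + Real.cos (halfTurn γ ε) * v.2) := by
  unfold dshear
  rw [Matrix.toLin_finTwoProd_toContinuousLinearMap]
  simp
  ring

lemma det_dshear (γ : ℝ → ℝ) (ε : ℝ) (p : ℝ × ℝ) :
    (dshear γ ε p).det = Real.cos (turning γ ε p.1 - halfTurn γ ε) := by
  unfold dshear
  simp only [neg_mul, LinearMap.det_toContinuousLinearMap, LinearMap.det_toLin,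
    Matrix.det_fin_two_of, sub_neg_eq_add]
  rw [Real.cos_sub]
  ring

namespace Curv

variable {γ : ℝ → ℝ} {a0 b0 M G : ℝ} (h : Curv γ a0 b0 M G)

include h

lemma hasFDerivAt_shear (ε : ℝ) (p : ℝ × ℝ) : HasFDerivAt (shear γ ε) (dshear γ ε p) p := by
  have h1 : HasFDerivAt (fun q : ℝ × ℝ => (curve γ ε q.1).1)
      (Real.cos (turning γ ε p.1) • ContinuousLinearMap.fst ℝ ℝ ℝ) p := by
    have := (h.hasDerivAt_curve_fst ε p.1).hasFDerivAt.comp p (hasFDerivAt_fst (𝕜 := ℝ) (p := p))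
    refine this.congr_fderiv ?_
    ext <;> simp
  have h2 : HasFDerivAt (fun q : ℝ × ℝ => (curve γ ε q.1).2)
      (Real.sin (turning γ ε p.1) • ContinuousLinearMap.fst ℝ ℝ ℝ) p := by
    have := (h.hasDerivAt_curve_snd ε p.1).hasFDerivAt.comp p (hasFDerivAt_fst (𝕜 := ℝ) (p := p))
    refine this.congr_fderiv ?_
    ext <;> simp
  have h3 : HasFDerivAt (fun q : ℝ × ℝ => q.2) (ContinuousLinearMap.snd ℝ ℝ ℝ) p := hasFDerivAt_snd
  have h4 := (h1.sub (h3.mul_const (Real.sin (halfTurn γ ε)))).prodMk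
    (h2.add (h3.mul_const (Real.cos (halfTurn γ ε))))
  refine h4.congr_fderiv ?_
  ext
  all_goals
    rw [ContinuousLinearMap.comp_apply, ContinuousLinearMap.comp_apply, dshear_apply]
    simp

lemma continuous_dshear (ε : ℝ) (v : ℝ × ℝ) : Continuous fun p => dshear γ ε p v := by
  simp only [dshear_apply]
  have := h.continuous_turning ε
  fun_prop

lemma contDiff_shear (ε : ℝ) : ContDiff ℝ 1 (shear γ ε) := by
  rw [contDiff_one_iff_hasFDerivAt]
  refine ⟨dshear γ ε, ?_, h.hasFDerivAt_shear ε⟩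
  have h1 : dshear γ ε = fun p =>
      (Real.cos (turning γ ε p.1)) • ((ContinuousLinearMap.fst ℝ ℝ ℝ).prod 0) +
      (Real.sin (turning γ ε p.1)) •
        ((0 : ℝ × ℝ →L[ℝ] ℝ).prod (ContinuousLinearMap.fst ℝ ℝ ℝ)) +
      ((-Real.sin (halfTurn γ ε)) • ContinuousLinearMap.snd ℝ ℝ ℝ).prod
        ((Real.cos (halfTurn γ ε)) • ContinuousLinearMap.snd ℝ ℝ ℝ) := by
    funext p
    ext
    all_goals
      rw [ContinuousLinearMap.comp_apply, ContinuousLinearMap.comp_apply, dshear_apply]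
      simp
  rw [h1]
  have := h.continuous_turning ε
  fun_prop

lemma continuous_shear (ε : ℝ) : Continuous (shear γ ε) := (h.contDiff_shear ε).continuous

/-- The coordinate along the chord direction. -/
lemma xi_hasDerivAt (ε s : ℝ) :
    HasDerivAt (fun s => (curve γ ε s).1 * Real.cos (halfTurn γ ε) +
      (curve γ ε s).2 * Real.sin (halfTurn γ ε)) (Real.cos (turning γ ε s - halfTurn γ ε)) s := by
  refine (((h.hasDerivAt_curve_fst ε s).mul_const _).add
    ((h.hasDerivAt_curve_snd ε s).mul_const _)).congr_deriv ?_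
  rw [Real.cos_sub]

lemma cos_ge {ε : ℝ} (hε : |ε| * M ≤ 1 / 8) (s : ℝ) :
    1 / 2 ≤ Real.cos (turning γ ε s - halfTurn γ ε) := by
  have h1 := h.abs_turning_le ε s
  have h2 := h.abs_halfTurn_le ε
  have h3 : |turning γ ε s - halfTurn γ ε| ≤ 1 / 4 := (abs_sub _ _).trans (by linarith)
  have h4 := Real.one_sub_sq_div_two_le_cos (x := turning γ ε s - halfTurn γ ε)
  have h5 : (turning γ ε s - halfTurn γ ε) ^ 2 ≤ (1 / 4) ^ 2 := by
    rw [← sq_abs]; exact pow_le_pow_left₀ (abs_nonneg _) h3 2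
  linarith

lemma abs_sin_le {ε : ℝ} (hε : |ε| * M ≤ 1 / 8) (s : ℝ) :
    |Real.sin (turning γ ε s - halfTurn γ ε)| ≤ 1 / 2 := by
  have h1 := h.abs_turning_le ε s
  have h2 := h.abs_halfTurn_le ε
  have h3 : |turning γ ε s - halfTurn γ ε| ≤ 1 / 4 := (abs_sub _ _).trans (by linarith)
  exact Real.abs_sin_le_abs.trans (by linarith)

lemma cos_half_ge {ε : ℝ} (hε : |ε| * M ≤ 1 / 8) : 1 / 2 ≤ Real.cos (halfTurn γ ε) := by
  have := h.cos_ge hε a0
  rw [h.turning_left ε le_rfl, zero_sub, Real.cos_neg] at this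
  exact this

lemma strictMono_xi {ε : ℝ} (hε : |ε| * M ≤ 1 / 8) :
    StrictMono fun s => (curve γ ε s).1 * Real.cos (halfTurn γ ε) +
      (curve γ ε s).2 * Real.sin (halfTurn γ ε) := by
  refine strictMono_of_deriv_pos fun s => ?_
  rw [(h.xi_hasDerivAt ε s).deriv]
  linarith [h.cos_ge hε s]

omit h in
lemma shear_chord (γ : ℝ → ℝ) (ε : ℝ) (p : ℝ × ℝ) :
    (shear γ ε p).1 * Real.cos (halfTurn γ ε) + (shear γ ε p).2 * Real.sin (halfTurn γ ε) =
      (curve γ ε p.1).1 * Real.cos (halfTurn γ ε) + (curve γ ε p.1).2 * Real.sin (halfTurn γ ε) := by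
  simp only [shear]
  ring

lemma injective_shear {ε : ℝ} (hε : |ε| * M ≤ 1 / 8) : Function.Injective (shear γ ε) := by
  intro p q hpq
  have h1 := shear_chord γ ε p
  have h2 := shear_chord γ ε q
  rw [hpq, h2] at h1
  have h3 : p.1 = q.1 := ((h.strictMono_xi hε).injective h1).symm
  have h4 := congrArg Prod.snd hpq
  simp only [shear] at h4
  rw [h3] at h4
  have h5 := h.cos_half_ge hε
  have h6 : p.2 * Real.cos (halfTurn γ ε) = q.2 * Real.cos (halfTurn γ ε) := by linarith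
  have h7 : p.2 = q.2 := mul_right_cancel₀ (by linarith) h6
  exact Prod.ext h3 h7

lemma surjective_xi {ε : ℝ} (hε : |ε| * M ≤ 1 / 8) :
    Function.Surjective fun s => (curve γ ε s).1 * Real.cos (halfTurn γ ε) +
      (curve γ ε s).2 * Real.sin (halfTurn γ ε) := by
  have hc : Continuous fun s => (curve γ ε s).1 * Real.cos (halfTurn γ ε) +
      (curve γ ε s).2 * Real.sin (halfTurn γ ε) :=
    continuous_iff_continuousAt.mpr fun s => (h.xi_hasDerivAt ε s).continuousAt
  have hb : ∀ s, |((curve γ ε s).1 * Real.cos (halfTurn γ ε) +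
      (curve γ ε s).2 * Real.sin (halfTurn γ ε)) - s| ≤ 1 / 2 * |s| + |a0| := by
    intro s
    have h1 := h.abs_curve_fst_sub_le ε s
    have h2 := h.abs_curve_snd_le ε s
    have h3 := h.abs_halfTurn_le ε
    have h4 : |s - a0| ≤ |s| + |a0| := abs_sub _ _
    have h5 : |Real.cos (halfTurn γ ε) - 1| ≤ 1 / 8 := by
      have := Real.abs_cos_sub_cos_le (halfTurn γ ε) 0
      rw [Real.cos_zero, sub_zero] at this
      linarith
    have e1 : ((curve γ ε s).1 * Real.cos (halfTurn γ ε) +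
      (curve γ ε s).2 * Real.sin (halfTurn γ ε)) - s = ((curve γ ε s).1 - s) *
        Real.cos (halfTurn γ ε) + (curve γ ε s).2 * Real.sin (halfTurn γ ε) +
        s * (Real.cos (halfTurn γ ε) - 1) := by ring
    rw [e1]
    have h6 : |ε| * M * |s - a0| ≤ 1 / 8 * (|s| + |a0|) :=
      mul_le_mul hε h4 (abs_nonneg _) (by norm_num)
    have h7 : |((curve γ ε s).1 - s) * Real.cos (halfTurn γ ε)| ≤ 1 / 8 * (|s| + |a0|) := by
      rw [abs_mul]
      have g1 := Real.abs_cos_le_one (halfTurn γ ε)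
      have g2 := abs_nonneg ((curve γ ε s).1 - s)
      nlinarith
    have h8 : |(curve γ ε s).2 * Real.sin (halfTurn γ ε)| ≤ 1 / 8 * (|s| + |a0|) := by
      rw [abs_mul]
      have g1 := Real.abs_sin_le_one (halfTurn γ ε)
      have g2 := abs_nonneg ((curve γ ε s).2)
      nlinarith
    have h9 : |s * (Real.cos (halfTurn γ ε) - 1)| ≤ 1 / 8 * |s| := by
      rw [abs_mul]
      have := mul_le_mul_of_nonneg_left h5 (abs_nonneg s)
      linarith
    have h10 := abs_nonneg s
    have h11 := abs_nonneg a0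
    refine (abs_add_three _ _ _).trans ?_
    linarith
  refine hc.surjective ?_ ?_
  · refine tendsto_atTop_mono' atTop (f₁ := fun s => 1 / 2 * s - |a0|) ?_ ?_
    · filter_upwards [eventually_ge_atTop (0 : ℝ)] with s hs
      have := neg_le_of_abs_le (hb s)
      rw [abs_of_nonneg hs] at this
      linarith
    · exact tendsto_atTop_add_const_right _ _ (tendsto_id.const_mul_atTop (by norm_num))
  · refine tendsto_atBot_mono' atBot (f₁ := fun s => 1 / 2 * s + |a0|) ?_ ?_
    · filter_upwards [eventually_le_atBot (0 : ℝ)] with s hs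
      have := le_of_abs_le (hb s)
      rw [abs_of_nonpos hs] at this
      linarith
    · exact tendsto_atBot_add_const_right _ _ (tendsto_id.const_mul_atBot (by norm_num))

lemma surjective_shear {ε : ℝ} (hε : |ε| * M ≤ 1 / 8) : Function.Surjective (shear γ ε) := by
  intro q
  obtain ⟨s, hs⟩ := h.surjective_xi hε
    (q.1 * Real.cos (halfTurn γ ε) + q.2 * Real.sin (halfTurn γ ε))
  simp only at hs
  refine ⟨(s, (q.2 - (curve γ ε s).2) * Real.cos (halfTurn γ ε) -
    (q.1 - (curve γ ε s).1) * Real.sin (halfTurn γ ε)), ?_⟩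
  have h3 := Real.sin_sq_add_cos_sq (halfTurn γ ε)
  ext
  · simp only [shear]
    linear_combination (q.1 - (curve γ ε s).1) * h3 + Real.cos (halfTurn γ ε) * hs
  · simp only [shear]
    linear_combination (q.2 - (curve γ ε s).2) * h3 + Real.sin (halfTurn γ ε) * hs

/-- Change of variables. -/
lemma integral_shear {E : Type*} [NormedAddCommGroup E] [NormedSpace ℝ E] {ε : ℝ}
    (hε : |ε| * M ≤ 1 / 8) (F : ℝ × ℝ → E) :
    ∫ q, F q = ∫ p : ℝ × ℝ, Real.cos (turning γ ε p.1 - halfTurn γ ε) • F (shear γ ε p) := by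
  have h1 := integral_image_eq_integral_abs_det_fderiv_smul (volume : Measure (ℝ × ℝ))
    (s := univ) (f := shear γ ε) (f' := dshear γ ε) MeasurableSet.univ
    (fun p _ => (h.hasFDerivAt_shear ε p).hasFDerivWithinAt) (h.injective_shear hε).injOn F
  rw [image_univ, (h.surjective_shear hε).range_eq, setIntegral_univ, setIntegral_univ] at h1
  rw [h1]
  congr 1
  funext p
  rw [det_dshear, abs_of_pos (by linarith [h.cos_ge hε p.1])]

lemma norm_le_shear {ε : ℝ} (hε : |ε| * (M * (2 + |a0|)) ≤ 1 / 2) (p : ℝ × ℝ) :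
    ‖p‖ ≤ 2 * ‖shear γ ε p‖ + 1 := by
  have h1 := h.shear_close ε p
  have h2 := mul_le_mul_of_nonneg_right hε (show 0 ≤ 1 + ‖p‖ by positivity)
  have h3 : ‖p‖ ≤ ‖shear γ ε p‖ + ‖shear γ ε p - p‖ := by
    have := norm_sub_le (shear γ ε p) (shear γ ε p - p)
    rwa [sub_sub_cancel] at this
  linarith

lemma hasCompactSupport_comp {E : Type*} [Zero E] {ε : ℝ} (hε : |ε| * (M * (2 + |a0|)) ≤ 1 / 2)
    {u : ℝ × ℝ → E} (hu : HasCompactSupport u) : HasCompactSupport fun p => u (shear γ ε p) := by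
  obtain ⟨R, hR⟩ := hu.isCompact.isBounded.subset_closedBall (0 : ℝ × ℝ)
  refine HasCompactSupport.intro (isCompact_closedBall (0 : ℝ × ℝ) (2 * R + 1)) fun p hp => ?_
  by_contra hne
  refine hp ?_
  have h1 := hR (subset_tsupport _ hne)
  rw [Metric.mem_closedBall, dist_zero_right] at h1 ⊢
  linarith [h.norm_le_shear hε p]

end Curv

end Pool.Agent.H99.Leaky
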