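import Pool.Agent.H99.Leaky.Abstract
import Pool.Agent.H99.Leaky.HolReg

set_option autoImplicit false

/-!
# From the form bound to the spectrum
-/

open MeasureTheory Filter Topology Set
open scoped ContDiff ComplexConjugate InnerProductSpace

namespace Pool.Agent.H99.Leaky

/-- The test functions as a submodule. -/
def testSpace (S : Set (ℝ × ℝ)) : Submodule ℂ (ℝ × ℝ → ℂ) where
  carrier := {u | IsTest S u}
  add_mem' := by
    rintro u v ⟨hu1, hu2, hu3⟩ ⟨hv1, hv2, hv3⟩
    exact ⟨hu1.add hv1, hu2.add hv2, (hu3.union_left hv3).mono_left (tsupport_add u v)⟩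
  zero_mem' := by
    refine ⟨contDiff_const, HasCompactSupport.zero, ?_⟩
    have : tsupport (0 : ℝ × ℝ → ℂ) = ∅ := by simp
    rw [this]
    exact disjoint_bot_left
  smul_mem' := by
    rintro c u ⟨hu1, hu2, hu3⟩
    refine ⟨contDiff_const.smul hu1, hu2.smul_left (f := fun _ => c), ?_⟩
    refine hu3.mono_left ?_
    exact tsupport_smul_subset_right (fun _ => c) u

lemma mem_testSpace {S : Set (ℝ × ℝ)} {u : ℝ × ℝ → ℂ} : u ∈ testSpace S ↔ IsTest S u := Iff.rfl

lemma memLp_test {S : Set (ℝ × ℝ)} (u : testSpace S) :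
    MemLp (u : ℝ × ℝ → ℂ) 2 (volume : Measure (ℝ × ℝ)) :=
  u.2.1.continuous.memLp_of_hasCompactSupport u.2.2.1

/-- The inclusion of the test functions into `L²`. -/
noncomputable def incl (S : Set (ℝ × ℝ)) : testSpace S →ₗ[ℂ] L2 where
  toFun u := (memLp_test u).toLp
  map_add' u v := by
    rw [← MemLp.toLp_add]; rfl
  map_smul' c u := by
    rw [RingHom.id_apply, ← MemLp.toLp_const_smul]; rfl

lemma coeFn_incl {S : Set (ℝ × ℝ)} (u : testSpace S) :
    (incl S u : ℝ × ℝ → ℂ) =ᵐ[volume] (u : ℝ × ℝ → ℂ) := (memLp_test u).coeFn_toLp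

lemma L2_norm_sq (f : L2) : ‖f‖ ^ 2 = ∫ p, ‖f p‖ ^ 2 := by
  have h1 : ⟪f, f⟫_ℂ = ((∫ p, ‖f p‖ ^ 2 : ℝ) : ℂ) := by
    rw [L2.inner_def, ← integral_complex_ofReal]
    congr 1
    funext p
    rw [inner_self_eq_norm_sq_to_K]
    norm_cast
  have h2 : ⟪f, f⟫_ℂ = ((‖f‖ ^ 2 : ℝ) : ℂ) := by
    rw [inner_self_eq_norm_sq_to_K]; norm_cast
  rw [h2] at h1
  exact_mod_cast h1

lemma norm_incl_sub_sq {S : Set (ℝ × ℝ)} (w : testSpace S) (u : L2) :
    ‖incl S w - u‖ ^ 2 = ∫ p, ‖(w : ℝ × ℝ → ℂ) p - u p‖ ^ 2 := by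
  rw [L2_norm_sq]
  refine integral_congr_ae ?_
  filter_upwards [Lp.coeFn_sub (incl S w) u, coeFn_incl w] with p h1 h2
  rw [h1, Pi.sub_apply, h2]

lemma norm_incl_sq {S : Set (ℝ × ℝ)} (w : testSpace S) :
    ‖incl S w‖ ^ 2 = ∫ p, ‖(w : ℝ × ℝ → ℂ) p‖ ^ 2 := by
  rw [L2_norm_sq]
  refine integral_congr_ae ?_
  filter_upwards [coeFn_incl w] with p h2
  rw [h2]

lemma inner_incl {S : Set (ℝ × ℝ)} (v : testSpace S) (f : L2) :
    ⟪incl S v, f⟫_ℂ = ∫ p, f p * conj ((v : ℝ × ℝ → ℂ) p) := by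
  rw [L2.inner_def]
  refine integral_congr_ae ?_
  filter_upwards [coeFn_incl v] with p h2
  rw [h2, RCLike.inner_apply]

/-- Test functions are admissible. -/
lemma adm_test {S : Set (ℝ × ℝ)} (hS : IsClosed S) {A : ℝ × ℝ → ℝ × ℝ} (hA : ContinuousOn A Sᶜ)
    {u : ℝ × ℝ → ℂ} (hu : IsTest S u) : Adm A u := by
  obtain ⟨h1, h2, h3⟩ := hu
  have key : ∀ (f : ℝ × ℝ → ℝ), ContinuousOn f Sᶜ → Continuous fun p => (f p : ℂ) * u p := by
    intro f hf
    rw [continuous_iff_continuousAt]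
    intro p
    by_cases hp : p ∈ tsupport u
    · have h4 : p ∈ Sᶜ := fun h5 => Set.disjoint_left.mp h3 hp h5
      have h5 : ContinuousAt f p := hf.continuousAt (hS.isOpen_compl.mem_nhds h4)
      exact (Complex.continuous_ofReal.continuousAt.comp h5).mul h1.continuous.continuousAt
    · have h4 : (fun p => (f p : ℂ) * u p) =ᶠ[𝓝 p] fun _ => 0 := by
        have h5 := (isClosed_tsupport u).isOpen_compl.mem_nhds hp
        filter_upwards [h5] with x hx
        rw [image_eq_zero_of_notMem_tsupport hx, mul_zero]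
      exact continuousAt_const.congr h4.symm
  exact ⟨h1.of_le (by exact_mod_cast le_top), h2, key _ (continuous_fst.comp_continuousOn hA),
    key _ (continuous_snd.comp_continuousOn hA)⟩

section algebra

variable {A : ℝ × ℝ → ℝ × ℝ} {u v w : ℝ × ℝ → ℂ}

lemma magD1_add (hu : Differentiable ℝ u) (hv : Differentiable ℝ v) (p : ℝ × ℝ) :
    magD1 A (u + v) p = magD1 A u p + magD1 A v p := by
  rw [magD1, magD1, magD1, fderiv_add (hu p) (hv p)]
  simp only [add_apply, Pi.add_apply]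
  ring

lemma magD2_add (hu : Differentiable ℝ u) (hv : Differentiable ℝ v) (p : ℝ × ℝ) :
    magD2 A (u + v) p = magD2 A u p + magD2 A v p := by
  rw [magD2, magD2, magD2, fderiv_add (hu p) (hv p)]
  simp only [add_apply, Pi.add_apply]
  ring

lemma magD1_smul (c : ℂ) (hu : Differentiable ℝ u) (p : ℝ × ℝ) :
    magD1 A (c • u) p = c * magD1 A u p := by
  rw [magD1, magD1, fderiv_const_smul (hu p)]
  simp only [smul_apply, Pi.smul_apply, smul_eq_mul]
  ring

lemma magD2_smul (c : ℂ) (hu : Differentiable ℝ u) (p : ℝ × ℝ) :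
    magD2 A (c • u) p = c * magD2 A u p := by
  rw [magD2, magD2, fderiv_const_smul (hu p)]
  simp only [smul_apply, Pi.smul_apply, smul_eq_mul]
  ring

lemma integrable_magD (hu : Adm A u) (hv : Adm A v) :
    Integrable fun p => magD1 A u p * conj (magD1 A v p) + magD2 A u p * conj (magD2 A v p) := by
  have hc : Continuous fun p =>
      magD1 A u p * conj (magD1 A v p) + magD2 A u p * conj (magD2 A v p) :=
    (hu.continuous_magD1.mul (Complex.continuous_conj.comp hv.continuous_magD1)).add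
      (hu.continuous_magD2.mul (Complex.continuous_conj.comp hv.continuous_magD2))
  refine hc.integrable_of_hasCompactSupport (HasCompactSupport.intro hu.supp.isCompact ?_)
  intro p hp
  rw [Adm.magD1_eq_zero hp, Adm.magD2_eq_zero hp]; simp

end algebra

/-- The form is Hermitian on the test functions. -/
lemma isHerm_form {S : Set (ℝ × ℝ)} (hS : IsClosed S) {A : ℝ × ℝ → ℝ × ℝ}
    (hA : ContinuousOn A Sᶜ) (α : ℝ) {Γ : ℝ → ℝ × ℝ} (hΓ : Continuous Γ)
    (hΓc : ∀ u : ℝ × ℝ → ℂ, HasCompactSupport u → HasCompactSupport fun s => u (Γ s)) :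
    IsHerm (fun u v : testSpace S => form α Γ A u v) where
  add_left u v w := by
    have hu := adm_test hS hA u.2
    have hv := adm_test hS hA v.2
    have hw := adm_test hS hA w.2
    have hdu := hu.smooth.differentiable one_ne_zero
    have hdv := hv.smooth.differentiable one_ne_zero
    have iG : ∀ a b : testSpace S, Integrable fun s =>
        (a : ℝ × ℝ → ℂ) (Γ s) * conj ((b : ℝ × ℝ → ℂ) (Γ s)) := by
      intro a b
      have hc : Continuous fun s => (a : ℝ × ℝ → ℂ) (Γ s) * conj ((b : ℝ × ℝ → ℂ) (Γ s)) :=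
        (a.2.1.continuous.comp hΓ).mul (Complex.continuous_conj.comp (b.2.1.continuous.comp hΓ))
      exact hc.integrable_of_hasCompactSupport ((hΓc _ a.2.2.1).mul_right)
    simp only [form, Submodule.coe_add, magD1_add hdu hdv, magD2_add hdu hdv, Pi.add_apply]
    have e1 : (∫ p, ((magD1 A u p + magD1 A v p) * conj (magD1 A w p) +
        (magD2 A u p + magD2 A v p) * conj (magD2 A w p))) =
        (∫ p, (magD1 A u p * conj (magD1 A w p) + magD2 A u p * conj (magD2 A w p))) +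
        ∫ p, (magD1 A v p * conj (magD1 A w p) + magD2 A v p * conj (magD2 A w p)) := by
      rw [← integral_add (integrable_magD hu hw) (integrable_magD hv hw)]
      congr 1
      funext p
      ring
    have e2 : (∫ s, ((u : ℝ × ℝ → ℂ) (Γ s) + (v : ℝ × ℝ → ℂ) (Γ s)) *
        conj ((w : ℝ × ℝ → ℂ) (Γ s))) =
        (∫ s, (u : ℝ × ℝ → ℂ) (Γ s) * conj ((w : ℝ × ℝ → ℂ) (Γ s))) +
        ∫ s, (v : ℝ × ℝ → ℂ) (Γ s) * conj ((w : ℝ × ℝ → ℂ) (Γ s)) := by
      rw [← integral_add (iG u w) (iG v w)]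
      congr 1
      funext p
      ring
    rw [e1, e2]
    ring
  smul_left c u v := by
    have hu := adm_test hS hA u.2
    have hdu := hu.smooth.differentiable one_ne_zero
    simp only [form, Submodule.coe_smul, magD1_smul c hdu, magD2_smul c hdu, Pi.smul_apply,
      smul_eq_mul]
    have e1 : (∫ p, (c * magD1 A u p * conj (magD1 A v p) +
        c * magD2 A u p * conj (magD2 A v p))) =
        c * ∫ p, (magD1 A u p * conj (magD1 A v p) + magD2 A u p * conj (magD2 A v p)) := by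
      rw [← integral_const_mul]
      congr 1
      funext p
      ring
    have e2 : (∫ s, c * (u : ℝ × ℝ → ℂ) (Γ s) * conj ((v : ℝ × ℝ → ℂ) (Γ s))) =
        c * ∫ s, (u : ℝ × ℝ → ℂ) (Γ s) * conj ((v : ℝ × ℝ → ℂ) (Γ s)) := by
      rw [← integral_const_mul]
      congr 1
      funext p
      ring
    rw [e1, e2]
    ring
  herm u v := by
    simp only [form]
    rw [map_sub, map_mul, Complex.conj_ofReal, ← integral_conj, ← integral_conj]
    congr 1
    · congr 1
      funext p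
      simp only [map_add, map_mul, Complex.conj_conj]
      ring
    · congr 2
      funext s
      simp only [map_mul, Complex.conj_conj]
      ring

/-- The diagonal of the form. -/
lemma form_self_re {A : ℝ × ℝ → ℝ × ℝ} (α : ℝ) (Γ : ℝ → ℝ × ℝ) (u : ℝ × ℝ → ℂ) :
    (form α Γ A u u).re = (∫ p, (‖magD1 A u p‖ ^ 2 + ‖magD2 A u p‖ ^ 2)) -
      α * ∫ s, ‖u (Γ s)‖ ^ 2 := by
  have e1 : ∫ p, (magD1 A u p * conj (magD1 A u p) + magD2 A u p * conj (magD2 A u p)) =
      ((∫ p, (‖magD1 A u p‖ ^ 2 + ‖magD2 A u p‖ ^ 2) : ℝ) : ℂ) := by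
    rw [← integral_complex_ofReal]
    congr 1
    funext p
    rw [Complex.mul_conj, Complex.mul_conj, Complex.normSq_eq_norm_sq, Complex.normSq_eq_norm_sq]
    push_cast
    ring
  have e2 : ∫ s, u (Γ s) * conj (u (Γ s)) = ((∫ s, ‖u (Γ s)‖ ^ 2 : ℝ) : ℂ) := by
    rw [← integral_complex_ofReal]
    congr 1
    funext p
    rw [Complex.mul_conj, Complex.normSq_eq_norm_sq]
  rw [form, e1, e2, ← Complex.ofReal_mul, ← Complex.ofReal_sub, Complex.ofReal_re]

/-- The graph of the operator in terms of the abstract construction. -/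
lemma inGraph_iff {S : Set (ℝ × ℝ)} {A : ℝ × ℝ → ℝ × ℝ} (α : ℝ) (Γ : ℝ → ℝ × ℝ) (u f : L2) :
    InGraph α Γ A S u f ↔ AbsGraph (fun u v : testSpace S => form α Γ A u v) (incl S) u f := by
  have hconv : ∀ w : ℕ → testSpace S, (Tendsto (fun n => incl S (w n)) atTop (𝓝 u) ↔
      Tendsto (fun n => ∫ p, ‖(w n : ℝ × ℝ → ℂ) p - u p‖ ^ 2) atTop (𝓝 0)) := by
    intro w
    rw [tendsto_iff_norm_sub_tendsto_zero]
    simp only [← norm_incl_sub_sq]
    constructor
    · intro h
      simpa using h.pow 2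
    · intro h
      have h5 := (Real.continuous_sqrt.tendsto 0).comp h
      rw [Real.sqrt_zero] at h5
      refine h5.congr fun n => ?_
      simp only [Function.comp_apply]
      rw [Real.sqrt_sq (norm_nonneg _)]
  constructor
  · rintro ⟨w, hw, h1, h2, h3⟩
    refine ⟨fun n => ⟨w n, hw n⟩, (hconv _).mpr h1, h2, fun v => ?_⟩
    rw [inner_incl]
    exact h3 v v.2
  · rintro ⟨w, h1, h2, h3⟩
    refine ⟨fun n => w n, fun n => (w n).2, (hconv w).mp h1, h2, fun v hv => ?_⟩
    have := h3 ⟨v, hv⟩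
    rw [inner_incl] at this
    exact this

/-- A lower bound of the form bounds the spectrum from below. -/
theorem spec_subset {S : Set (ℝ × ℝ)} (hS : IsClosed S) {A : ℝ × ℝ → ℝ × ℝ}
    (hA : ContinuousOn A Sᶜ) (α : ℝ) {Γ : ℝ → ℝ × ℝ} (hΓ : Continuous Γ)
    (hΓc : ∀ u : ℝ × ℝ → ℂ, HasCompactSupport u → HasCompactSupport fun s => u (Γ s)) {K : ℝ}
    (hpos : ∀ u, Adm A u → 0 ≤ (∫ p, (‖magD1 A u p‖ ^ 2 + ‖magD2 A u p‖ ^ 2)) +
      K * (∫ p, ‖u p‖ ^ 2) - α * ∫ s, ‖u (Γ s)‖ ^ 2) :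
    spec α Γ A S ⊆ Ici (-K) := by
  intro E hE
  by_contra hlt
  rw [mem_Ici, not_le] at hlt
  refine hE fun g => ?_
  simp only [inGraph_iff]
  refine existsUnique_absGraph (K := K) (isHerm_form hS hA α hΓ hΓc) ?_ hlt g
  intro u
  rw [form_self_re, norm_incl_sq]
  have := hpos u (adm_test hS hA u.2)
  linarith

end Pool.Agent.H99.Leaky
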