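import Mathlib

set_option autoImplicit false

/-!
# Magnetic parallel transport along segments and around rectangles
-/

open MeasureTheory Filter Topology Set intervalIntegral

namespace Pool.Agent.H99.Leaky

/-- Parallel transport along a segment. -/
lemma transport_le {a b : ℝ} (hab : a ≤ b) {V V' : ℝ → ℂ} {A : ℝ → ℝ}
    (hV : ∀ τ ∈ Icc a b, HasDerivAt V (V' τ) τ) (hV' : ContinuousOn V' (Icc a b))
    (hA : ContinuousOn A (Icc a b)) :
    ‖V b - Complex.exp (Complex.I * (∫ τ in a..b, A τ : ℝ)) * V a‖ ≤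
      ∫ τ in a..b, ‖V' τ - Complex.I * A τ * V τ‖ := by
  set B : ℝ → ℝ := IccExtend hab (fun x : Icc a b => A x) with hB
  have hBc : Continuous B := by
    have : Continuous (fun x : Icc a b => A x) := continuousOn_iff_continuous_domRestrict.mp hA
    exact this.Icc_extend'
  have hBA : ∀ x ∈ Icc a b, B x = A x := by
    intro x hx
    rw [hB, IccExtend_of_mem _ _ hx]
  set φ : ℝ → ℝ := fun τ => ∫ x in a..τ, B x with hφ
  have hφd : ∀ τ, HasDerivAt φ (B τ) τ := fun τ =>
    intervalIntegral.integral_hasDerivAt_right (hBc.intervalIntegrable _ _)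
      (hBc.stronglyMeasurableAtFilter _ _) hBc.continuousAt
  have hφc : Continuous φ := continuous_iff_continuousAt.mpr fun τ => (hφd τ).continuousAt
  set E : ℝ → ℂ := fun τ => Complex.exp (-(Complex.I * (φ τ : ℂ))) with hE
  have hEd : ∀ τ, HasDerivAt E (E τ * (-(Complex.I * (B τ : ℂ)))) τ := by
    intro τ
    exact (((hφd τ).ofReal_comp.const_mul Complex.I).neg).cexp
  have hEn : ∀ τ, ‖E τ‖ = 1 := by
    intro τ
    have : -(Complex.I * (φ τ : ℂ)) = ((-φ τ : ℝ) : ℂ) * Complex.I := by push_cast; ring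
    rw [hE]
    simp only
    rw [this, Complex.norm_exp_ofReal_mul_I]
  have hEc : Continuous E := by fun_prop
  have hVc : ContinuousOn V (Icc a b) := fun τ hτ => (hV τ hτ).continuousAt.continuousWithinAt
  have hWd : ∀ τ ∈ uIcc a b, HasDerivAt (fun τ => E τ * V τ)
      (E τ * (V' τ - Complex.I * B τ * V τ)) τ := by
    intro τ hτ
    rw [uIcc_of_le hab] at hτ
    have := (hEd τ).mul (hV τ hτ)
    have e : E τ * (V' τ - Complex.I * B τ * V τ) =
        E τ * (-(Complex.I * (B τ : ℂ))) * V τ + E τ * V' τ := by ring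
    rw [e]
    exact this
  have hint : IntervalIntegrable (fun τ => E τ * (V' τ - Complex.I * B τ * V τ)) volume a b := by
    apply ContinuousOn.intervalIntegrable
    rw [uIcc_of_le hab]
    refine hEc.continuousOn.mul (hV'.sub (ContinuousOn.mul (ContinuousOn.mul continuousOn_const ?_)
      hVc))
    exact (Complex.continuous_ofReal.comp hBc).continuousOn
  have hFTC := intervalIntegral.integral_eq_sub_of_hasDerivAt hWd hint
  have hEa : E a = 1 := by simp [hE, hφ]
  have hint2 : (∫ τ in a..b, A τ) = φ b := by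
    rw [hφ]
    apply intervalIntegral.integral_congr
    intro x hx
    rw [uIcc_of_le hab] at hx
    exact (hBA x hx).symm
  have key : ‖V b - Complex.exp (Complex.I * (∫ τ in a..b, A τ : ℝ)) * V a‖ =
      ‖E b * V b - E a * V a‖ := by
    rw [hint2, hEa, one_mul]
    have h1 : E b * (V b - Complex.exp (Complex.I * (φ b : ℝ)) * V a) = E b * V b - V a := by
      rw [mul_sub, ← mul_assoc, hE]
      simp only
      rw [← Complex.exp_add]
      simp
    rw [← h1, norm_mul, hEn, one_mul]
  rw [key, ← hFTC]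
  refine (intervalIntegral.norm_integral_le_integral_norm hab).trans (le_of_eq ?_)
  apply intervalIntegral.integral_congr
  intro x hx
  rw [uIcc_of_le hab] at hx
  simp only [norm_mul, hEn, one_mul, hBA x hx]

/-- The modulus changes at most by the integral of the covariant derivative. -/
lemma norm_le_add_transport {a b : ℝ} (hab : a ≤ b) {V V' : ℝ → ℂ} {A : ℝ → ℝ}
    (hV : ∀ τ ∈ Icc a b, HasDerivAt V (V' τ) τ) (hV' : ContinuousOn V' (Icc a b))
    (hA : ContinuousOn A (Icc a b)) :
    ‖V a‖ ≤ ‖V b‖ + ∫ τ in a..b, ‖V' τ - Complex.I * A τ * V τ‖ ∧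
      ‖V b‖ ≤ ‖V a‖ + ∫ τ in a..b, ‖V' τ - Complex.I * A τ * V τ‖ := by
  have h := transport_le hab hV hV' hA
  have hn : ‖Complex.exp (Complex.I * (∫ τ in a..b, A τ : ℝ)) * V a‖ = ‖V a‖ := by
    rw [norm_mul, mul_comm Complex.I, Complex.norm_exp_ofReal_mul_I, one_mul]
  constructor
  · rw [← hn]
    have := norm_sub_norm_le (Complex.exp (Complex.I * (∫ τ in a..b, A τ : ℝ)) * V a) (V b)
    rw [norm_sub_rev] at this
    linarith
  · have := norm_sub_norm_le (V b) (Complex.exp (Complex.I * (∫ τ in a..b, A τ : ℝ)) * V a)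
    rw [hn] at this
    linarith

/-- Cauchy-Schwarz for interval integrals of continuous functions. -/
lemma sq_integral_le {a b : ℝ} (hab : a ≤ b) {f : ℝ → ℝ} (hf : ContinuousOn f (Icc a b)) :
    (∫ τ in a..b, f τ) ^ 2 ≤ (b - a) * ∫ τ in a..b, f τ ^ 2 := by
  rcases eq_or_lt_of_le hab with rfl | hlt
  · simp
  have hf' : IntervalIntegrable f volume a b := by
    apply ContinuousOn.intervalIntegrable; rwa [uIcc_of_le hab]
  have hf2 : IntervalIntegrable (fun τ => f τ ^ 2) volume a b := by
    apply ContinuousOn.intervalIntegrable; rw [uIcc_of_le hab]; exact hf.pow 2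
  set m : ℝ := (∫ τ in a..b, f τ) / (b - a) with hm
  have hba : 0 < b - a := sub_pos.mpr hlt
  have h0 : 0 ≤ ∫ τ in a..b, (f τ - m) ^ 2 :=
    intervalIntegral.integral_nonneg hab fun τ _ => sq_nonneg _
  have h1 : ∫ τ in a..b, (f τ - m) ^ 2 =
      (∫ τ in a..b, f τ ^ 2) - 2 * m * (∫ τ in a..b, f τ) + (b - a) * m ^ 2 := by
    have : (fun τ => (f τ - m) ^ 2) = fun τ => f τ ^ 2 - 2 * m * f τ + m ^ 2 := by
      funext τ; ring
    rw [this, intervalIntegral.integral_add (hf2.sub (hf'.const_mul _)) (by simp),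
      intervalIntegral.integral_sub hf2 (hf'.const_mul _), intervalIntegral.integral_const_mul,
      intervalIntegral.integral_const, smul_eq_mul]
  have h2 : (∫ τ in a..b, f τ) = m * (b - a) := by rw [hm]; field_simp
  rw [h1] at h0
  rw [h2] at h0 ⊢
  nlinarith [mul_nonneg hba.le h0]

end Pool.Agent.H99.Leaky
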